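import Pool.Agent.H56.Adiab.Raw

/-!
# Friedrichs extensions in terms of a first order factorization
-/

open MeasureTheory Filter Topology Set
open scoped ENNReal InnerProductSpace ContDiff

namespace Pool.Agent.H56.Adiab

open AdiabRaw

variable {𝒟 H H' : Type*} [AddCommGroup 𝒟] [Module ℂ 𝒟]
  [NormedAddCommGroup H] [InnerProductSpace ℂ H] [CompleteSpace H]
  [NormedAddCommGroup H'] [InnerProductSpace ℂ H'] [CompleteSpace H']

/-- the embedding `φ ↦ (φ, L φ)` -/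
def emb (ι : 𝒟 →ₗ[ℂ] H) (L : 𝒟 →ₗ[ℂ] H') : 𝒟 →ₗ[ℂ] WithLp 2 (H × H') :=
  (WithLp.linearEquiv 2 ℂ (H × H')).symm.toLinearMap ∘ₗ (ι.prod L)

/-- the form domain -/
def formSpace (ι : 𝒟 →ₗ[ℂ] H) (L : 𝒟 →ₗ[ℂ] H') : Submodule ℂ (WithLp 2 (H × H')) :=
  (LinearMap.range (emb ι L)).topologicalClosure

instance (ι : 𝒟 →ₗ[ℂ] H) (L : 𝒟 →ₗ[ℂ] H') : CompleteSpace (formSpace ι L) :=
  (Submodule.isClosed_topologicalClosure _).completeSpace_coe

/-- the inclusion of the first factor -/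
noncomputable def inlL (H H' : Type*) [NormedAddCommGroup H] [InnerProductSpace ℂ H]
    [NormedAddCommGroup H'] [InnerProductSpace ℂ H'] : H →L[ℂ] WithLp 2 (H × H') :=
  (WithLp.prodContinuousLinearEquiv 2 ℂ H H').symm.toContinuousLinearMap ∘L
    (ContinuousLinearMap.inl ℂ H H')

lemma inlL_apply (g : H) : inlL H H' g = WithLp.toLp 2 (g, 0) := rfl

/-- the resolvent at `-1` of `L^* L` -/
noncomputable def res0 (ι : 𝒟 →ₗ[ℂ] H) (L : 𝒟 →ₗ[ℂ] H') : H →L[ℂ] H :=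
  (WithLp.fstL 2 ℂ H H') ∘L (formSpace ι L).starProjection ∘L (inlL H H')

/-- the second component -/
noncomputable def res1 (ι : 𝒟 →ₗ[ℂ] H) (L : 𝒟 →ₗ[ℂ] H') : H →L[ℂ] H' :=
  (WithLp.sndL 2 ℂ H H') ∘L (formSpace ι L).starProjection ∘L (inlL H H')

section

variable (ι A : 𝒟 →ₗ[ℂ] H) (L : 𝒟 →ₗ[ℂ] H')

lemma emb_mem (φ : 𝒟) : emb ι L φ ∈ formSpace ι L :=
  Submodule.le_topologicalClosure _ ⟨φ, rfl⟩

lemma proj_eq (g : H) :
    (formSpace ι L).starProjection (inlL H H' g) = WithLp.toLp 2 (res0 ι L g, res1 ι L g) := rfl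

lemma res_orth (g : H) (φ : 𝒟) : ⟪g - res0 ι L g, ι φ⟫_ℂ = ⟪res1 ι L g, L φ⟫_ℂ := by
  have h := Submodule.starProjection_inner_eq_zero (K := formSpace ι L) (inlL H H' g) (emb ι L φ)
    (emb_mem ι L φ)
  rw [proj_eq, inlL_apply] at h
  have h2 : ⟪g - res0 ι L g, ι φ⟫_ℂ + ⟪(0 : H') - res1 ι L g, L φ⟫_ℂ = 0 := h
  rw [zero_sub, inner_neg_left] at h2
  linear_combination h2

lemma res_seq (g : H) : ∃ φ : ℕ → 𝒟, Tendsto (fun n => ι (φ n)) atTop (𝓝 (res0 ι L g)) ∧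
    Tendsto (fun n => L (φ n)) atTop (𝓝 (res1 ι L g)) := by
  have h : (formSpace ι L).starProjection (inlL H H' g) ∈ formSpace ι L :=
    Submodule.starProjection_apply_mem _ _
  have h1 : (formSpace ι L).starProjection (inlL H H' g) ∈
      closure ((LinearMap.range (emb ι L) : Submodule ℂ (WithLp 2 (H × H'))) :
        Set (WithLp 2 (H × H'))) := h
  rw [mem_closure_iff_seq_limit] at h1
  obtain ⟨x, hx, hlim⟩ := h1
  choose φ hφ using hx
  refine ⟨φ, ?_, ?_⟩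
  · have := ((WithLp.fstL 2 ℂ H H').continuous.tendsto _).comp hlim
    refine this.congr ?_
    intro n
    simp only [Function.comp_apply, ← hφ n]
    rfl
  · have := ((WithLp.sndL 2 ℂ H H').continuous.tendsto _).comp hlim
    refine this.congr ?_
    intro n
    simp only [Function.comp_apply, ← hφ n]
    rfl

variable {ι A L} (hL : ∀ φ ψ, ⟪ι φ, A ψ⟫_ℂ = ⟪L φ, L ψ⟫_ℂ)

include hL

lemma res0_apply (φ : 𝒟) : res0 ι L (ι φ + A φ) = ι φ := by
  have h : (formSpace ι L).starProjection (inlL H H' (ι φ + A φ)) = emb ι L φ := by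
    apply Submodule.eq_starProjection_of_mem_of_inner_eq_zero (emb_mem ι L φ)
    intro w hw
    have hcl : IsClosed {w : WithLp 2 (H × H') |
        ⟪inlL H H' (ι φ + A φ) - emb ι L φ, w⟫_ℂ = 0} :=
      isClosed_eq (by fun_prop) continuous_const
    refine closure_minimal ?_ hcl hw
    rintro _ ⟨ψ, rfl⟩
    show ⟪ι φ + A φ - ι φ, ι ψ⟫_ℂ + ⟪(0 : H') - L φ, L ψ⟫_ℂ = 0
    rw [add_sub_cancel_left, zero_sub, inner_neg_left, ← hL φ ψ, ← inner_conj_symm, hL ψ φ,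
      inner_conj_symm, hL φ ψ]
    ring
  have h2 := proj_eq ι L (ι φ + A φ)
  rw [h] at h2
  have h3 := congrArg (fun z : WithLp 2 (H × H') => (WithLp.fstL 2 ℂ H H') z) h2
  exact h3.symm

lemma isFriedrichs_res0 :
    IsFriedrichsResolvent (Set.range fun φ => (ι φ, A φ)) (res0 ι L) := by
  refine ⟨?_, ?_⟩
  · rintro g _ ⟨φ, rfl⟩
    obtain ⟨ψ, h1, h2⟩ := res_seq ι L g
    have h3 : ⟪res0 ι L g, A φ⟫_ℂ = ⟪res1 ι L g, L φ⟫_ℂ := by
      have e1 : Tendsto (fun n => ⟪ι (ψ n), A φ⟫_ℂ) atTop (𝓝 ⟪res0 ι L g, A φ⟫_ℂ) :=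
        h1.inner tendsto_const_nhds
      have e2 : Tendsto (fun n => ⟪L (ψ n), L φ⟫_ℂ) atTop (𝓝 ⟪res1 ι L g, L φ⟫_ℂ) :=
        h2.inner tendsto_const_nhds
      simp only [hL] at e1
      exact tendsto_nhds_unique e1 e2
    show ⟪res0 ι L g, ι φ + A φ⟫_ℂ = ⟪g, ι φ⟫_ℂ
    rw [inner_add_right, h3, ← res_orth, inner_sub_left]
    ring
  · intro g
    obtain ⟨ψ, h1, h2⟩ := res_seq ι L g
    refine ⟨fun n => (ι (ψ n), A (ψ n)), fun n => ⟨ψ n, rfl⟩, h1, ?_⟩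
    have e1 : Tendsto (fun m : ℕ × ℕ => L (ψ m.1) - L (ψ m.2)) atTop (𝓝 (res1 ι L g - res1 ι L g)) := by
      rw [← prod_atTop_atTop_eq]
      exact (h2.comp tendsto_fst).sub (h2.comp tendsto_snd)
    rw [sub_self] at e1
    have e2 := e1.inner (𝕜 := ℂ) e1
    rw [inner_zero_left] at e2
    refine e2.congr ?_
    intro m
    simp only [← map_sub, hL]

/-- uniqueness of the Friedrichs resolvent -/
lemma friedrichs_unique {R R' : H →L[ℂ] H}
    (h : IsFriedrichsResolvent (Set.range fun φ => (ι φ, A φ)) R)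
    (h' : IsFriedrichsResolvent (Set.range fun φ => (ι φ, A φ)) R') : R = R' := by
  have key : ∀ {R : H →L[ℂ] H}, IsFriedrichsResolvent (Set.range fun φ => (ι φ, A φ)) R →
      ∀ g, ∃ (φ : ℕ → 𝒟) (l : H'), Tendsto (fun n => ι (φ n)) atTop (𝓝 (R g)) ∧
        Tendsto (fun n => L (φ n)) atTop (𝓝 l) := by
    intro R h g
    obtain ⟨p, hp, hp1, hp2⟩ := h.form g
    choose φ hφ using hp
    have hφ1 : ∀ n, (p n).1 = ι (φ n) := fun n => by rw [← hφ n]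
    have hφ2 : ∀ n, (p n).2 = A (φ n) := fun n => by rw [← hφ n]
    simp only [hφ1, hφ2, ← map_sub, hL] at hp1 hp2
    have hn : Tendsto (fun m : ℕ × ℕ => ‖L (φ m.1 - φ m.2)‖) atTop (𝓝 0) := by
      have e := hp2.norm
      have e2 : Tendsto (fun m : ℕ × ℕ => √ (‖⟪L (φ m.1 - φ m.2), L (φ m.1 - φ m.2)⟫_ℂ‖)) atTop
          (𝓝 (√ ‖(0 : ℂ)‖)) := (Real.continuous_sqrt.tendsto _).comp e
      simp only [inner_self_eq_norm_sq_to_K, norm_zero, Real.sqrt_zero] at e2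
      refine e2.congr ?_
      intro m
      simp only [Complex.coe_algebraMap, norm_pow, Complex.norm_real, norm_norm]
      exact Real.sqrt_sq (norm_nonneg _)
    have hcau : CauchySeq (fun n => L (φ n)) := by
      rw [Metric.cauchySeq_iff]
      intro ε hε
      have := hn.eventually (gt_mem_nhds hε)
      rw [← prod_atTop_atTop_eq, eventually_prod_iff] at this
      obtain ⟨pa, hpa, pb, hpb, hab⟩ := this
      obtain ⟨N, hN⟩ := eventually_atTop.1 (hpa.and hpb)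
      refine ⟨N, fun m hm n hn => ?_⟩
      rw [dist_eq_norm, ← map_sub]
      exact hab (hN m hm).1 (hN n hn).2
    obtain ⟨l, hl⟩ := cauchySeq_tendsto_of_complete hcau
    exact ⟨φ, l, hp1, hl⟩
  ext g
  obtain ⟨φ, l, hφ1, hφ2⟩ := key h g
  obtain ⟨ψ, l', hψ1, hψ2⟩ := key h' g
  have hweak : ∀ χ, ⟪R g - R' g, ι χ + A χ⟫_ℂ = 0 := by
    intro χ
    have e1 := h.adjoint g _ ⟨χ, rfl⟩
    have e2 := h'.adjoint g _ ⟨χ, rfl⟩
    simp only at e1 e2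
    rw [inner_sub_left, e1, e2, sub_self]
  set v := R g - R' g with hv
  have hχ1 : Tendsto (fun n => ι (φ n - ψ n)) atTop (𝓝 v) := by
    simp only [map_sub]
    exact hφ1.sub hψ1
  have hχ2 : Tendsto (fun n => L (φ n - ψ n)) atTop (𝓝 (l - l')) := by
    simp only [map_sub]
    exact hφ2.sub hψ2
  have h2 : ∀ χ, ⟪v, ι χ⟫_ℂ + ⟪l - l', L χ⟫_ℂ = 0 := by
    intro χ
    have e1 : Tendsto (fun n => ⟪ι (φ n - ψ n), A χ⟫_ℂ) atTop (𝓝 ⟪v, A χ⟫_ℂ) :=
      hχ1.inner tendsto_const_nhds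
    simp only [hL] at e1
    have e2 : Tendsto (fun n => ⟪L (φ n - ψ n), L χ⟫_ℂ) atTop (𝓝 ⟪l - l', L χ⟫_ℂ) :=
      hχ2.inner tendsto_const_nhds
    rw [← tendsto_nhds_unique e1 e2, ← inner_add_right]
    exact hweak χ
  have h3 : ⟪v, v⟫_ℂ + ⟪l - l', l - l'⟫_ℂ = 0 := by
    have e1 : Tendsto (fun n => ⟪v, ι (φ n - ψ n)⟫_ℂ + ⟪l - l', L (φ n - ψ n)⟫_ℂ) atTop
        (𝓝 (⟪v, v⟫_ℂ + ⟪l - l', l - l'⟫_ℂ)) :=
      (tendsto_const_nhds.inner hχ1).add (tendsto_const_nhds.inner hχ2)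
    simp only [h2] at e1
    exact tendsto_nhds_unique e1 tendsto_const_nhds |>.trans rfl
  have h4 : ‖v‖ ^ 2 + ‖l - l'‖ ^ 2 = 0 := by
    have := congrArg Complex.re h3
    rw [inner_self_eq_norm_sq_to_K, inner_self_eq_norm_sq_to_K] at this
    simpa [← Complex.ofReal_pow] using this
  have h5 : ‖v‖ = 0 := by nlinarith [norm_nonneg v, sq_nonneg ‖v‖, sq_nonneg ‖l - l'‖]
  rw [← sub_eq_zero]
  exact norm_eq_zero.1 h5

lemma resolvent_eq : friedrichsResolvent (Set.range fun φ => (ι φ, A φ)) = res0 ι L := by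
  have h : ∃ R, IsFriedrichsResolvent (Set.range fun φ => (ι φ, A φ)) R :=
    ⟨_, isFriedrichs_res0 hL⟩
  unfold friedrichsResolvent
  rw [dif_pos h]
  exact friedrichs_unique hL h.choose_spec (isFriedrichs_res0 hL)

end

section

variable (ι A : 𝒟 →ₗ[ℂ] H) (L : 𝒟 →ₗ[ℂ] H')

/-- energy identity -/
lemma res_energy (g : H) : ⟪g - res0 ι L g, res0 ι L g⟫_ℂ = ⟪res1 ι L g, res1 ι L g⟫_ℂ := by
  obtain ⟨φ, h1, h2⟩ := res_seq ι L g
  have e1 : Tendsto (fun n => ⟪g - res0 ι L g, ι (φ n)⟫_ℂ) atTop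
      (𝓝 ⟪g - res0 ι L g, res0 ι L g⟫_ℂ) := tendsto_const_nhds.inner h1
  have e2 : Tendsto (fun n => ⟪res1 ι L g, L (φ n)⟫_ℂ) atTop
      (𝓝 ⟪res1 ι L g, res1 ι L g⟫_ℂ) := tendsto_const_nhds.inner h2
  simp only [res_orth] at e1
  exact tendsto_nhds_unique e1 e2

lemma res_sym (g g' : H) : ⟪res0 ι L g, g'⟫_ℂ = ⟪g, res0 ι L g'⟫_ℂ := by
  have h1 : ∀ a b : H, ⟪res0 ι L a, b⟫_ℂ =
      ⟪(formSpace ι L).starProjection (inlL H H' a), inlL H H' b⟫_ℂ := by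
    intro a b
    rw [proj_eq, inlL_apply]
    show _ = ⟪res0 ι L a, b⟫_ℂ + ⟪res1 ι L a, (0 : H')⟫_ℂ
    rw [inner_zero_right, add_zero]
  rw [h1, Submodule.inner_starProjection_left_eq_right, ← inner_conj_symm, ← h1, inner_conj_symm]

lemma res_isSelfAdjoint : IsSelfAdjoint (res0 ι L) := by
  rw [ContinuousLinearMap.isSelfAdjoint_iff_isSymmetric]
  intro x y
  exact res_sym ι L x y

lemma res_norm_sq_le (g : H) : ‖res0 ι L g‖ ^ 2 ≤ (⟪g, res0 ι L g⟫_ℂ).re := by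
  have h := congrArg Complex.re (res_energy ι L g)
  rw [inner_sub_left, inner_self_eq_norm_sq_to_K, inner_self_eq_norm_sq_to_K] at h
  have h2 : (⟪g, res0 ι L g⟫_ℂ).re - ‖res0 ι L g‖ ^ 2 = ‖res1 ι L g‖ ^ 2 := by
    simpa [← Complex.ofReal_pow] using h
  nlinarith [sq_nonneg ‖res1 ι L g‖]

lemma res_nonneg : 0 ≤ res0 ι L := by
  rw [ContinuousLinearMap.nonneg_iff_isPositive]
  refine ⟨(res_isSelfAdjoint ι L).isSymmetric, ?_⟩
  intro x
  have h := res_norm_sq_le ι L x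
  rw [ContinuousLinearMap.reApplyInnerSelf_apply]
  have h2 : 0 ≤ (⟪x, res0 ι L x⟫_ℂ).re := le_trans (by positivity) h
  rw [← inner_conj_symm, Complex.conj_re] at h2
  exact h2

lemma res_norm_le (g : H) : ‖res0 ι L g‖ ≤ ‖g‖ := by
  have h := res_norm_sq_le ι L g
  have h1 : (⟪g, res0 ι L g⟫_ℂ).re ≤ ‖g‖ * ‖res0 ι L g‖ :=
    (Complex.re_le_norm _).trans (norm_inner_le_norm _ _)
  by_contra hc
  push Not at hc
  nlinarith [norm_nonneg g, norm_nonneg (res0 ι L g)]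

lemma res_spectrum : spectrum ℝ (res0 ι L) ⊆ Set.Icc 0 1 := by
  intro r hr
  constructor
  · exact spectrum_nonneg_of_nonneg (res_nonneg ι L) hr
  · have h1 : ‖res0 ι L‖ ≤ 1 :=
      ContinuousLinearMap.opNorm_le_bound _ zero_le_one (fun g => by
        rw [one_mul]; exact res_norm_le ι L g)
    have h2 := spectrum.norm_le_norm_mul_of_mem hr
    have h3 : ‖(1 : H →L[ℂ] H)‖ ≤ 1 := ContinuousLinearMap.norm_id_le
    have h4 : ‖r‖ ≤ 1 := by
      calc ‖r‖ ≤ ‖res0 ι L‖ * ‖(1 : H →L[ℂ] H)‖ := h2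
        _ ≤ 1 * 1 := by gcongr
        _ = 1 := one_mul 1
    exact (Real.le_norm_self r).trans h4

end

end Pool.Agent.H56.Adiab
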