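import Pool.Agent.H56.Adiab.Lower

/-!
# The function `b`
-/

open MeasureTheory Filter Topology Set
open scoped ENNReal InnerProductSpace ContDiff

namespace Pool.Agent.H56.Adiab

open AdiabRaw

/-- a fat Cantor set: a compact set of irrational numbers of large measure -/
lemma exists_fat : ∃ K : Set ℝ, K ⊆ Ioo 0 1 ∧ IsCompact K ∧ ENNReal.ofReal (1 / 2) ≤ volume K ∧
    ∀ q : ℚ, (q : ℝ) ∉ K := by
  have hA : MeasurableSet (Ioo (0 : ℝ) 1 \ Set.range ((↑) : ℚ → ℝ)) :=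
    measurableSet_Ioo.diff (Set.countable_range _).measurableSet
  have hv : volume (Ioo (0 : ℝ) 1 \ Set.range ((↑) : ℚ → ℝ)) = 1 := by
    rw [measure_sdiff_null (Set.Countable.measure_zero (Set.countable_range _) _), Real.volume_Ioo]
    simp
  have hlt : ENNReal.ofReal (1 / 2) < volume (Ioo (0 : ℝ) 1 \ Set.range ((↑) : ℚ → ℝ)) := by
    rw [hv, ← ENNReal.ofReal_one]
    exact ENNReal.ofReal_lt_ofReal_iff_of_nonneg (by norm_num) |>.2 (by norm_num)
  obtain ⟨K, hK, hKc, hKv⟩ := hA.exists_lt_isCompact hlt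
  refine ⟨K, fun x hx => (hK hx).1, hKc, hKv.le, ?_⟩
  intro q hq
  exact (hK hq).2 ⟨q, rfl⟩

/-- the square root of `b`, up to a constant -/
lemma exists_a : ∃ a : ℝ → ℝ, Per a ∧ (∀ y, 0 ≤ a y) ∧ (∀ y, a y ≤ 1) ∧
    ENNReal.ofReal (1 / 2) ≤ volume ({y | a y = 0} ∩ Ioc 0 1) ∧ ∀ q : ℚ, a q ≠ 0 := by
  obtain ⟨K, hK1, hK2, hK3, hK4⟩ := exists_fat
  set e : ℝ → ℂ := fun y => Complex.exp (2 * Real.pi * Complex.I * y) with he
  have hes : ContDiff ℝ ∞ e :=
    (contDiff_const.mul Complex.ofRealCLM.contDiff).cexp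
  have hC : IsClosed (e '' K) := (hK2.image hes.continuous).isClosed
  obtain ⟨ψ, hψ1, hψ2, hψ3⟩ := hC.isOpen_compl.exists_contDiff_support_eq (n := ⊤)
  have hzero : ∀ y, ψ (e y) = 0 ↔ e y ∈ e '' K := by
    intro y
    have : ψ (e y) ≠ 0 ↔ e y ∈ (e '' K)ᶜ := by
      rw [← hψ1]; rfl
    rw [← not_iff_not, ← ne_eq, this]
    rfl
  refine ⟨fun y => ψ (e y), ⟨hψ2.comp hes, ?_⟩, ?_, ?_, ?_, ?_⟩
  · intro y
    have : e (y + 1) = e y := by
      simp only [he]
      push_cast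
      rw [mul_add, mul_one, Complex.exp_add, Complex.exp_two_pi_mul_I, mul_one]
    show ψ (e (y + 1)) = _
    rw [this]
  · intro y
    exact (hψ3 ⟨e y, rfl⟩).1
  · intro y
    exact (hψ3 ⟨e y, rfl⟩).2
  · refine hK3.trans (measure_mono ?_)
    intro y hy
    exact ⟨(hzero y).2 ⟨y, hy, rfl⟩, Ioo_subset_Ioc_self (hK1 hy)⟩
  · intro q hq
    obtain ⟨k, hk, hke⟩ := (hzero q).1 hq
    simp only [he] at hke
    rw [Complex.exp_eq_exp_iff_exists_int] at hke
    obtain ⟨n, hn⟩ := hke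
    have h1 : (k : ℂ) = (q : ℝ) + n := by
      have hpi : (Real.pi : ℂ) ≠ 0 := by exact_mod_cast Real.pi_ne_zero
      have h2 : 2 * (Real.pi : ℂ) * Complex.I ≠ 0 := by simp [hpi]
      apply mul_left_cancel₀ h2
      rw [hn]
      ring
    have h2 : k = ((q + n : ℚ) : ℝ) := by
      have : (k : ℂ) = (((q + n : ℚ) : ℝ) : ℂ) := by rw [h1]; push_cast; ring
      exact_mod_cast this
    exact hK4 (q + n) (h2 ▸ hk)

/-- the values of `a ^ 2` on plateaus -/
def plateau (a : ℝ → ℝ) : Set ℝ := {v | (interior {y | a y ^ 2 = v}).Nonempty}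

lemma plateau_countable (a : ℝ → ℝ) : (plateau a).Countable := by
  apply Set.PairwiseDisjoint.countable_of_isOpen (s := fun v => interior {y | a y ^ 2 = v})
  · intro v _ w _ hvw
    show Disjoint (interior {y | a y ^ 2 = v}) (interior {y | a y ^ 2 = w})
    rw [Set.disjoint_left]
    intro y hy hy'
    have e1 : y ∈ {y | a y ^ 2 = v} := interior_subset hy
    have e2 : y ∈ {y | a y ^ 2 = w} := interior_subset hy'
    exact hvw (e1.symm.trans e2)
  · intro v _
    exact isOpen_interior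
  · intro v hv
    exact hv

lemma Per.bdd {a : ℝ → ℝ} (ha : Per a) : ∃ A, 0 ≤ A ∧ ∀ y, |a y| ≤ A := by
  obtain ⟨A, hA⟩ := (isCompact_Icc (a := (0 : ℝ)) (b := 1)).exists_bound_of_continuousOn
    ha.smooth.continuous.continuousOn
  refine ⟨A, (norm_nonneg _).trans (hA 0 (by simp)), ?_⟩
  intro y
  have h1 := ha.per.sub_zsmul_eq ⌊y⌋ (x := y)
  rw [← h1]
  have h2 : y - ⌊y⌋ • (1 : ℝ) = Int.fract y := by
    rw [zsmul_one]
    rfl
  rw [h2]
  exact hA _ ⟨Int.fract_nonneg y, (Int.fract_lt_one y).le⟩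

theorem exists_b (l : ℝ) (hl : 0 < l) : ∃ (b : ℝ → ℝ) (D : ℝ), BB b D ∧
    (∀ y, |deriv b y| ≤ 1) ∧
    ∀ s : ℝ, s ≠ 0 → Dense {p : Pt | flow b s p - p ∉ lattice l} := by
  obtain ⟨a, ha, ha0, ha1, hav, haq⟩ := exists_a
  obtain ⟨A, hA0, hA⟩ := ha.deriv.bdd
  -- the bad values of `κ`
  set Bad : Set ℝ := ⋃ v ∈ plateau a, ⋃ m : ℤ × ℤ, {(m.1 : ℝ) / (m.2 * l * v)} with hBad
  have hBadc : Bad.Countable :=
    (plateau_countable a).biUnion fun v _ => Set.countable_iUnion fun m => Set.countable_singleton _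
  obtain ⟨κ, hκ1, hκ2⟩ := (hBadc.dense_compl ℝ).exists_mem_open (isOpen_Ioo (a := (0 : ℝ))
    (b := 1 / (2 * A + 1))) ⟨1 / (2 * A + 1) / 2, by
      constructor
      · positivity
      · apply half_lt_self; positivity⟩
  have hκ0 : 0 < κ := hκ2.1
  have hκA : κ * (2 * A + 1) < 1 := (lt_div_iff₀ (by positivity)).1 hκ2.2
  have hder : ∀ y, HasDerivAt (fun y => κ * a y ^ 2) (κ * (2 * a y * deriv a y)) y := by
    intro y
    have h1 := (ha.smooth.differentiable (by simp) y).hasDerivAt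
    have h2 := (h1.pow 2).const_mul κ
    refine h2.congr_deriv ?_
    norm_num
  have hder' : ∀ y, deriv (fun y => κ * a y ^ 2) y = κ * (2 * a y * deriv a y) :=
    fun y => (hder y).deriv
  have hdense0 : ∀ O : Set ℝ, IsOpen O → O.Nonempty → ∃ y ∈ O, a y ≠ 0 := by
    intro O hO hne
    obtain ⟨q, hq⟩ := (Rat.denseRange_cast (𝕜 := ℝ)).exists_mem_open hO hne
    exact ⟨q, hq, haq q⟩
  refine ⟨fun y => κ * a y ^ 2, 4 * κ * A ^ 2, ⟨⟨?_, ?_⟩, ?_, ?_, ?_⟩, ?_, ?_⟩
  · exact contDiff_const.mul (ha.smooth.pow 2)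
  · intro y
    show κ * a (y + 1) ^ 2 = _
    rw [ha.per y]
  · intro y
    positivity
  · intro y
    rw [hder']
    have h1 : (deriv a y) ^ 2 ≤ A ^ 2 := by
      rw [← sq_abs]
      exact pow_le_pow_left₀ (abs_nonneg _) (hA y) 2
    calc (κ * (2 * a y * deriv a y)) ^ 2 = 4 * κ * (deriv a y) ^ 2 * (κ * a y ^ 2) := by ring
      _ ≤ 4 * κ * A ^ 2 * (κ * a y ^ 2) := by gcongr
  · refine hav.trans (measure_mono ?_)
    rintro y ⟨hy, hy'⟩
    refine ⟨?_, hy'⟩
    show κ * a y ^ 2 = 0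
    rw [show a y = 0 from hy]
    ring
  · intro y
    rw [hder', abs_mul, abs_mul, abs_mul, abs_of_pos hκ0, abs_of_nonneg (ha0 y)]
    calc κ * (|2| * a y * |deriv a y|) ≤ κ * (2 * 1 * A) := by
          have := hA y
          have := ha1 y
          have := ha0 y
          rw [abs_of_pos (by norm_num : (0 : ℝ) < 2)]
          gcongr
      _ ≤ κ * (2 * A + 1) := by gcongr; linarith
      _ ≤ 1 := hκA.le
  · intro s hs
    rw [dense_iff_inter_open]
    intro U hU hUne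
    by_contra hcon
    have hall : ∀ p ∈ U, flow (fun y => κ * a y ^ 2) s p - p ∈ lattice l := by
      intro p hp
      by_contra h
      exact hcon ⟨p, hp, h⟩
    obtain ⟨⟨x0, y0, z0⟩, hp0⟩ := hUne
    have hfl : ∀ p : Pt, flow (fun y => κ * a y ^ 2) s p - p = (s, 0, s * (κ * a p.2.1 ^ 2)) := by
      intro p
      unfold flow
      ext <;> simp
    obtain ⟨i, j, k, hijk⟩ := hall _ hp0
    rw [hfl] at hijk
    have hsi : s = i * l := (Prod.ext_iff.1 hijk).1
    have hi0 : (i : ℝ) ≠ 0 := by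
      rintro h
      rw [h, zero_mul] at hsi
      exact hs hsi
    have hsk : s * (κ * a y0 ^ 2) = k := (Prod.ext_iff.1 (Prod.ext_iff.1 hijk).2).2
    -- the slice
    have hO : ∀ᶠ y in 𝓝 y0, ((x0, y, z0) : Pt) ∈ U := by
      have hc : Continuous fun y : ℝ => ((x0, y, z0) : Pt) := by fun_prop
      exact hc.continuousAt.eventually (hU.mem_nhds hp0)
    have hclose : ∀ᶠ y in 𝓝 y0, |s * (κ * a y ^ 2) - s * (κ * a y0 ^ 2)| < 1 := by
      have hac := ha.smooth.continuous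
      have hc : Continuous fun y : ℝ => |s * (κ * a y ^ 2) - s * (κ * a y0 ^ 2)| := by fun_prop
      exact hc.continuousAt.eventually_lt continuousAt_const (by simp)
    have hconst : ∀ᶠ y in 𝓝 y0, a y ^ 2 = a y0 ^ 2 := by
      filter_upwards [hO, hclose] with y h1 h2
      obtain ⟨i', j', k', h'⟩ := hall _ h1
      rw [hfl] at h'
      have hk' : s * (κ * a y ^ 2) = k' := (Prod.ext_iff.1 (Prod.ext_iff.1 h').2).2
      rw [hk', hsk] at h2
      have h3 : k' = k := by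
        have : |((k' - k : ℤ) : ℝ)| < 1 := by push_cast; exact h2
        rw [← Int.cast_abs] at this
        have h4 : |k' - k| < 1 := by exact_mod_cast this
        have := Int.abs_lt_one_iff.1 h4
        omega
      have h4 : s * (κ * a y ^ 2) = s * (κ * a y0 ^ 2) := by rw [hk', hsk, h3]
      have h5 := mul_left_cancel₀ hs h4
      exact mul_left_cancel₀ hκ0.ne' h5
    have hint : y0 ∈ interior {y | a y ^ 2 = a y0 ^ 2} := mem_interior_iff_mem_nhds.2 hconst
    have hplat : a y0 ^ 2 ∈ plateau a := ⟨y0, hint⟩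
    have hv0 : a y0 ^ 2 ≠ 0 := by
      obtain ⟨y, hy, hay⟩ := hdense0 _ isOpen_interior ⟨y0, hint⟩
      have e1 : y ∈ {y | a y ^ 2 = a y0 ^ 2} := interior_subset hy
      rw [← (show a y ^ 2 = a y0 ^ 2 from e1)]
      exact pow_ne_zero 2 hay
    apply hκ1
    simp only [hBad, Set.mem_iUnion, Set.mem_singleton_iff]
    refine ⟨a y0 ^ 2, hplat, (k, i), ?_⟩
    show κ = (k : ℝ) / (i * l * a y0 ^ 2)
    rw [← hsk, hsi]
    have hl0 := hl.ne'
    have hay0 : a y0 ≠ 0 := fun h => hv0 (by rw [h]; ring)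
    field_simp

end Pool.Agent.H56.Adiab
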