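import Pool.Agent.H56.Adiab.Abs

/-!
# Functional calculus and traces
-/

open MeasureTheory Filter Topology Set
open scoped ENNReal InnerProductSpace ContDiff

namespace Pool.Agent.H56.Adiab

open AdiabRaw

/-- the function `f(A)` as a function of the resolvent -/
noncomputable def GG (g : ℝ → ℝ) (r : ℝ) : ℝ := if r = 0 then 0 else g (r⁻¹ - 1)

lemma continuous_GG {g : ℝ → ℝ} (hg : Continuous g) (hs : ∀ x, 1 < |x| → g x = 0) :
    Continuous (GG g) := by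
  rw [continuous_iff_continuousAt]
  intro r
  by_cases hr : r = 0
  · have h0 : GG g =ᶠ[𝓝 r] fun _ => 0 := by
      rw [hr]
      filter_upwards [Metric.ball_mem_nhds (0 : ℝ) (by norm_num : (0 : ℝ) < 1 / 3)] with x hx
      unfold GG
      split_ifs with hx0
      · rfl
      · apply hs
        rw [mem_ball_zero_iff, Real.norm_eq_abs] at hx
        have hx1 : 0 < |x| := abs_pos.2 hx0
        have h3 : 3 < |x⁻¹| := by
          rw [abs_inv, lt_inv_comm₀ (by norm_num) hx1]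
          linarith
        have h4 := abs_sub_abs_le_abs_sub (x⁻¹) 1
        rw [abs_one] at h4
        linarith
    exact continuousAt_const.congr h0.symm
  · have h0 : GG g =ᶠ[𝓝 r] fun r => g (r⁻¹ - 1) := by
      filter_upwards [isOpen_ne.mem_nhds hr] with x hx
      unfold GG
      rw [if_neg hx]
    refine ContinuousAt.congr ?_ h0.symm
    exact hg.continuousAt.comp ((continuousAt_inv₀ hr).sub continuousAt_const)

section

variable {H : Type*} [NormedAddCommGroup H] [InnerProductSpace ℂ H] [CompleteSpace H]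

lemma cfc_GG_sq {g : ℝ → ℝ} (hg : Continuous g) (hs : ∀ x, 1 < |x| → g x = 0) (R : H →L[ℂ] H) :
    cfc (GG fun x => g x ^ 2) R = cfc (GG g) R * cfc (GG g) R := by
  rw [← cfc_mul (GG g) (GG g) R (continuous_GG hg hs).continuousOn
    (continuous_GG hg hs).continuousOn]
  congr 1
  ext r
  unfold GG
  split_ifs
  · ring
  · ring

lemma cfc_GG_fact {g : ℝ → ℝ} (hg : Continuous g) (hs : ∀ x, 1 < |x| → g x = 0)
    {R : H →L[ℂ] H} (hR : IsSelfAdjoint R) :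
    cfc (GG g) R = R * cfc (GG fun x => (1 + x) * g x) R := by
  have h1 : Continuous (GG fun x => (1 + x) * g x) :=
    continuous_GG (by fun_prop) (fun x hx => by rw [hs x hx, mul_zero])
  calc cfc (GG g) R = cfc (fun r : ℝ => r * GG (fun x => (1 + x) * g x) r) R := by
        congr 1
        ext r
        unfold GG
        split_ifs with h
        · ring
        · field_simp
          ring
    _ = cfc (fun r : ℝ => r) R * cfc (GG fun x => (1 + x) * g x) R :=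
        cfc_mul (fun r : ℝ => r) _ R (by fun_prop) h1.continuousOn
    _ = R * cfc (GG fun x => (1 + x) * g x) R := by rw [cfc_id' ℝ R]

lemma cfc_GG_sub {g : ℝ → ℝ} (hg : Continuous g) (hs : ∀ x, 1 < |x| → g x = 0)
    (R : H →L[ℂ] H) :
    cfc (GG fun x => (1 + x) * g x) R - cfc (GG g) R = cfc (GG fun x => x * g x) R := by
  have h1 : Continuous (GG fun x => (1 + x) * g x) :=
    continuous_GG (by fun_prop) (fun x hx => by rw [hs x hx, mul_zero])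
  rw [← cfc_sub _ _ R h1.continuousOn (continuous_GG hg hs).continuousOn]
  congr 1
  ext r
  unfold GG
  split_ifs with h
  · ring
  · ring

lemma norm_cfc_GG_le {g : ℝ → ℝ} (h01 : ∀ x, |g x| ≤ 1) (R : H →L[ℂ] H) :
    ‖cfc (GG g) R‖ ≤ 1 := by
  apply norm_cfc_le zero_le_one
  intro r _
  unfold GG
  split_ifs
  · simp
  · exact h01 _

lemma norm_cfc_GG_le' {g : ℝ → ℝ} (h01 : ∀ x, |g x| ≤ 1) (hs : ∀ x, 1 < |x| → g x = 0)
    (R : H →L[ℂ] H) :
    ‖cfc (GG fun x => x * g x) R‖ ≤ 1 := by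
  apply norm_cfc_GG_le
  intro x
  rw [abs_mul]
  by_cases hx : 1 < |x|
  · rw [hs x hx]; simp
  · push Not at hx
    calc |x| * |g x| ≤ 1 * 1 := by gcongr; exact h01 x
      _ = 1 := one_mul 1

/-- quadratic form lower bound -/
lemma cfc_lower {f : ℝ → ℝ} (hf : Continuous f) (hs : ∀ x, 1 < |x| → f x = 0)
    (hl : ∀ x, 0 ≤ x → 1 - 2 * x ≤ f x) {R : H →L[ℂ] H} (hR : IsSelfAdjoint R)
    (hsp : spectrum ℝ R ⊆ Icc 0 1) (v : H) :
    3 * ‖R v‖ ^ 2 - 2 * (⟪v, R v⟫_ℂ).re ≤ (⟪R v, cfc (GG f) R (R v)⟫_ℂ).re := by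
  have hc := continuous_GG hf hs
  have h1 : cfc (fun r : ℝ => 3 * (r * r) - 2 * r) R ≤ cfc (fun r : ℝ => r * GG f r * r) R := by
    apply cfc_mono
    · intro r hr
      have hr' := hsp hr
      unfold GG
      split_ifs with h0
      · rw [h0]; norm_num
      · have hr1 : 0 < r := lt_of_le_of_ne hr'.1 (Ne.symm h0)
        have h2 : 0 ≤ r⁻¹ - 1 := by
          rw [sub_nonneg]
          exact (one_le_inv₀ hr1).2 hr'.2
        have h3 := hl _ h2
        have h4 : r * r * (1 - 2 * (r⁻¹ - 1)) = 3 * (r * r) - 2 * r := by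
          field_simp
          ring
        calc 3 * (r * r) - 2 * r = r * r * (1 - 2 * (r⁻¹ - 1)) := h4.symm
          _ ≤ r * r * f (r⁻¹ - 1) := by gcongr
          _ = r * f (r⁻¹ - 1) * r := by ring
    · show ContinuousOn _ _
      fun_prop
    · show ContinuousOn _ _
      fun_prop
  have h2 : cfc (fun r : ℝ => 3 * (r * r) - 2 * r) R = (3 : ℝ) • (R * R) - (2 : ℝ) • R := by
    rw [cfc_sub (fun r : ℝ => 3 * (r * r)) (fun r : ℝ => 2 * r) R (by fun_prop) (by fun_prop),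
      cfc_const_mul (3 : ℝ) (fun r : ℝ => r * r) R (by fun_prop),
      cfc_mul (fun r : ℝ => r) (fun r : ℝ => r) R (by fun_prop) (by fun_prop),
      cfc_const_mul (2 : ℝ) (fun r : ℝ => r) R (by fun_prop), cfc_id' ℝ R]
  have h3 : cfc (fun r : ℝ => r * GG f r * r) R = R * cfc (GG f) R * R := by
    rw [cfc_mul (fun r : ℝ => r * GG f r) (fun r : ℝ => r) R (by fun_prop) (by fun_prop),
      cfc_mul (fun r : ℝ => r) (GG f) R (by fun_prop) (by fun_prop), cfc_id' ℝ R]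
  rw [h2, h3, ContinuousLinearMap.le_def] at h1
  have h4 := h1.re_inner_nonneg_right v
  rw [sub_apply, inner_sub_right] at h4
  have hsym : ∀ a b : H, ⟪a, R b⟫_ℂ = ⟪R a, b⟫_ℂ := by
    intro a b
    rw [ContinuousLinearMap.isSelfAdjoint_iff_isSymmetric] at hR
    exact (hR a b).symm
  have e1 : ⟪v, (R * cfc (GG f) R * R) v⟫_ℂ = ⟪R v, cfc (GG f) R (R v)⟫_ℂ := by
    show ⟪v, R (cfc (GG f) R (R v))⟫_ℂ = _
    rw [hsym]
  have e2 : ⟪v, ((3 : ℝ) • (R * R) - (2 : ℝ) • R) v⟫_ℂ = 3 * ⟪R v, R v⟫_ℂ - 2 * ⟪v, R v⟫_ℂ := by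
    show ⟪v, (3 : ℝ) • (R (R v)) - (2 : ℝ) • R v⟫_ℂ = _
    rw [inner_sub_right, inner_smul_right_eq_smul, inner_smul_right_eq_smul, hsym v (R v)]
    simp
  rw [e1, e2, inner_self_eq_norm_sq_to_K] at h4
  have h5 : RCLike.re (⟪R v, cfc (GG f) R (R v)⟫_ℂ - (3 * ((‖R v‖ : ℂ)) ^ 2 - 2 * ⟪v, R v⟫_ℂ)) =
      (⟪R v, cfc (GG f) R (R v)⟫_ℂ).re - (3 * ‖R v‖ ^ 2 - 2 * (⟪v, R v⟫_ℂ).re) := by
    simp [← Complex.ofReal_pow]
  have h6 : 0 ≤ RCLike.re (⟪R v, cfc (GG f) R (R v)⟫_ℂ - (3 * ((‖R v‖ : ℂ)) ^ 2 -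
    2 * ⟪v, R v⟫_ℂ)) := h4
  rw [h5] at h6
  linarith

/-- lower bound for the trace by a Bessel family -/
lemma le_trace {κ : Type*} [Fintype κ] (u : κ → H) (hu : ∀ v, ∑ i, ‖⟪u i, v⟫_ℂ‖ ^ 2 ≤ ‖v‖ ^ 2)
    {S : H →L[ℂ] H} (hS : IsSelfAdjoint S) :
    ENNReal.ofReal (∑ i, (⟪u i, (S * S) (u i)⟫_ℂ).re) ≤ trace (S * S) := by
  have hsym : ∀ a b : H, ⟪a, S b⟫_ℂ = ⟪S a, b⟫_ℂ := by
    intro a b
    rw [ContinuousLinearMap.isSelfAdjoint_iff_isSymmetric] at hS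
    exact (hS a b).symm
  have hquad : ∀ a : H, (⟪a, (S * S) a⟫_ℂ).re = ‖S a‖ ^ 2 := by
    intro a
    show (⟪a, S (S a)⟫_ℂ).re = _
    rw [hsym, inner_self_eq_norm_sq_to_K]
    simp [← Complex.ofReal_pow]
  set W : Submodule ℂ H := Submodule.span ℂ (Set.range fun i => S (u i)) with hW
  have : FiniteDimensional ℂ W := FiniteDimensional.span_of_finite ℂ (Set.finite_range _)
  set e := stdOrthonormalBasis ℂ W with he
  set n := Module.finrank ℂ W with hn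
  set e' : Fin n → H := fun j => (e j : H) with he'
  have horth : Orthonormal ℂ e' := by
    have := e.orthonormal
    exact this.comp_linearIsometry W.subtypeₗᵢ
  have hexp : ∀ i, ‖S (u i)‖ ^ 2 = ∑ j, ‖⟪e' j, S (u i)⟫_ℂ‖ ^ 2 := by
    intro i
    have hm : S (u i) ∈ W := Submodule.subset_span ⟨i, rfl⟩
    have h1 := e.sum_sq_norm_inner_right ⟨S (u i), hm⟩
    have h2 : ‖(⟨S (u i), hm⟩ : W)‖ = ‖S (u i)‖ := rfl
    rw [h2] at h1
    rw [← h1]
    rfl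
  have hle : ∑ i, (⟪u i, (S * S) (u i)⟫_ℂ).re ≤ ∑ j, ‖S (e' j)‖ ^ 2 := by
    simp only [hquad, hexp]
    rw [Finset.sum_comm]
    apply Finset.sum_le_sum
    intro j _
    refine le_trans (le_of_eq ?_) (hu (S (e' j)))
    apply Finset.sum_congr rfl
    intro i _
    rw [hsym, ← inner_conj_symm, RCLike.norm_conj]
  refine (ENNReal.ofReal_le_ofReal hle).trans ?_
  rw [ENNReal.ofReal_sum_of_nonneg (fun _ _ => by positivity)]
  unfold trace
  refine le_iSup_of_le n (le_iSup_of_le e' (le_iSup_of_le horth (le_of_eq ?_)))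
  apply Finset.sum_congr rfl
  intro j _
  rw [hquad]

end

/-! ### A wrapper, to be used in concrete Hilbert spaces -/

section

variable {H : Type*} [NormedAddCommGroup H] [InnerProductSpace ℂ H] [CompleteSpace H]

/-- the operator `g(A)` in terms of the resolvent -/
noncomputable def FC (g : ℝ → ℝ) (R : H →L[ℂ] H) : H →L[ℂ] H := cfc (GG g) R

lemma FC_selfAdjoint (g : ℝ → ℝ) (R : H →L[ℂ] H) : IsSelfAdjoint (FC g R) := cfc_predicate _ _

lemma functionOf_eq (f : ℝ → ℝ) (G : Set (H × H)) :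
    functionOf f G = FC f (friedrichsResolvent G) := rfl

lemma FC_sq {g : ℝ → ℝ} (hg : Continuous g) (hs : ∀ x, 1 < |x| → g x = 0) (R : H →L[ℂ] H) :
    FC (fun x => g x ^ 2) R = FC g R * FC g R := cfc_GG_sq hg hs R

lemma FC_fact {g : ℝ → ℝ} (hg : Continuous g) (hs : ∀ x, 1 < |x| → g x = 0)
    {R : H →L[ℂ] H} (hR : IsSelfAdjoint R) :
    FC g R = R * FC (fun x => (1 + x) * g x) R := cfc_GG_fact hg hs hR

lemma FC_sub {g : ℝ → ℝ} (hg : Continuous g) (hs : ∀ x, 1 < |x| → g x = 0) (R : H →L[ℂ] H) :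
    FC (fun x => (1 + x) * g x) R - FC g R = FC (fun x => x * g x) R := cfc_GG_sub hg hs R

lemma FC_norm_le {g : ℝ → ℝ} (h01 : ∀ x, |g x| ≤ 1) (R : H →L[ℂ] H) : ‖FC g R‖ ≤ 1 :=
  norm_cfc_GG_le h01 R

lemma FC_norm_le' {g : ℝ → ℝ} (h01 : ∀ x, |g x| ≤ 1) (hs : ∀ x, 1 < |x| → g x = 0)
    (R : H →L[ℂ] H) : ‖FC (fun x => x * g x) R‖ ≤ 1 := norm_cfc_GG_le' h01 hs R

lemma FC_lower {f : ℝ → ℝ} (hf : Continuous f) (hs : ∀ x, 1 < |x| → f x = 0)
    (hl : ∀ x, 0 ≤ x → 1 - 2 * x ≤ f x) {𝒟 H' : Type*} [AddCommGroup 𝒟] [Module ℂ 𝒟]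
    [NormedAddCommGroup H'] [InnerProductSpace ℂ H'] [CompleteSpace H']
    (ι : 𝒟 →ₗ[ℂ] H) (L : 𝒟 →ₗ[ℂ] H') (v : H) :
    3 * ‖res0 ι L v‖ ^ 2 - 2 * (⟪v, res0 ι L v⟫_ℂ).re ≤
      (⟪res0 ι L v, FC f (res0 ι L) (res0 ι L v)⟫_ℂ).re :=
  cfc_lower hf hs hl (res_isSelfAdjoint ι L) (res_spectrum ι L) v

lemma FC_eq_zero {g : ℝ → ℝ} (hs : ∀ x, 1 < |x| → g x = 0)
    {𝒟 H' : Type*} [AddCommGroup 𝒟] [Module ℂ 𝒟]
    [NormedAddCommGroup H'] [InnerProductSpace ℂ H'] [CompleteSpace H']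
    (ι : 𝒟 →ₗ[ℂ] H) (L : 𝒟 →ₗ[ℂ] H') (hn : ‖res0 ι L‖ < 1 / 2) : FC g (res0 ι L) = 0 := by
  unfold FC
  rw [show (0 : H →L[ℂ] H) = cfc (fun _ : ℝ => (0 : ℝ)) (res0 ι L) by
    rw [cfc_const_zero]]
  apply cfc_congr
  intro r hr
  have h1 : 0 ≤ r := (res_spectrum _ _ hr).1
  have h2 := spectrum.norm_le_norm_mul_of_mem hr
  have h3 : ‖(1 : H →L[ℂ] H)‖ ≤ 1 := ContinuousLinearMap.norm_id_le
  have h4 : r < 1 / 2 := by
    calc r ≤ ‖r‖ := Real.le_norm_self r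
      _ ≤ ‖res0 ι L‖ * ‖(1 : H →L[ℂ] H)‖ := h2
      _ ≤ ‖res0 ι L‖ * 1 := by gcongr
      _ < 1 / 2 := by rw [mul_one]; exact hn
  show GG g r = 0
  unfold GG
  split_ifs with h0
  · rfl
  · apply hs
    have hr0 : 0 < r := lt_of_le_of_ne h1 (Ne.symm h0)
    have h5 : 2 < r⁻¹ := by
      rw [lt_inv_comm₀ (by norm_num) hr0]
      linarith
    rw [abs_of_pos (by linarith)]
    linarith

end

end Pool.Agent.H56.Adiab
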