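import Mathlib

/-!
# The adiabatic limit of a shear foliation on the three-torus: definitions
-/

open MeasureTheory Filter Topology Set
open scoped ENNReal InnerProductSpace ContDiff

namespace Pool.Agent.H56.AdiabaticDefs

/-! ### Functional calculus and trace -/

section Hilbert

variable {H : Type*} [NormedAddCommGroup H] [InnerProductSpace ℂ H]

/-- `G` is the graph of a nonnegative symmetric operator `A` in `H`. `R = (A_F + 1)⁻¹`, where `A_F` is
the Friedrichs extension of `A`: for every `g`, the vector `R g` lies in the domain of the adjoint,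
with `(A^* + 1) (R g) = g`, and in the form domain of `A`. -/
structure IsFriedrichsResolvent (G : Set (H × H)) (R : H →L[ℂ] H) : Prop where
  adjoint : ∀ g : H, ∀ p ∈ G, ⟪R g, p.1 + p.2⟫_ℂ = ⟪g, p.1⟫_ℂ
  form : ∀ g : H, ∃ p : ℕ → H × H, (∀ n, p n ∈ G) ∧
    Tendsto (fun n => (p n).1) atTop (𝓝 (R g)) ∧
    Tendsto (fun m : ℕ × ℕ => ⟪(p m.1).1 - (p m.2).1, (p m.1).2 - (p m.2).2⟫_ℂ) atTop (𝓝 0)

/-- The operator has a unique Friedrichs extension. -/
def HasExtension (G : Set (H × H)) : Prop := ∃! R : H →L[ℂ] H, IsFriedrichsResolvent G R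

open Classical in
/-- The bounded operator `(A_F + 1)⁻¹`. -/
noncomputable def friedrichsResolvent (G : Set (H × H)) : H →L[ℂ] H :=
  if h : ∃ R, IsFriedrichsResolvent G R then h.choose else 0

/-- The bounded operator `f(A_F)`, for `f` of compact support. -/
noncomputable def functionOf [CompleteSpace H] (f : ℝ → ℝ) (G : Set (H × H)) : H →L[ℂ] H :=
  cfc (fun r : ℝ => if r = 0 then 0 else f (r⁻¹ - 1)) (friedrichsResolvent G)

/-- The trace of a nonnegative operator. -/
noncomputable def trace (T : H →L[ℂ] H) : ℝ≥0∞ :=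
  ⨆ (n : ℕ) (e : Fin n → H) (_ : Orthonormal ℂ e), ∑ i, ENNReal.ofReal (⟪e i, T (e i)⟫_ℂ).re

end Hilbert

/-! ### Differential forms -/

/-- The fibre of `Λ T^*M ⊗ ℂ`: the coefficients of a form in the basis `e_S`, `S ⊆ {0, 1, 2}`, of
exterior products of the orthonormal coframe `e_0 = α`, `e_1 = β`, `e_2 = γ`. -/
def Fib : Type := EuclideanSpace ℂ (Finset (Fin 3))

@[reducible, instance] noncomputable def instFibNormed : NormedAddCommGroup Fib :=
  (inferInstance : NormedAddCommGroup (EuclideanSpace ℂ (Finset (Fin 3))))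

@[reducible, instance] noncomputable def instFibInner : InnerProductSpace ℂ Fib :=
  (inferInstance : InnerProductSpace ℂ (EuclideanSpace ℂ (Finset (Fin 3))))

@[reducible, instance] noncomputable def instFibReal : NormedSpace ℝ Fib :=
  (inferInstance : NormedSpace ℝ (EuclideanSpace ℂ (Finset (Fin 3))))

instance instFibComplete : CompleteSpace Fib :=
  (inferInstance : CompleteSpace (EuclideanSpace ℂ (Finset (Fin 3))))

/-- `L²(X, Λ ⊗ ℂ)` -/
def L2 {X : Type} [MeasurableSpace X] (μ : Measure X) : Type := Lp Fib 2 μ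

@[reducible, instance] noncomputable def instL2Normed {X : Type} [MeasurableSpace X]
    (μ : Measure X) : NormedAddCommGroup (L2 μ) :=
  (inferInstance : NormedAddCommGroup (Lp Fib 2 μ))

@[reducible, instance] noncomputable def instL2Inner {X : Type} [MeasurableSpace X]
    (μ : Measure X) : InnerProductSpace ℂ (L2 μ) :=
  (inferInstance : InnerProductSpace ℂ (Lp Fib 2 μ))

instance instL2Complete {X : Type} [MeasurableSpace X] (μ : Measure X) : CompleteSpace (L2 μ) :=
  (inferInstance : CompleteSpace (Lp Fib 2 μ))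

/-- The element `v` of `L²` is the class of the function `u`. -/
def IsRep {X : Type} [MeasurableSpace X] (μ : Measure X) (v : Lp Fib 2 μ) (u : X → Fib) : Prop :=
  v =ᵐ[μ] u

/-- Exterior multiplication by `e_i`. -/
noncomputable def wedge (i : Fin 3) (v : Fib) : Fib :=
  WithLp.toLp 2 fun S => if i ∈ S then (-1) ^ (S.filter (· < i)).card * v.ofLp (S.erase i) else 0

/-- The adjoint of `wedge i`: the contraction with the `i`-th vector of the orthonormal frame. -/
noncomputable def contr (i : Fin 3) (v : Fib) : Fib :=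
  WithLp.toLp 2 fun S => if i ∈ S then 0 else (-1) ^ (S.filter (· < i)).card * v.ofLp (insert i S)

/-! ### The foliation -/

/-- A point `(x, y, z)` of the universal cover `ℝ³` of `M`. -/
abbrev Pt : Type := ℝ × ℝ × ℝ

/-- The flow of `X = ∂_x + b(y) ∂_z`. -/
def flow (b : ℝ → ℝ) (s : ℝ) (p : Pt) : Pt := (p.1 + s, p.2.1, p.2.2 + s * b p.2.1)

/-- The lattice `l ℤ × ℤ × ℤ`. -/
def lattice (l : ℝ) : Set Pt := {p | ∃ i j k : ℤ, p = (i * l, (j : ℝ), (k : ℝ))}

/-- The data `(l, b)` define a smooth foliation of the torus `M = ℝ³ / (l ℤ × ℤ × ℤ)` by the flow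
lines of `X = ∂_x + b(y) ∂_z`. No flow map of time `s ≠ 0` is the identity of a nonempty open set:
the holonomy group of every leaf is its fundamental group, every holonomy cover is a line. -/
structure IsShear (l : ℝ) (b : ℝ → ℝ) : Prop where
  pos : 0 < l
  smooth : ContDiff ℝ ∞ b
  periodic : Function.Periodic b 1
  holonomy : ∀ s : ℝ, s ≠ 0 → Dense {p : Pt | flow b s p - p ∉ lattice l}

/-- A fundamental domain for the action of the lattice. -/
def cell (l : ℝ) : Set Pt := Ioc 0 l ×ˢ Ioc 0 1 ×ˢ Ioc 0 1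

/-- The smooth differential forms on `M = ℝ³ / (l ℤ × ℤ × ℤ)`, as functions on `ℝ³`. -/
def IsForm (l : ℝ) (u : Pt → Fib) : Prop :=
  ContDiff ℝ ∞ u ∧ ∀ p, ∀ q ∈ lattice l, u (p + q) = u p

/-- `T` is the formal adjoint of `S`, on smooth forms, in `L²(M, Λ T^*M)`. -/
def IsAdjoint (l : ℝ) (S T : (Pt → Fib) → Pt → Fib) : Prop :=
  ∀ u w : Pt → Fib, IsForm l u → IsForm l w →
    ∫ p in cell l, ⟪S u p, w p⟫_ℂ = ∫ p in cell l, ⟪u p, T w p⟫_ℂ

/-- The derivative in the direction `v`. -/
noncomputable def dirDeriv (u : Pt → Fib) (p v : Pt) : Fib := fderiv ℝ u p v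

/-- `X = ∂_x + b(y) ∂_z` -/
noncomputable def dX (b : ℝ → ℝ) (u : Pt → Fib) (p : Pt) : Fib := dirDeriv u p (1, 0, b p.2.1)

/-- `∂_y` -/
noncomputable def dY (u : Pt → Fib) (p : Pt) : Fib := dirDeriv u p (0, 1, 0)

/-- `∂_z` -/
noncomputable def dZ (u : Pt → Fib) (p : Pt) : Fib := dirDeriv u p (0, 0, 1)

/-- The tangential differential. -/
noncomputable def dF (b : ℝ → ℝ) (u : Pt → Fib) (p : Pt) : Fib :=
  wedge 0 (dX b u p) + deriv b p.2.1 • wedge 0 (wedge 1 (contr 2 (u p)))

/-- The adjoint of the tangential differential. -/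
noncomputable def dFadj (b : ℝ → ℝ) (u : Pt → Fib) (p : Pt) : Fib :=
  -contr 0 (dX b u p) + deriv b p.2.1 • wedge 2 (contr 1 (contr 0 (u p)))

/-- The transverse differential. -/
noncomputable def dH (u : Pt → Fib) (p : Pt) : Fib := wedge 1 (dY u p) + wedge 2 (dZ u p)

/-- The adjoint of the transverse differential. -/
noncomputable def dHadj (u : Pt → Fib) (p : Pt) : Fib := -contr 1 (dY u p) - contr 2 (dZ u p)

/-- `Δ_F + h² Δ_H` -/
noncomputable def laplacian (b : ℝ → ℝ) (h : ℝ) (u : Pt → Fib) (p : Pt) : Fib :=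
  (dF b (dFadj b u) p + dFadj b (dF b u) p) + h ^ 2 • (dH (dHadj u) p + dHadj (dH u) p)

/-- Lebesgue measure on a fundamental domain, the volume of `M`. -/
noncomputable def volM (l : ℝ) : Measure Pt := volume.restrict (cell l)

/-- `L²(M, Λ T^*M)` -/
abbrev L2Torus (l : ℝ) : Type := L2 (volM l)

/-- The graph of `Δ_F + h² Δ_H` on smooth forms. -/
def torusGraph (b : ℝ → ℝ) (l h : ℝ) : Set (L2Torus l × L2Torus l) :=
  {p | ∃ u : Pt → Fib, IsForm l u ∧ IsRep (volM l) p.1 u ∧ IsRep (volM l) p.2 (laplacian b h u)}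

/-- `tr f(Δ_F + h² Δ_H)` -/
noncomputable def torusTrace (b f : ℝ → ℝ) (l h : ℝ) : ℝ≥0∞ :=
  trace (functionOf f (torusGraph b l h))

/-! ### The leafwise operators on the conormal bundle -/

/-- A point of the conormal bundle: the covector `ξ.1 β + ξ.2 γ` at the point `p`. -/
abbrev Conormal : Type := Pt × (ℝ × ℝ)

/-- The leaf of the linearized foliation through `ν`, parametrized by arc length. -/
noncomputable def leaf (b : ℝ → ℝ) (ν : Conormal) (s : ℝ) : Conormal :=
  (flow b s ν.1, (ν.2.1 - s * deriv b ν.1.2.1 * ν.2.2, ν.2.2))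

/-- `g_N(ν) = |ν|²` -/
def gN (ν : Conormal) : ℝ := ν.2.1 ^ 2 + ν.2.2 ^ 2

/-- The lift of the tangential differential to the leaf through `ν`. -/
noncomputable def leafD (b : ℝ → ℝ) (ν : Conormal) (u : ℝ → Fib) (s : ℝ) : Fib :=
  wedge 0 (deriv u s) + deriv b (leaf b ν s).1.2.1 • wedge 0 (wedge 1 (contr 2 (u s)))

/-- The lift of the adjoint of the tangential differential to the leaf through `ν`. -/
noncomputable def leafDadj (b : ℝ → ℝ) (ν : Conormal) (u : ℝ → Fib) (s : ℝ) : Fib :=
  -contr 0 (deriv u s) + deriv b (leaf b ν s).1.2.1 • wedge 2 (contr 1 (contr 0 (u s)))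

/-- `Δ_{F_N} + g_N` on the leaf through `ν`. -/
noncomputable def leafLaplacian (b : ℝ → ℝ) (ν : Conormal) (u : ℝ → Fib) (s : ℝ) : Fib :=
  (leafD b ν (leafDadj b ν u) s + leafDadj b ν (leafD b ν u) s) + gN (leaf b ν s) • u s

/-- `L²` of the holonomy cover `ℝ` of a leaf -/
abbrev L2Leaf : Type := L2 (volume : Measure ℝ)

/-- The graph of `Δ_{F_N} + g_N` on the smooth compactly supported sections over a leaf. -/
def leafGraph (b : ℝ → ℝ) (ν : Conormal) : Set (L2Leaf × L2Leaf) :=
  {p | ∃ u : ℝ → Fib, ContDiff ℝ ∞ u ∧ HasCompactSupport u ∧ IsRep volume p.1 u ∧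
    IsRep volume p.2 (leafLaplacian b ν u)}

/-- The endomorphisms of the fibre. -/
def EndFib : Type := Fib →L[ℂ] Fib

@[reducible, instance] noncomputable def instEndFibTop : TopologicalSpace EndFib :=
  (inferInstance : TopologicalSpace (Fib →L[ℂ] Fib))

/-- The value of an endomorphism. -/
noncomputable def valEnd (A : Fib →L[ℂ] Fib) (v : Fib) : Fib := A v

/-- The real part of the trace of an endomorphism. -/
noncomputable def traceEnd (A : Fib →L[ℂ] Fib) : ℝ := (LinearMap.trace ℂ Fib (A : Fib →ₗ[ℂ] Fib)).re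

/-- The bounded operators on `L²` of the holonomy cover of a leaf. -/
def OpLeaf : Type := L2Leaf →L[ℂ] L2Leaf

/-- The value of an operator. -/
noncomputable def valOp (T : L2Leaf →L[ℂ] L2Leaf) (v : L2Leaf) : L2Leaf := T v

/-- `k` is the continuous kernel of the operator `T`. -/
def IsKernel (k : ℝ → ℝ → EndFib) (T : OpLeaf) : Prop :=
  Continuous (Function.uncurry k) ∧
    ∀ (u : ℝ → Fib) (v : L2Leaf), Continuous u → HasCompactSupport u → IsRep volume v u →
      IsRep volume (valOp T v) fun s => ∫ t, valEnd (k s t) (u t)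

/-- The matrix trace of the kernel at the unit `0` (and `∞` if there is no continuous kernel). -/
noncomputable def unitTrace (T : OpLeaf) : ℝ≥0∞ :=
  ⨅ (k : ℝ → ℝ → EndFib) (_ : IsKernel k T), ENNReal.ofReal (traceEnd (k 0 0))

/-- `f(Δ_{F_N} + g_N)` on the leaf through `ν` -/
noncomputable def leafOp (b f : ℝ → ℝ) (ν : Conormal) : OpLeaf := functionOf f (leafGraph b ν)

/-- `tr_{F_N} f(Δ_{F_N} + g_N)` -/
noncomputable def leafwiseTrace (b f : ℝ → ℝ) (l : ℝ) : ℝ≥0∞ :=
  ∫⁻ p in cell l, ∫⁻ ξ : ℝ × ℝ, unitTrace (leafOp b f (p, ξ))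

/-- The difference of the two sides of the adiabatic Weyl formula is at least `c h⁻²`, for all
`h < h₀`. -/
def WeylGap (b f : ℝ → ℝ) (l c h₀ : ℝ) : Prop :=
  ∀ h : ℝ, 0 < h → h < h₀ →
    ENNReal.ofReal ((2 * Real.pi)⁻¹ ^ 2 * h⁻¹ ^ 2) * leafwiseTrace b f l +
      ENNReal.ofReal (c * h⁻¹ ^ 2) ≤ torusTrace b f l h

end Pool.Agent.H56.AdiabaticDefs
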