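import Pool.Agent.H56.Adiab.BFun

/-!
# The adiabatic Weyl formula fails
-/

open MeasureTheory Filter Topology Set
open scoped ENNReal InnerProductSpace ContDiff

namespace Pool.Agent.H56.Adiab

open AdiabRaw

lemma exists_g : ∃ g : ℝ → ℝ, ContDiff ℝ ∞ g ∧ HasCompactSupport g ∧ AdmL g := by
  let f : ContDiffBump (0 : ℝ) := ⟨1 / 2, 1, by norm_num, by norm_num⟩
  have hs : ContDiff ℝ ∞ (f : ℝ → ℝ) := f.contDiff
  refine ⟨f, hs, f.hasCompactSupport, ⟨⟨hs.continuous, ?_, ?_⟩, ?_⟩⟩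
  · intro x
    rw [abs_of_nonneg f.nonneg]
    exact f.le_one
  · intro x hx
    apply f.zero_of_le_dist
    rw [dist_zero_right, Real.norm_eq_abs]
    exact hx.le
  · intro x hx
    apply f.one_of_mem_closedBall
    rw [mem_closedBall_zero_iff, Real.norm_eq_abs]
    exact hx

theorem main : ∃ (l : ℝ) (b f : ℝ → ℝ) (c h₀ : ℝ), IsShear l b ∧
    IsAdjoint l (dF b) (dFadj b) ∧ IsAdjoint l dH dHadj ∧ Extensions b l ∧
    ContDiff ℝ ∞ f ∧ HasCompactSupport f ∧ (∀ x, 0 ≤ f x) ∧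
    leafwiseTrace b f l < ⊤ ∧ 0 < c ∧ 0 < h₀ ∧ WeylGap b f l c h₀ := by
  obtain ⟨g, hg1, hg2, hg⟩ := exists_g
  obtain ⟨K, hK, hKup⟩ := leafwise_upper
  obtain ⟨ψ, C, hψ⟩ := exists_cut
  have hK0 : 0 ≤ K.toReal := ENNReal.toReal_nonneg
  set l : ℝ := 1 / (512 * (K.toReal + 1)) with hl
  have hl0 : 0 < l := by positivity
  obtain ⟨b, D, hb, hb1, hb2⟩ := exists_b l hl0
  have hpi := Real.pi_pos
  have hup : leafwiseTrace b (fun x => g x ^ 2) l ≤ ENNReal.ofReal l * K :=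
    hKup hg.toAdm b hb1 l hl0.le
  refine ⟨l, b, fun x => g x ^ 2, 1 / (2048 * Real.pi ^ 2),
    min (1 / (16 * Real.pi)) (1 / (40 * (C ^ 2 * |D| + 1))),
    ⟨hl0, hb.per.smooth, hb.per.per, hb2⟩, ?_, ?_, ⟨?_, ?_⟩, hg1.pow 2, ?_,
    fun x => sq_nonneg _, ?_, by positivity, by positivity, ?_⟩
  · intro u w hu hw
    have h := dF_adj hb.per hl0.le (⟨u, hu⟩ : TP l) ⟨w, hw⟩
    rw [inner_iotaP, inner_iotaP, dFo_coe, dFs_coe] at h
    exact h
  · intro u w hu hw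
    have h := dH_adj (⟨u, hu⟩ : TP l) ⟨w, hw⟩
    rw [inner_iotaP, inner_iotaP, dHo_coe, dHs_coe] at h
    exact h
  · intro h
    rw [torusGraph_eq hb.per]
    exact ⟨_, isFriedrichs_res0 (factP hb.per hl0.le h), fun R hR =>
      friedrichs_unique (factP hb.per hl0.le h) hR (isFriedrichs_res0 (factP hb.per hl0.le h))⟩
  · intro ν
    rw [leafGraph_eq]
    exact ⟨_, isFriedrichs_res0 (fact _ _ _), fun R hR =>
      friedrichs_unique (fact _ _ _) hR (isFriedrichs_res0 (fact _ _ _))⟩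
  · refine hg2.mono (fun x hx h => hx ?_)
    show g x ^ 2 = 0
    rw [h]
    norm_num
  · exact hup.trans_lt (ENNReal.mul_lt_top ENNReal.ofReal_lt_top hK.lt_top)
  · intro h hh hh0
    have h1 : h ≤ 1 / (16 * Real.pi) := (hh0.trans_le (min_le_left _ _)).le
    have h2 : C ^ 2 * |D| * h ≤ 1 / 40 := by
      have h3 : h ≤ 1 / (40 * (C ^ 2 * |D| + 1)) := (hh0.trans_le (min_le_right _ _)).le
      calc C ^ 2 * |D| * h ≤ (C ^ 2 * |D| + 1) * (1 / (40 * (C ^ 2 * |D| + 1))) := by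
            gcongr
            linarith
        _ = 1 / 40 := by field_simp
    have hlow := torus_lower hb hψ hh hg hl0 h2 h1
    refine le_trans ?_ hlow
    calc ENNReal.ofReal ((2 * Real.pi)⁻¹ ^ 2 * h⁻¹ ^ 2) * leafwiseTrace b (fun x => g x ^ 2) l +
          ENNReal.ofReal (1 / (2048 * Real.pi ^ 2) * h⁻¹ ^ 2)
        ≤ ENNReal.ofReal ((2 * Real.pi)⁻¹ ^ 2 * h⁻¹ ^ 2) * (ENNReal.ofReal l * K) +
          ENNReal.ofReal (1 / (2048 * Real.pi ^ 2) * h⁻¹ ^ 2) := by gcongr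
      _ = ENNReal.ofReal ((2 * Real.pi)⁻¹ ^ 2 * h⁻¹ ^ 2 * (l * K.toReal) +
          1 / (2048 * Real.pi ^ 2) * h⁻¹ ^ 2) := by
          rw [ENNReal.ofReal_add (by positivity) (by positivity),
            ENNReal.ofReal_mul (p := (2 * Real.pi)⁻¹ ^ 2 * h⁻¹ ^ 2) (by positivity),
            ENNReal.ofReal_mul (p := l) (by positivity), ENNReal.ofReal_toReal hK]
      _ ≤ ENNReal.ofReal (1 / (1024 * Real.pi ^ 2 * h ^ 2)) := by
          apply ENNReal.ofReal_le_ofReal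
          have h3 : l * K.toReal ≤ 1 / 512 := by
            rw [hl, div_mul_eq_mul_div, one_mul, div_le_div_iff₀ (by positivity) (by norm_num)]
            linarith
          calc (2 * Real.pi)⁻¹ ^ 2 * h⁻¹ ^ 2 * (l * K.toReal) + 1 / (2048 * Real.pi ^ 2) * h⁻¹ ^ 2
              ≤ (2 * Real.pi)⁻¹ ^ 2 * h⁻¹ ^ 2 * (1 / 512) +
                1 / (2048 * Real.pi ^ 2) * h⁻¹ ^ 2 := by gcongr
            _ = 1 / (1024 * Real.pi ^ 2 * h ^ 2) := by
                field_simp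
                norm_num

end Pool.Agent.H56.Adiab
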