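import Pool.Agent.H56.Adiab.Defs
import Pool.Agent.H56.Adiab.Main

/-!
# The main theorem in terms of the final definitions
-/

open MeasureTheory Filter Topology Set
open scoped ENNReal InnerProductSpace ContDiff

namespace Pool.Agent.H56.Adiab

open AdiabaticDefs

theorem torusGraph_disp (b : ℝ → ℝ) (l h : ℝ) :
    torusGraph b l h = AdiabRaw.torusGraph b l h := rfl

theorem leafGraph_disp (b : ℝ → ℝ) (ν : Conormal) :
    leafGraph b ν = AdiabRaw.leafGraph b ν := rfl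

theorem torusTrace_disp (b f : ℝ → ℝ) (l h : ℝ) :
    torusTrace b f l h = AdiabRaw.torusTrace b f l h := rfl

theorem unitTrace_disp (T : OpLeaf) :
    unitTrace T = AdiabRaw.unitTrace T := rfl

theorem leafwiseTrace_disp (b f : ℝ → ℝ) (l : ℝ) :
    leafwiseTrace b f l = AdiabRaw.leafwiseTrace b f l := rfl

/-- The adiabatic Weyl formula fails. -/
theorem display : ∃ (l : ℝ) (b f : ℝ → ℝ) (c h₀ : ℝ), IsShear l b ∧
    IsAdjoint l (dF b) (dFadj b) ∧ IsAdjoint l dH dHadj ∧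
    (∀ h : ℝ, HasExtension (torusGraph b l h)) ∧ (∀ ν : Conormal, HasExtension (leafGraph b ν)) ∧
    ContDiff ℝ ∞ f ∧ HasCompactSupport f ∧ (∀ x, 0 ≤ f x) ∧
    leafwiseTrace b f l < ⊤ ∧ 0 < c ∧ 0 < h₀ ∧ WeylGap b f l c h₀ := by
  obtain ⟨l, b, f, c, h₀, h1, h2, h3, h4, h5, h6, h7, h8, h9, h10, h11⟩ := main
  exact ⟨l, b, f, c, h₀, ⟨h1.1, h1.2, h1.3, h1.4⟩, h2, h3, h4.1, h4.2, h5, h6, h7, h8, h9, h10, h11⟩

end Pool.Agent.H56.Adiab
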