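import Pool.Agent.H56.Adiab.Raw

/-!
# Algebra in the fibre
-/

open MeasureTheory Filter Topology Set
open scoped ENNReal InnerProductSpace ContDiff

namespace Pool.Agent.H56.Adiab

open AdiabRaw

/-- `wedge i` as a linear map -/
noncomputable def wedgeL (i : Fin 3) : Fib →L[ℂ] Fib :=
  LinearMap.toContinuousLinearMap
    { toFun := wedge i
      map_add' := fun v w => by
        ext S
        simp only [wedge, PiLp.add_apply]
        split_ifs
        · ring
        · simp
      map_smul' := fun c v => by
        ext S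
        simp only [wedge, PiLp.smul_apply, smul_eq_mul, RingHom.id_apply]
        split_ifs
        · ring
        · simp }

/-- `contr i` as a linear map -/
noncomputable def contrL (i : Fin 3) : Fib →L[ℂ] Fib :=
  LinearMap.toContinuousLinearMap
    { toFun := contr i
      map_add' := fun v w => by
        ext S
        simp only [contr, PiLp.add_apply]
        split_ifs
        · simp
        · ring
      map_smul' := fun c v => by
        ext S
        simp only [contr, PiLp.smul_apply, smul_eq_mul, RingHom.id_apply]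
        split_ifs
        · simp
        · ring }

lemma wedgeL_apply (i : Fin 3) (v : Fib) : wedgeL i v = wedge i v := rfl
lemma contrL_apply (i : Fin 3) (v : Fib) : contrL i v = contr i v := rfl

lemma filter_erase (i : Fin 3) (S : Finset (Fin 3)) :
    ((S.erase i).filter (· < i)) = S.filter (· < i) := by
  ext j
  simp only [Finset.mem_filter, Finset.mem_erase]
  constructor
  · rintro ⟨⟨_, h1⟩, h2⟩; exact ⟨h1, h2⟩
  · rintro ⟨h1, h2⟩; exact ⟨⟨h2.ne, h1⟩, h2⟩

lemma filter_insert' (i : Fin 3) (S : Finset (Fin 3)) :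
    ((insert i S).filter (· < i)) = S.filter (· < i) := by
  ext j
  simp only [Finset.mem_filter, Finset.mem_insert]
  constructor
  · rintro ⟨h1 | h1, h2⟩
    · exact absurd h2 (by rw [h1]; exact lt_irrefl _)
    · exact ⟨h1, h2⟩
  · rintro ⟨h1, h2⟩; exact ⟨Or.inr h1, h2⟩

lemma wedge_apply (i : Fin 3) (v : Fib) (S : Finset (Fin 3)) : wedge i v S =
    if i ∈ S then (-1) ^ (S.filter (· < i)).card * v (S.erase i) else 0 := rfl
lemma contr_apply (i : Fin 3) (v : Fib) (S : Finset (Fin 3)) : contr i v S =
    if i ∈ S then 0 else (-1) ^ (S.filter (· < i)).card * v (insert i S) := rfl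

lemma sgn_sq (n : ℕ) : ((-1 : ℂ) ^ n) * (-1) ^ n = 1 := by
  rw [← mul_pow]; simp

/-- `contr i` is the adjoint of `wedge i` -/
lemma inner_wedge (i : Fin 3) (v w : Fib) : ⟪wedge i v, w⟫_ℂ = ⟪v, contr i w⟫_ℂ := by
  rw [PiLp.inner_apply, PiLp.inner_apply]
  refine Finset.sum_bij_ne_zero (fun S _ _ => S.erase i) (fun _ _ _ => Finset.mem_univ _) ?_ ?_ ?_
  · intro S _ hS T _ hT hST
    have h1 : i ∈ S := by
      by_contra h
      apply hS
      rw [wedge_apply, if_neg h]; simp
    have h2 : i ∈ T := by
      by_contra h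
      apply hT
      rw [wedge_apply, if_neg h]; simp
    rw [← Finset.insert_erase h1, ← Finset.insert_erase h2, hST]
  · intro T _ hT
    have h1 : i ∉ T := by
      intro h
      apply hT
      rw [contr_apply, if_pos h]; simp
    refine ⟨insert i T, Finset.mem_univ _, ?_, ?_⟩
    · rw [wedge_apply, if_pos (Finset.mem_insert_self _ _), Finset.erase_insert h1, filter_insert']
      rw [contr_apply, if_neg h1] at hT
      simp only [RCLike.inner_apply, map_mul, map_pow, map_neg, map_one] at hT ⊢
      intro h
      apply hT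
      linear_combination h
    · exact Finset.erase_insert h1
  · intro S _ hS
    have h1 : i ∈ S := by
      by_contra h
      apply hS
      rw [wedge_apply, if_neg h]; simp
    rw [wedge_apply, if_pos h1, contr_apply, if_neg (Finset.notMem_erase i S), filter_erase,
      Finset.insert_erase h1]
    simp only [RCLike.inner_apply, map_mul, map_pow, map_neg, map_one]
    ring

lemma inner_contr (i : Fin 3) (v w : Fib) : ⟪contr i v, w⟫_ℂ = ⟪v, wedge i w⟫_ℂ := by
  rw [← inner_conj_symm, ← inner_wedge, inner_conj_symm]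

/-- the anticommutation relation -/
lemma wedge_contr_add (i : Fin 3) (v : Fib) : wedge i (contr i v) + contr i (wedge i v) = v := by
  ext S
  rw [PiLp.add_apply, wedge_apply, contr_apply, contr_apply, wedge_apply]
  by_cases h : i ∈ S
  · rw [if_pos h, if_pos h, if_neg (Finset.notMem_erase i S), filter_erase,
      Finset.insert_erase h, add_zero, ← mul_assoc, sgn_sq, one_mul]
  · rw [if_neg h, if_neg h, if_pos (Finset.mem_insert_self _ _), filter_insert',
      Finset.erase_insert h, zero_add, ← mul_assoc, sgn_sq, one_mul]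

lemma norm_sq_wedge_add (i : Fin 3) (v : Fib) : ‖wedge i v‖ ^ 2 + ‖contr i v‖ ^ 2 = ‖v‖ ^ 2 := by
  have h : ⟪wedge i v, wedge i v⟫_ℂ + ⟪contr i v, contr i v⟫_ℂ = ⟪v, v⟫_ℂ := by
    rw [inner_wedge, inner_contr, ← inner_add_right, add_comm, wedge_contr_add]
  rw [inner_self_eq_norm_sq_to_K, inner_self_eq_norm_sq_to_K, inner_self_eq_norm_sq_to_K] at h
  exact_mod_cast h

lemma norm_wedge_le (i : Fin 3) (v : Fib) : ‖wedge i v‖ ≤ ‖v‖ := by
  have h := norm_sq_wedge_add i v
  exact abs_le_of_sq_le_sq' (by nlinarith [sq_nonneg ‖contr i v‖]) (norm_nonneg _) |>.2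

lemma norm_contr_le (i : Fin 3) (v : Fib) : ‖contr i v‖ ≤ ‖v‖ := by
  have h := norm_sq_wedge_add i v
  exact abs_le_of_sq_le_sq' (by nlinarith [sq_nonneg ‖wedge i v‖]) (norm_nonneg _) |>.2

/-- the zero form `1` -/
noncomputable def e0 : Fib := EuclideanSpace.single ∅ 1

lemma norm_e0 : ‖e0‖ = 1 := by
  simp [e0]

lemma contr_e0 (i : Fin 3) : contr i e0 = 0 := by
  ext S
  rw [contr_apply]
  split_ifs
  · rfl
  · simp [e0]

end Pool.Agent.H56.Adiab
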