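import Pool.Agent.H56.Adiab.Fiber
import Pool.Agent.H56.Adiab.Calc

/-!
# Test functions on a leaf
-/

open MeasureTheory Filter Topology Set
open scoped ENNReal InnerProductSpace ContDiff

namespace Pool.Agent.H56.Adiab

open AdiabRaw

/-- the test functions on a leaf -/
noncomputable def TF : Submodule ℂ (ℝ → Fib) where
  carrier := {u | ContDiff ℝ ∞ u ∧ HasCompactSupport u}
  add_mem' := fun h1 h2 => ⟨h1.1.add h2.1, h1.2.add h2.2⟩
  zero_mem' := ⟨contDiff_const, HasCompactSupport.zero⟩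
  smul_mem' := fun _ _ h => ⟨contDiff_const.smul h.1, h.2.smul_left⟩

lemma tsmooth (φ : TF) : ContDiff ℝ ∞ (φ : ℝ → Fib) := φ.2.1
lemma tsupp (φ : TF) : HasCompactSupport (φ : ℝ → Fib) := φ.2.2
lemma tcont (φ : TF) : Continuous (φ : ℝ → Fib) := φ.2.1.continuous

lemma tmemLp (φ : TF) : MemLp (φ : ℝ → Fib) 2 volume :=
  (tcont φ).memLp_of_hasCompactSupport (tsupp φ)

/-- the class of a test function -/
noncomputable def iota : TF →ₗ[ℂ] L2Leaf where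
  toFun φ := (tmemLp φ).toLp _
  map_add' _ _ := rfl
  map_smul' _ _ := rfl

lemma iota_coe (φ : TF) : iota φ =ᵐ[volume] (φ : ℝ → Fib) := MemLp.coeFn_toLp (tmemLp φ)

lemma inner_iota (φ ψ : TF) : ⟪iota φ, iota ψ⟫_ℂ = ∫ s, ⟪(φ : ℝ → Fib) s, (ψ : ℝ → Fib) s⟫_ℂ := by
  rw [L2.inner_def]
  apply integral_congr_ae
  filter_upwards [iota_coe φ, iota_coe ψ] with s h1 h2
  rw [h1, h2]

lemma norm_sq_iota (φ : TF) : ‖iota φ‖ ^ 2 = ∫ s, ‖(φ : ℝ → Fib) s‖ ^ 2 := by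
  have h := inner_iota φ φ
  simp only [inner_self_eq_norm_sq_to_K] at h
  have h2 : ((‖iota φ‖ ^ 2 : ℝ) : ℂ) = ((∫ s, ‖(φ : ℝ → Fib) s‖ ^ 2 : ℝ) : ℂ) := by
    rw [← integral_complex_ofReal]
    simpa using h
  exact_mod_cast h2

/-- the derivative -/
noncomputable def dd : TF →ₗ[ℂ] TF where
  toFun φ := ⟨deriv φ, ⟨(contDiff_infty_iff_deriv.1 (tsmooth φ)).2, (tsupp φ).deriv⟩⟩
  map_add' φ ψ := by
    ext1
    funext s
    exact deriv_add ((tsmooth φ).differentiable (by simp) s) ((tsmooth ψ).differentiable (by simp) s)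
  map_smul' c φ := by
    ext1
    funext s
    exact deriv_const_smul c ((tsmooth φ).differentiable (by simp) s)

lemma dd_coe (φ : TF) : (dd φ : ℝ → Fib) = deriv φ := rfl

/-- pointwise application of a linear map -/
noncomputable def mapT (T : Fib →L[ℂ] Fib) : TF →ₗ[ℂ] TF where
  toFun φ := ⟨fun s => T ((φ : ℝ → Fib) s), ⟨(T.restrictScalars ℝ).contDiff.comp (tsmooth φ),
    (tsupp φ).comp_left (map_zero T)⟩⟩
  map_add' φ ψ := by
    ext1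
    funext s
    exact map_add T _ _
  map_smul' c φ := by
    ext1
    funext s
    exact map_smul T _ _

lemma mapT_apply (T : Fib →L[ℂ] Fib) (φ : TF) (s : ℝ) :
    (mapT T φ : ℝ → Fib) s = T ((φ : ℝ → Fib) s) := rfl

/-- multiplication by a smooth function -/
noncomputable def mulT (a : ℝ → ℝ) (ha : ContDiff ℝ ∞ a) : TF →ₗ[ℂ] TF where
  toFun φ := ⟨fun s => a s • (φ : ℝ → Fib) s, ⟨ha.smul (tsmooth φ),
    (tsupp φ).mono (fun s hs h => hs (by show a s • (φ : ℝ → Fib) s = 0; rw [h, smul_zero]))⟩⟩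
  map_add' φ ψ := by
    ext1
    funext s
    exact smul_add _ _ _
  map_smul' c φ := by
    ext1
    funext s
    show a s • (c • (φ : ℝ → Fib) s) = c • (a s • (φ : ℝ → Fib) s)
    exact smul_comm _ _ _

lemma mulT_apply (a : ℝ → ℝ) (ha : ContDiff ℝ ∞ a) (φ : TF) (s : ℝ) :
    (mulT a ha φ : ℝ → Fib) s = a s • (φ : ℝ → Fib) s := rfl

/-- integration by parts -/
lemma ibp (φ ψ : TF) : ⟪iota (dd φ), iota ψ⟫_ℂ = -⟪iota φ, iota (dd ψ)⟫_ℂ := by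
  have hd : ∀ (φ : TF) (s : ℝ), HasDerivAt (φ : ℝ → Fib) (deriv φ s) s := fun φ s =>
    ((tsmooth φ).differentiable (by simp) s).hasDerivAt
  have h1 : ∀ s, HasDerivAt (fun s => ⟪(φ : ℝ → Fib) s, (ψ : ℝ → Fib) s⟫_ℂ)
      (⟪(φ : ℝ → Fib) s, deriv ψ s⟫_ℂ + ⟪deriv φ s, (ψ : ℝ → Fib) s⟫_ℂ) s := fun s =>
    (hd φ s).inner ℂ (hd ψ s)
  have i1 : Integrable fun s => ⟪(φ : ℝ → Fib) s, deriv ψ s⟫_ℂ :=
    ((tcont φ).inner (tcont (dd ψ))).integrable_of_hasCompactSupport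
      ((tsupp φ).mono (fun s hs h => hs (by show ⟪_, _⟫_ℂ = _; rw [h, inner_zero_left])))
  have i2 : Integrable fun s => ⟪deriv φ s, (ψ : ℝ → Fib) s⟫_ℂ :=
    ((tcont (dd φ)).inner (tcont ψ)).integrable_of_hasCompactSupport
      ((tsupp ψ).mono (fun s hs h => hs (by show ⟪_, _⟫_ℂ = _; rw [h, inner_zero_right])))
  have i3 : Integrable fun s => ⟪(φ : ℝ → Fib) s, (ψ : ℝ → Fib) s⟫_ℂ :=
    ((tcont φ).inner (tcont ψ)).integrable_of_hasCompactSupport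
      ((tsupp ψ).mono (fun s hs h => hs (by show ⟪_, _⟫_ℂ = _; rw [h, inner_zero_right])))
  have h2 := integral_eq_zero_of_hasDerivAt_of_integrable h1 (i1.add i2) i3
  rw [integral_add i1 i2] at h2
  rw [inner_iota, inner_iota, dd_coe, dd_coe]
  linear_combination h2

/-- Cauchy-Schwarz -/
lemma cs {X : Type*} [MeasurableSpace X] {μ : Measure X} {E : Type*} [NormedAddCommGroup E]
    {u v : X → E} (hu : MemLp u 2 μ) (hv : MemLp v 2 μ) :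
    ∫ x, ‖u x‖ * ‖v x‖ ∂μ ≤ √ (∫ x, ‖u x‖ ^ 2 ∂μ) * √ (∫ x, ‖v x‖ ^ 2 ∂μ) := by
  have h2 : (2 : ℝ≥0∞) = ENNReal.ofReal 2 := by simp
  have h := integral_mul_le_Lp_mul_Lq_of_nonneg (μ := μ) (p := 2) (q := 2)
    Real.HolderConjugate.two_two (f := fun x => ‖u x‖) (g := fun x => ‖v x‖)
    (Eventually.of_forall fun _ => norm_nonneg _) (Eventually.of_forall fun _ => norm_nonneg _)
    (by rw [← h2]; exact hu.norm) (by rw [← h2]; exact hv.norm)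
  simpa [Real.sqrt_eq_rpow] using h

lemma integral_norm_mul_le (φ ψ : TF) :
    ∫ s, ‖(φ : ℝ → Fib) s‖ * ‖(ψ : ℝ → Fib) s‖ ≤ ‖iota φ‖ * ‖iota ψ‖ := by
  have h := cs (tmemLp φ) (tmemLp ψ)
  rw [← norm_sq_iota, ← norm_sq_iota, Real.sqrt_sq (norm_nonneg _),
    Real.sqrt_sq (norm_nonneg _)] at h
  exact h

/-- one dimensional Sobolev inequality -/
lemma sobolev (φ : TF) (s : ℝ) :
    ‖(φ : ℝ → Fib) s‖ ^ 2 ≤ 2 * ‖iota φ‖ * ‖iota (dd φ)‖ := by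
  have hd : ∀ s, HasDerivAt (φ : ℝ → Fib) (deriv φ s) s := fun s =>
    ((tsmooth φ).differentiable (by simp) s).hasDerivAt
  have h1 : ∀ s, HasDerivAt (fun s => (⟪(φ : ℝ → Fib) s, (φ : ℝ → Fib) s⟫_ℂ).re)
      (⟪(φ : ℝ → Fib) s, deriv φ s⟫_ℂ + ⟪deriv φ s, (φ : ℝ → Fib) s⟫_ℂ).re s := fun s =>
    (Complex.reCLM.hasFDerivAt.comp_hasDerivAt s ((hd s).inner ℂ (hd s)))
  have hc : Continuous fun s => ⟪(φ : ℝ → Fib) s, deriv φ s⟫_ℂ := (tcont φ).inner (tcont (dd φ))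
  have hc' : Continuous fun s => ⟪deriv φ s, (φ : ℝ → Fib) s⟫_ℂ := (tcont (dd φ)).inner (tcont φ)
  have i1 : Integrable fun s => (⟪(φ : ℝ → Fib) s, deriv φ s⟫_ℂ + ⟪deriv φ s, (φ : ℝ → Fib) s⟫_ℂ).re := by
    refine (Complex.continuous_re.comp (hc.add hc')).integrable_of_hasCompactSupport
      ((tsupp φ).mono (fun s hs h => hs ?_))
    show (⟪_, _⟫_ℂ + ⟪_, _⟫_ℂ).re = 0
    rw [h, inner_zero_left, inner_zero_right]
    simp
  have hcs : HasCompactSupport fun s => (⟪(φ : ℝ → Fib) s, (φ : ℝ → Fib) s⟫_ℂ).re :=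
    (tsupp φ).mono (fun s hs h => hs (by show (⟪_, _⟫_ℂ).re = 0; rw [h, inner_zero_left]; simp))
  have h2 : ∫ t in Iic s, (⟪(φ : ℝ → Fib) t, deriv φ t⟫_ℂ + ⟪deriv φ t, (φ : ℝ → Fib) t⟫_ℂ).re =
      (⟪(φ : ℝ → Fib) s, (φ : ℝ → Fib) s⟫_ℂ).re - 0 := by
    apply integral_Iic_of_hasDerivAt_of_tendsto' (fun x _ => h1 x) i1.integrableOn
    rw [hasCompactSupport_iff_eventuallyEq, Filter.coclosedCompact_eq_cocompact] at hcs
    exact hcs.filter_mono _root_.atBot_le_cocompact |>.tendsto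
  have h3 : (⟪(φ : ℝ → Fib) s, (φ : ℝ → Fib) s⟫_ℂ).re = ‖(φ : ℝ → Fib) s‖ ^ 2 := by
    rw [inner_self_eq_norm_sq_to_K]
    simp [← Complex.ofReal_pow]
  rw [sub_zero, h3] at h2
  rw [← h2]
  have i2 : Integrable fun s => 2 * (‖(φ : ℝ → Fib) s‖ * ‖(dd φ : ℝ → Fib) s‖) := by
    refine (continuous_const.mul ((tcont φ).norm.mul (tcont (dd φ)).norm)).integrable_of_hasCompactSupport
      ((tsupp φ).mono (fun s hs h => hs ?_))
    show 2 * (‖(φ : ℝ → Fib) s‖ * ‖(dd φ : ℝ → Fib) s‖) = 0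
    rw [h]; simp
  calc ∫ t in Iic s, (⟪(φ : ℝ → Fib) t, deriv φ t⟫_ℂ + ⟪deriv φ t, (φ : ℝ → Fib) t⟫_ℂ).re
      ≤ ∫ t in Iic s, 2 * (‖(φ : ℝ → Fib) t‖ * ‖(dd φ : ℝ → Fib) t‖) := by
        apply setIntegral_mono i1.integrableOn i2.integrableOn
        intro t
        show (⟪(φ : ℝ → Fib) t, deriv (φ : ℝ → Fib) t⟫_ℂ + ⟪deriv (φ : ℝ → Fib) t, (φ : ℝ → Fib) t⟫_ℂ).re
          ≤ 2 * (‖(φ : ℝ → Fib) t‖ * ‖deriv (φ : ℝ → Fib) t‖)
        rw [Complex.add_re]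
        have e1 := (Complex.re_le_norm _).trans (norm_inner_le_norm (𝕜 := ℂ) ((φ : ℝ → Fib) t) (deriv φ t))
        have e2 := (Complex.re_le_norm _).trans (norm_inner_le_norm (𝕜 := ℂ) (deriv φ t) ((φ : ℝ → Fib) t))
        linarith
    _ ≤ ∫ t, 2 * (‖(φ : ℝ → Fib) t‖ * ‖(dd φ : ℝ → Fib) t‖) :=
        setIntegral_le_integral i2 (Eventually.of_forall fun t => by positivity)
    _ = 2 * ∫ t, (‖(φ : ℝ → Fib) t‖ * ‖(dd φ : ℝ → Fib) t‖) := integral_const_mul _ _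
    _ ≤ 2 * (‖iota φ‖ * ‖iota (dd φ)‖) := by
        gcongr
        exact integral_norm_mul_le φ (dd φ)
    _ = 2 * ‖iota φ‖ * ‖iota (dd φ)‖ := by ring

/-- Hölder continuity -/
lemma holder (φ : TF) (s t : ℝ) :
    ‖(φ : ℝ → Fib) s - (φ : ℝ → Fib) t‖ ≤ √ |s - t| * ‖iota (dd φ)‖ := by
  wlog hst : t ≤ s generalizing s t
  · rw [norm_sub_rev, abs_sub_comm]
    exact this t s (le_of_not_ge hst)
  have hd : ∀ s, HasDerivAt (φ : ℝ → Fib) (deriv φ s) s := fun s =>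
    ((tsmooth φ).differentiable (by simp) s).hasDerivAt
  have hc : Continuous (deriv (φ : ℝ → Fib)) := tcont (dd φ)
  have h1 : ∫ x in t..s, deriv φ x = (φ : ℝ → Fib) s - (φ : ℝ → Fib) t :=
    intervalIntegral.integral_eq_sub_of_hasDerivAt (fun x _ => hd x) (hc.intervalIntegrable _ _)
  rw [← h1, intervalIntegral.integral_of_le hst]
  have h2 : ∫ x in Ioc t s, ‖(1 : ℝ)‖ * ‖‖deriv (φ : ℝ → Fib) x‖‖ ≤
      √ (∫ x in Ioc t s, ‖(1 : ℝ)‖ ^ 2) * √ (∫ x in Ioc t s, ‖‖deriv (φ : ℝ → Fib) x‖‖ ^ 2) := by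
    apply cs (u := fun _ => (1 : ℝ)) (v := fun x => ‖deriv (φ : ℝ → Fib) x‖)
    · exact memLp_const 1
    · exact ((tmemLp (dd φ)).norm).restrict _
  simp only [norm_one, one_mul, norm_norm, one_pow] at h2
  have h3 : ∫ _x in Ioc t s, (1 : ℝ) = |s - t| := by
    rw [setIntegral_const]
    simp [abs_of_nonneg (sub_nonneg.2 hst), hst]
  rw [h3] at h2
  refine (norm_integral_le_integral_norm _).trans (h2.trans ?_)
  gcongr
  rw [← Real.sqrt_sq (norm_nonneg (iota (dd φ)))]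
  apply Real.sqrt_le_sqrt
  rw [norm_sq_iota]
  apply setIntegral_le_integral
  · exact (tmemLp (dd φ)).integrable_norm_pow (by norm_num)
  · exact Eventually.of_forall fun x => by positivity

end Pool.Agent.H56.Adiab
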