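import Pool.Agent.H56.Adiab.LeafKer

/-!
# Local energy estimate on a leaf
-/

open MeasureTheory Filter Topology Set
open scoped ENNReal InnerProductSpace ContDiff

namespace Pool.Agent.H56.Adiab

open AdiabRaw

/-- a smooth cutoff function -/
structure Cut (χ : ℝ → ℝ) (C : ℝ) : Prop where
  smooth : ContDiff ℝ ∞ χ
  one : χ 0 = 1
  supp : ∀ s, 1 < |s| → χ s = 0
  le : ∀ s, |χ s| ≤ 1
  der : ∀ s, |deriv χ s| ≤ C
  der_supp : ∀ s, 1 < |s| → deriv χ s = 0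
  pos : 0 ≤ C

lemma exists_cut : ∃ χ C, Cut χ C := by
  let f : ContDiffBump (0 : ℝ) := ⟨1 / 2, 1, by norm_num, by norm_num⟩
  have hs : ContDiff ℝ ∞ (f : ℝ → ℝ) := f.contDiff
  have hsupp : ∀ s, 1 < |s| → (f : ℝ → ℝ) s = 0 := by
    intro s hs
    apply f.zero_of_le_dist
    rw [dist_zero_right, Real.norm_eq_abs]
    exact hs.le
  have hdc : Continuous (deriv (f : ℝ → ℝ)) := hs.continuous_deriv (by simp)
  have hds : HasCompactSupport (deriv (f : ℝ → ℝ)) := f.hasCompactSupport.deriv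
  obtain ⟨C, hC⟩ := hdc.bounded_above_of_compact_support hds
  refine ⟨f, C, hs, ?_, hsupp, ?_, ?_, ?_, ?_⟩
  · exact f.one_of_mem_closedBall (by simp [f.rIn_pos.le])
  · intro s
    rw [abs_of_nonneg f.nonneg]
    exact f.le_one
  · intro s
    rw [← Real.norm_eq_abs]
    exact hC s
  · intro s hs
    have h0 : (f : ℝ → ℝ) =ᶠ[𝓝 s] fun _ => 0 := by
      have : {s : ℝ | 1 < |s|} ∈ 𝓝 s := (isOpen_lt continuous_const continuous_abs).mem_nhds hs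
      filter_upwards [this] with t ht
      exact hsupp t ht
    rw [h0.deriv_eq]
    simp
  · exact (norm_nonneg _).trans (hC 0)

section

variable (c ζ η : ℝ) {χ : ℝ → ℝ} {C : ℝ} (hχ : Cut χ C)

lemma deriv_smooth {χ : ℝ → ℝ} (h : ContDiff ℝ ∞ χ) : ContDiff ℝ ∞ (deriv χ) :=
  (contDiff_infty_iff_deriv.1 h).2

lemma dd_mulT {a : ℝ → ℝ} (ha : ContDiff ℝ ∞ a) (φ : TF) :
    dd (mulT a ha φ) = mulT a ha (dd φ) + mulT (deriv a) (deriv_smooth ha) φ := by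
  ext1
  funext s
  have h1 := ((tsmooth φ).differentiable (by simp) s).hasDerivAt
  have h2 := (ha.differentiable (by simp) s).hasDerivAt
  exact (h2.smul h1).deriv

lemma mapT_mulT (T : Fib →L[ℂ] Fib) {a : ℝ → ℝ} (ha : ContDiff ℝ ∞ a) (φ : TF) :
    mapT T (mulT a ha φ) = mulT a ha (mapT T φ) := by
  ext1
  funext s
  show T (a s • (φ : ℝ → Fib) s) = a s • T ((φ : ℝ → Fib) s)
  exact (T.restrictScalars ℝ).map_smul (a s) ((φ : ℝ → Fib) s)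

lemma Dl_mulT {a : ℝ → ℝ} (ha : ContDiff ℝ ∞ a) (φ : TF) :
    Dl c (mulT a ha φ) = mulT a ha (Dl c φ) +
      mulT (deriv a) (deriv_smooth ha) (mapT (wedgeL 0) φ) := by
  unfold Dl
  rw [LinearMap.add_apply, LinearMap.comp_apply, dd_mulT, map_add, mapT_mulT, mapT_mulT,
    mapT_mulT, LinearMap.add_apply, LinearMap.comp_apply, map_add]
  abel

lemma Ds_mulT {a : ℝ → ℝ} (ha : ContDiff ℝ ∞ a) (φ : TF) :
    Ds c (mulT a ha φ) = mulT a ha (Ds c φ) -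
      mulT (deriv a) (deriv_smooth ha) (mapT (contrL 0) φ) := by
  unfold Ds
  rw [LinearMap.add_apply, LinearMap.neg_apply, LinearMap.comp_apply, dd_mulT, map_add, mapT_mulT,
    mapT_mulT, mapT_mulT, LinearMap.add_apply, LinearMap.neg_apply, LinearMap.comp_apply, map_add,
    map_neg]
  abel

/-- abstract IMS identity -/
lemma ims {H : Type*} [NormedAddCommGroup H] [InnerProductSpace ℂ H] {d e x y z : H}
    (hd : y = d + e) (h1 : ⟪x, z⟫_ℂ = ⟪d, y⟫_ℂ) {t : H} (h2 : ⟪x, t⟫_ℂ = ⟪d, e⟫_ℂ) :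
    (⟪x, z + t⟫_ℂ).re = ‖y‖ ^ 2 - ‖e‖ ^ 2 := by
  have hd' : d = y - e := by rw [hd]; abel
  rw [inner_add_right, h1, h2, hd', inner_sub_left, inner_sub_left, inner_self_eq_norm_sq_to_K,
    inner_self_eq_norm_sq_to_K]
  have h3 : (⟪e, y⟫_ℂ).re = (⟪y, e⟫_ℂ).re := by
    rw [← inner_conj_symm, Complex.conj_re]
  simp only [Complex.add_re, Complex.sub_re, h3]
  have e1 : ((RCLike.ofReal ‖y‖ : ℂ) ^ 2).re = ‖y‖ ^ 2 := by
    show ((((‖y‖ : ℝ) : ℂ)) ^ 2).re = _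
    rw [← Complex.ofReal_pow, Complex.ofReal_re]
  have e2 : ((RCLike.ofReal ‖e‖ : ℂ) ^ 2).re = ‖e‖ ^ 2 := by
    show ((((‖e‖ : ℝ) : ℂ)) ^ 2).re = _
    rw [← Complex.ofReal_pow, Complex.ofReal_re]
  rw [e1, e2]
  ring

include hχ

lemma ims_Dl (φ : TF) :
    (⟪iota (Dl c φ), iota (Dl c (mulT χ hχ.smooth (mulT χ hχ.smooth φ)))⟫_ℂ).re =
      ‖iota (Dl c (mulT χ hχ.smooth φ))‖ ^ 2 -
        ‖iota (mulT (deriv χ) (deriv_smooth hχ.smooth) (mapT (wedgeL 0) φ))‖ ^ 2 := by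
  rw [Dl_mulT c hχ.smooth (mulT χ hχ.smooth φ), map_add]
  apply ims (d := iota (mulT χ hχ.smooth (Dl c φ)))
  · rw [← map_add, ← Dl_mulT]
  · rw [inner_mulT]
  · rw [mapT_mulT, inner_mulT]
    congr 2
    ext1
    funext s
    exact smul_comm _ _ _

lemma ims_Ds (φ : TF) :
    (⟪iota (Ds c φ), iota (Ds c (mulT χ hχ.smooth (mulT χ hχ.smooth φ)))⟫_ℂ).re =
      ‖iota (Ds c (mulT χ hχ.smooth φ))‖ ^ 2 -
        ‖iota (-mulT (deriv χ) (deriv_smooth hχ.smooth) (mapT (contrL 0) φ))‖ ^ 2 := by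
  rw [Ds_mulT c hχ.smooth (mulT χ hχ.smooth φ), sub_eq_add_neg, map_add]
  apply ims (d := iota (mulT χ hχ.smooth (Ds c φ)))
  · rw [← map_add, ← sub_eq_add_neg, ← Ds_mulT]
  · rw [inner_mulT]
  · rw [mapT_mulT, inner_mulT]
    congr 2
    ext1
    funext s
    show -(deriv χ s • χ s • (mapT (contrL 0) φ : ℝ → Fib) s) =
      χ s • -(deriv χ s • (mapT (contrL 0) φ : ℝ → Fib) s)
    rw [smul_neg, smul_comm]

lemma local_energy (φ : TF) :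
    ‖iota (Dl c (mulT χ hχ.smooth φ))‖ ^ 2 + ‖iota (Ds c (mulT χ hχ.smooth φ))‖ ^ 2 ≤
      (⟪LL c ζ η φ, LL c ζ η (mulT χ hχ.smooth (mulT χ hχ.smooth φ))⟫_ℂ).re +
        2 * ‖iota (mulT (deriv χ) (deriv_smooth hχ.smooth) φ)‖ ^ 2 := by
  rw [LL_inner, Complex.add_re, Complex.add_re, Complex.add_re, ims_Dl c hχ φ, ims_Ds c hχ φ]
  have hpos : ∀ {a : ℝ → ℝ} (ha : ContDiff ℝ ∞ a), 0 ≤ (⟪iota (mulT a ha φ),
      iota (mulT a ha (mulT χ hχ.smooth (mulT χ hχ.smooth φ)))⟫_ℂ).re := by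
    intro a ha
    have : mulT a ha (mulT χ hχ.smooth (mulT χ hχ.smooth φ)) =
        mulT χ hχ.smooth (mulT χ hχ.smooth (mulT a ha φ)) := by
      ext1
      funext s
      show a s • χ s • χ s • (φ : ℝ → Fib) s = χ s • χ s • a s • (φ : ℝ → Fib) s
      rw [smul_comm (a s), smul_comm (a s)]
    rw [this, ← inner_mulT, inner_self_eq_norm_sq_to_K]
    have e1 : ((RCLike.ofReal ‖iota (mulT χ hχ.smooth (mulT a ha φ))‖ : ℂ) ^ 2).re =
        ‖iota (mulT χ hχ.smooth (mulT a ha φ))‖ ^ 2 := by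
      show ((((‖iota (mulT χ hχ.smooth (mulT a ha φ))‖ : ℝ) : ℂ)) ^ 2).re = _
      rw [← Complex.ofReal_pow, Complex.ofReal_re]
    rw [e1]
    positivity
  have h1 := hpos (mo_smooth c ζ η)
  have h2 := hpos (a := fun _ => η) contDiff_const
  have h3 : ‖iota (mulT (deriv χ) (deriv_smooth hχ.smooth) (mapT (wedgeL 0) φ))‖ ≤
      1 * ‖iota (mulT (deriv χ) (deriv_smooth hχ.smooth) φ)‖ := by
    apply iota_norm_le
    intro s
    show ‖deriv χ s • wedge 0 ((φ : ℝ → Fib) s)‖ ≤ 1 * ‖deriv χ s • (φ : ℝ → Fib) s‖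
    rw [norm_smul, norm_smul, one_mul]
    gcongr
    exact norm_wedge_le _ _
  have h4 : ‖iota (-mulT (deriv χ) (deriv_smooth hχ.smooth) (mapT (contrL 0) φ))‖ ≤
      1 * ‖iota (mulT (deriv χ) (deriv_smooth hχ.smooth) φ)‖ := by
    apply iota_norm_le
    intro s
    show ‖-(deriv χ s • contr 0 ((φ : ℝ → Fib) s))‖ ≤ 1 * ‖deriv χ s • (φ : ℝ → Fib) s‖
    rw [norm_neg, norm_smul, norm_smul, one_mul]
    gcongr
    exact norm_contr_le _ _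
  rw [one_mul] at h3 h4
  have h5 := pow_le_pow_left₀ (norm_nonneg _) h3 2
  have h6 := pow_le_pow_left₀ (norm_nonneg _) h4 2
  have key : ∀ A B P Q R S T : ℝ, 0 ≤ A → 0 ≤ B → P ≤ R → Q ≤ R →
      S + T ≤ (S - P) + (T - Q) + A + B + 2 * R := by
    intros
    linarith
  exact key _ _ _ _ _ _ _ h1 h2 h5 h6

variable (hc : |c| ≤ 1) (hη : |η| ≤ 1) (hζ : 2 ≤ |ζ|)

omit hχ in
lemma mo_lower (hc : |c| ≤ 1) (hη : |η| ≤ 1) (hζ : 2 ≤ |ζ|) {s : ℝ} (hs : |s| ≤ 1) :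
    |ζ| / 2 ≤ |mo c ζ η s| := by
  have h1 : |s * c * η| ≤ 1 := by
    rw [abs_mul, abs_mul]
    have : |s| * |c| ≤ 1 := mul_le_one₀ hs (abs_nonneg _) hc
    exact mul_le_one₀ this (abs_nonneg _) hη
  have h2 := abs_sub_abs_le_abs_sub ζ (s * c * η)
  unfold mo
  linarith

omit hχ in
/-- functions supported in `[-1, 1]` -/
lemma loc_le (hc : |c| ≤ 1) (hη : |η| ≤ 1) (hζ : 2 ≤ |ζ|) {a : ℝ → ℝ} (ha : ContDiff ℝ ∞ a)
    {K : ℝ} (hK : 0 ≤ K) (h1 : ∀ s, |a s| ≤ K) (h2 : ∀ s, 1 < |s| → a s = 0) (φ : TF) :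
    ‖iota (mulT a ha φ)‖ ≤ K * (2 / |ζ| * ‖LL c ζ η φ‖) := by
  have hζ0 : 0 < |ζ| := by linarith
  have h3 : ‖iota (mulT a ha φ)‖ ≤ (K * (2 / |ζ|)) *
      ‖iota (mulT (mo c ζ η) (mo_smooth c ζ η) φ)‖ := by
    apply iota_norm_le
    intro s
    show ‖a s • (φ : ℝ → Fib) s‖ ≤ (K * (2 / |ζ|)) * ‖mo c ζ η s • (φ : ℝ → Fib) s‖
    rw [norm_smul, norm_smul, Real.norm_eq_abs, Real.norm_eq_abs, ← mul_assoc]
    apply mul_le_mul_of_nonneg_right _ (norm_nonneg _)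
    by_cases hs : 1 < |s|
    · rw [h2 s hs, abs_zero]; positivity
    · push Not at hs
      have h4 := mo_lower c ζ η hc hη hζ hs
      calc |a s| ≤ K := h1 s
        _ = K * (2 / |ζ|) * (|ζ| / 2) := by field_simp
        _ ≤ K * (2 / |ζ|) * |mo c ζ η s| := by gcongr
  have h5 : ‖iota (mulT (mo c ζ η) (mo_smooth c ζ η) φ)‖ ≤ ‖LL c ζ η φ‖ :=
    PiLp.norm_apply_le (LL c ζ η φ) 2
  calc _ ≤ _ := h3
    _ ≤ (K * (2 / |ζ|)) * ‖LL c ζ η φ‖ := by gcongr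
    _ = _ := by ring

include hc hη hζ in
/-- finite version of the estimate -/
lemma point_local (φ : TF) (m : ℝ) (hm : m = 2 / |ζ| * ‖LL c ζ η φ‖) (E : ℝ)
    (hE : (⟪LL c ζ η φ, LL c ζ η (mulT χ hχ.smooth (mulT χ hχ.smooth φ))⟫_ℂ).re ≤ E) :
    ‖(φ : ℝ → Fib) 0‖ ^ 2 ≤ 2 * m * (2 * √ (E + 2 * (C * m) ^ 2) + 2 * m) := by
  have hm0 : 0 ≤ m := by rw [hm]; positivity
  set ψ := mulT χ hχ.smooth φ with hψ
  have h0 : (φ : ℝ → Fib) 0 = (ψ : ℝ → Fib) 0 := by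
    show _ = χ 0 • (φ : ℝ → Fib) 0
    rw [hχ.one, one_smul]
  have h1 : ‖iota ψ‖ ≤ m := by
    have := loc_le c ζ η hc hη hζ hχ.smooth zero_le_one hχ.le hχ.supp φ
    rw [one_mul, ← hm] at this
    exact this
  have h2 : ‖iota (mulT (deriv χ) (deriv_smooth hχ.smooth) φ)‖ ≤ C * m := by
    have := loc_le c ζ η hc hη hζ (deriv_smooth hχ.smooth) hχ.pos hχ.der hχ.der_supp φ
    rwa [← hm] at this
  have h3 := local_energy c ζ η hχ φ
  rw [← hψ] at h3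
  have h4 : ‖iota (Dl c ψ)‖ ^ 2 + ‖iota (Ds c ψ)‖ ^ 2 ≤ E + 2 * (C * m) ^ 2 := by
    have := pow_le_pow_left₀ (norm_nonneg _) h2 2
    linarith
  have h5 : ‖iota (Dl c ψ)‖ ≤ √ (E + 2 * (C * m) ^ 2) :=
    Real.le_sqrt_of_sq_le (by nlinarith [sq_nonneg ‖iota (Ds c ψ)‖])
  have h6 : ‖iota (Ds c ψ)‖ ≤ √ (E + 2 * (C * m) ^ 2) :=
    Real.le_sqrt_of_sq_le (by nlinarith [sq_nonneg ‖iota (Dl c ψ)‖])
  have h7 : ‖iota (dd ψ)‖ ≤ 2 * √ (E + 2 * (C * m) ^ 2) + 2 * m := by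
    have g1 := split_dd (dd ψ)
    have e1 : iota (mapT (wedgeL 0) (dd ψ)) = iota (Dl c ψ) - iota (mapT (M1 c) ψ) := by
      rw [eq_sub_iff_add_eq, ← map_add]; rfl
    have e2 : iota (mapT (contrL 0) (dd ψ)) = iota (mapT (M2 c) ψ) - iota (Ds c ψ) := by
      rw [eq_sub_iff_add_eq', ← map_add]
      congr 1
      ext1
      funext s
      show -contr 0 (deriv ψ s) + M2 c ((ψ : ℝ → Fib) s) + contr 0 (deriv ψ s) =
        M2 c ((ψ : ℝ → Fib) s)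
      abel
    have g2 : ‖iota (mapT (M1 c) ψ)‖ ≤ |c| * ‖iota ψ‖ := iota_norm_le fun s => norm_M1_le c _
    have g3 : ‖iota (mapT (M2 c) ψ)‖ ≤ |c| * ‖iota ψ‖ := iota_norm_le fun s => norm_M2_le c _
    have g4 := norm_sub_le (iota (Dl c ψ)) (iota (mapT (M1 c) ψ))
    have g5 := norm_sub_le (iota (mapT (M2 c) ψ)) (iota (Ds c ψ))
    rw [← e1] at g4
    rw [← e2] at g5
    have g6 : |c| * ‖iota ψ‖ ≤ 1 * m := by gcongr
    linarith
  rw [h0]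
  calc ‖(ψ : ℝ → Fib) 0‖ ^ 2 ≤ 2 * ‖iota ψ‖ * ‖iota (dd ψ)‖ := sobolev ψ 0
    _ ≤ 2 * m * (2 * √ (E + 2 * (C * m) ^ 2) + 2 * m) := by gcongr

end

end Pool.Agent.H56.Adiab
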