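import Pool.Agent.H56.Adiab.LeafRep

/-!
# Kernels of functions of the leafwise operators
-/

open MeasureTheory Filter Topology Set
open scoped ENNReal InnerProductSpace ContDiff

namespace Pool.Agent.H56.Adiab

open AdiabRaw

section

variable (c ζ η : ℝ)

/-- the resolvent -/
noncomputable abbrev RL : L2Leaf →L[ℂ] L2Leaf := res0 iota (LL c ζ η)

/-- the energy component of the resolvent -/
noncomputable abbrev RL1 : L2Leaf →L[ℂ] HL := res1 iota (LL c ζ η)

lemma exists_rep' (g : L2Leaf) : ∃ W : ℝ → Fib, RL c ζ η g =ᵐ[volume] W ∧ Continuous W ∧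
    (∀ s, ‖W s‖ ≤ bd c ‖RL c ζ η g‖ ‖RL1 c ζ η g‖) ∧
    ∀ s t, ‖W s - W t‖ ≤ √ |s - t| * (2 * ‖RL1 c ζ η g‖ + 2 * |c| * ‖RL c ζ η g‖) := by
  obtain ⟨φ, h1, h2⟩ := res_seq iota (LL c ζ η) g
  obtain ⟨W, -, h3, h4, h5, h6⟩ := exists_rep h1 h2
  exact ⟨W, h3, h4, h5, h6⟩

/-- the continuous representative of `R g` -/
noncomputable def rep (g : L2Leaf) : ℝ → Fib := (exists_rep' c ζ η g).choose

lemma rep_ae (g : L2Leaf) : RL c ζ η g =ᵐ[volume] rep c ζ η g := (exists_rep' c ζ η g).choose_spec.1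
lemma rep_cont (g : L2Leaf) : Continuous (rep c ζ η g) := (exists_rep' c ζ η g).choose_spec.2.1
lemma rep_le (g : L2Leaf) (s : ℝ) : ‖rep c ζ η g s‖ ≤ bd c ‖RL c ζ η g‖ ‖RL1 c ζ η g‖ :=
  (exists_rep' c ζ η g).choose_spec.2.2.1 s
lemma rep_holder (g : L2Leaf) (s t : ℝ) : ‖rep c ζ η g s - rep c ζ η g t‖ ≤
    √ |s - t| * (2 * ‖RL1 c ζ η g‖ + 2 * |c| * ‖RL c ζ η g‖) :=
  (exists_rep' c ζ η g).choose_spec.2.2.2 s t

lemma rep_unique {g : L2Leaf} {W : ℝ → Fib} (hW : Continuous W) (h : RL c ζ η g =ᵐ[volume] W) :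
    rep c ζ η g = W :=
  ((rep_cont c ζ η g).ae_eq_iff_eq volume hW).1 ((rep_ae c ζ η g).symm.trans h)

lemma res_norm_sq_add {𝒟 H H' : Type*} [AddCommGroup 𝒟] [Module ℂ 𝒟]
    [NormedAddCommGroup H] [InnerProductSpace ℂ H] [CompleteSpace H]
    [NormedAddCommGroup H'] [InnerProductSpace ℂ H'] [CompleteSpace H']
    (ι : 𝒟 →ₗ[ℂ] H) (L : 𝒟 →ₗ[ℂ] H') (g : H) :
    ‖res1 ι L g‖ ^ 2 = (⟪g - res0 ι L g, res0 ι L g⟫_ℂ).re := by
  rw [res_energy, inner_self_eq_norm_sq_to_K]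
  simp [← Complex.ofReal_pow]

lemma res1_norm_le {𝒟 H H' : Type*} [AddCommGroup 𝒟] [Module ℂ 𝒟]
    [NormedAddCommGroup H] [InnerProductSpace ℂ H] [CompleteSpace H]
    [NormedAddCommGroup H'] [InnerProductSpace ℂ H'] [CompleteSpace H']
    (ι : 𝒟 →ₗ[ℂ] H) (L : 𝒟 →ₗ[ℂ] H') (g : H) : ‖res1 ι L g‖ ≤ ‖g‖ := by
  have h := res_norm_sq_add ι L g
  have h1 : (⟪g - res0 ι L g, res0 ι L g⟫_ℂ).re ≤ (⟪g, res0 ι L g⟫_ℂ).re := by
    rw [inner_sub_left, Complex.sub_re, inner_self_eq_norm_sq_to_K]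
    have : 0 ≤ ((((‖res0 ι L g‖ : ℝ) : ℂ)) ^ 2).re := by
      rw [← Complex.ofReal_pow, Complex.ofReal_re]; positivity
    have h2 : ((RCLike.ofReal ‖res0 ι L g‖ : ℂ) ^ 2).re = ((((‖res0 ι L g‖ : ℝ) : ℂ)) ^ 2).re := rfl
    rw [h2]
    linarith
  have h2 : (⟪g, res0 ι L g⟫_ℂ).re ≤ ‖g‖ * ‖res0 ι L g‖ :=
    (Complex.re_le_norm _).trans (norm_inner_le_norm _ _)
  have h3 := res_norm_le ι L g
  refine abs_le_of_sq_le_sq' ?_ (norm_nonneg g) |>.2
  nlinarith [norm_nonneg g]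

/-- point evaluation of `R g` -/
noncomputable def Kev (s : ℝ) : L2Leaf →L[ℂ] Fib :=
  LinearMap.mkContinuous
    { toFun := fun g => rep c ζ η g s
      map_add' := fun g g' => by
        have : rep c ζ η (g + g') = fun s => rep c ζ η g s + rep c ζ η g' s := by
          apply rep_unique
          · exact (rep_cont c ζ η g).add (rep_cont c ζ η g')
          · rw [map_add]
            filter_upwards [Lp.coeFn_add (RL c ζ η g) (RL c ζ η g'), rep_ae c ζ η g,
              rep_ae c ζ η g'] with s h1 h2 h3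
            rw [h1, Pi.add_apply, h2, h3]
        rw [this]
      map_smul' := fun a g => by
        have : rep c ζ η (a • g) = fun s => a • rep c ζ η g s := by
          apply rep_unique
          · exact (rep_cont c ζ η g).const_smul a
          · rw [map_smul]
            filter_upwards [Lp.coeFn_smul a (RL c ζ η g), rep_ae c ζ η g] with s h1 h2
            rw [h1, Pi.smul_apply, h2]
        rw [this]
        rfl } (√ (2 * (2 + 2 * |c|))) (fun g => by
        refine (rep_le c ζ η g s).trans ?_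
        have h1 := res_norm_le iota (LL c ζ η) g
        have h2 := res1_norm_le iota (LL c ζ η) g
        unfold bd
        rw [← Real.sqrt_sq (norm_nonneg g), ← Real.sqrt_mul (by positivity)]
        apply Real.sqrt_le_sqrt
        calc 2 * ‖RL c ζ η g‖ * (2 * ‖RL1 c ζ η g‖ + 2 * |c| * ‖RL c ζ η g‖)
            ≤ 2 * ‖g‖ * (2 * ‖g‖ + 2 * |c| * ‖g‖) := by gcongr
          _ = 2 * (2 + 2 * |c|) * ‖g‖ ^ 2 := by ring)

lemma Kev_apply (s : ℝ) (g : L2Leaf) : Kev c ζ η s g = rep c ζ η g s := rfl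

lemma Kev_holder (s t : ℝ) : ‖Kev c ζ η s - Kev c ζ η t‖ ≤ √ |s - t| * (2 + 2 * |c|) := by
  apply ContinuousLinearMap.opNorm_le_bound _ (by positivity)
  intro g
  show ‖rep c ζ η g s - rep c ζ η g t‖ ≤ _
  refine (rep_holder c ζ η g s t).trans ?_
  have h1 := res_norm_le iota (LL c ζ η) g
  have h2 := res1_norm_le iota (LL c ζ η) g
  calc √ |s - t| * (2 * ‖RL1 c ζ η g‖ + 2 * |c| * ‖RL c ζ η g‖)
      ≤ √ |s - t| * (2 * ‖g‖ + 2 * |c| * ‖g‖) := by gcongr
    _ = √ |s - t| * (2 + 2 * |c|) * ‖g‖ := by ring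

lemma Kev_cont : Continuous (Kev c ζ η) := by
  rw [Metric.continuous_iff']
  intro t ε hε
  have e1 : Tendsto (fun s => √ |s - t| * (2 + 2 * |c|)) (𝓝 t) (𝓝 (√ |t - t| *
      (2 + 2 * |c|))) := by
    apply Continuous.tendsto
    fun_prop
  rw [sub_self, abs_zero, Real.sqrt_zero, zero_mul] at e1
  filter_upwards [e1.eventually (gt_mem_nhds hε)] with s hs
  rw [dist_eq_norm]
  exact (Kev_holder c ζ η s t).trans_lt hs

/-- existence of the kernel -/
lemma exists_kernel {S S1 : L2Leaf →L[ℂ] L2Leaf} (hS : IsSelfAdjoint S)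
    (hS1 : S = RL c ζ η * S1) :
    IsKernel (fun s t => (Kev c ζ η s ∘L S1) ∘L (Kev c ζ η t ∘L S1).adjoint) (S * S) := by
  have hsym : ∀ a b : L2Leaf, ⟪S a, b⟫_ℂ = ⟪a, S b⟫_ℂ := by
    intro a b
    rw [ContinuousLinearMap.isSelfAdjoint_iff_isSymmetric] at hS
    exact hS a b
  set B : ℝ → L2Leaf →L[ℂ] Fib := fun s => Kev c ζ η s ∘L S1 with hB
  have hBc : Continuous B := (Kev_cont c ζ η).clm_comp continuous_const
  have hBa : Continuous fun t => (B t).adjoint :=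
    (ContinuousLinearMap.adjoint (𝕜 := ℂ) (E := L2Leaf) (F := Fib)).continuous.comp hBc
  have hBae : ∀ v : L2Leaf, S v =ᵐ[volume] fun s => B s v := by
    intro v
    rw [hS1]
    exact rep_ae c ζ η (S1 v)
  refine ⟨?_, ?_⟩
  · exact (hBc.comp continuous_fst).clm_comp (hBa.comp continuous_snd)
  · intro u v hu hsu huv
    have hint : Integrable fun t => (B t).adjoint (u t) := by
      apply (hBa.clm_apply hu).integrable_of_hasCompactSupport
      exact hsu.mono (fun s hs h => hs (by show (B s).adjoint (u s) = 0; rw [h, map_zero]))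
    have key : S v = ∫ t, (B t).adjoint (u t) := by
      apply ext_inner_right ℂ
      intro w
      rw [hsym, L2.inner_def]
      have e1 : ⟪∫ t, (B t).adjoint (u t), w⟫_ℂ = ∫ t, ⟪(B t).adjoint (u t), w⟫_ℂ := by
        rw [← inner_conj_symm, ← integral_inner hint w, ← integral_conj]
        congr 1
        ext t
        rw [inner_conj_symm]
      rw [e1]
      apply integral_congr_ae
      filter_upwards [huv, hBae w] with t h1 h2
      rw [h1, h2, ContinuousLinearMap.adjoint_inner_left]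
    refine (hBae (S v)).trans (Eventually.of_forall fun s => ?_)
    show B s (S v) = _
    rw [key, ← (B s).integral_comp_comm hint]
    rfl

/-- trace of the kernel at the unit -/
lemma unitTrace_le {S S1 : L2Leaf →L[ℂ] L2Leaf} (hS : IsSelfAdjoint S)
    (hS1 : S = RL c ζ η * S1) {C : ℝ} (hC : ∀ v, ‖v‖ ≤ 1 → ‖rep c ζ η (S1 v) 0‖ ^ 2 ≤ C) :
    unitTrace (S * S) ≤ ENNReal.ofReal (8 * C) := by
  unfold unitTrace
  refine iInf₂_le_of_le _ (exists_kernel c ζ η hS hS1) ?_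
  apply ENNReal.ofReal_le_ofReal
  set B := Kev c ζ η 0 ∘L S1 with hB
  have hC0 : 0 ≤ C := le_trans (by positivity) (hC 0 (by simp))
  have hBn : ‖B‖ ≤ √ C := by
    apply ContinuousLinearMap.opNorm_le_of_unit_norm (Real.sqrt_nonneg _)
    intro v hv
    exact Real.le_sqrt_of_sq_le (hC v hv.le)
  have h1 : LinearMap.trace ℂ Fib ((B ∘L B.adjoint : Fib →L[ℂ] Fib) : Fib →ₗ[ℂ] Fib) =
      ∑ i, ⟪EuclideanSpace.basisFun (Finset (Fin 3)) ℂ i, (B ∘L B.adjoint)
        (EuclideanSpace.basisFun (Finset (Fin 3)) ℂ i)⟫_ℂ :=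
    LinearMap.trace_eq_sum_inner _ _
  rw [h1, Complex.re_sum]
  have h2 : ∀ i, (⟪EuclideanSpace.basisFun (Finset (Fin 3)) ℂ i, (B ∘L B.adjoint)
        (EuclideanSpace.basisFun (Finset (Fin 3)) ℂ i)⟫_ℂ).re ≤ C := by
    intro i
    set e := EuclideanSpace.basisFun (Finset (Fin 3)) ℂ i with he
    have hen : ‖e‖ = 1 := (EuclideanSpace.basisFun (Finset (Fin 3)) ℂ).norm_eq_one i
    calc (⟪e, (B ∘L B.adjoint) e⟫_ℂ).re ≤ ‖e‖ * ‖(B ∘L B.adjoint) e‖ :=
          (Complex.re_le_norm _).trans (norm_inner_le_norm _ _)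
      _ = ‖B (B.adjoint e)‖ := by rw [hen, one_mul]; rfl
      _ ≤ √ C * (√ C * 1) := by
        refine (B.le_opNorm _).trans ?_
        have : ‖B.adjoint e‖ ≤ √ C * 1 := by
          refine (B.adjoint.le_opNorm _).trans ?_
          rw [hen, LinearIsometryEquiv.norm_map]
          gcongr
        gcongr
      _ = C := by rw [mul_one, Real.mul_self_sqrt hC0]
  calc ∑ i, (⟪EuclideanSpace.basisFun (Finset (Fin 3)) ℂ i, (B ∘L B.adjoint)
        (EuclideanSpace.basisFun (Finset (Fin 3)) ℂ i)⟫_ℂ).re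
      ≤ ∑ _i : Finset (Fin 3), C := Finset.sum_le_sum fun i _ => h2 i
    _ = 8 * C := by simp

end

end Pool.Agent.H56.Adiab
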