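import Pool.Agent.H56.Adiab.LeafEst

/-!
# Bound for the kernel on the diagonal
-/

open MeasureTheory Filter Topology Set
open scoped ENNReal InnerProductSpace ContDiff

namespace Pool.Agent.H56.Adiab

open AdiabRaw

section

variable (c ζ η : ℝ) {χ : ℝ → ℝ} {C : ℝ} (hχ : Cut χ C)

lemma LL_norm_le_of {ψ : TF} {K : ℝ} (hK : 0 ≤ K) (h0 : ‖iota (Dl c ψ)‖ ≤ K)
    (h1 : ‖iota (Ds c ψ)‖ ≤ K) (h2 : ‖iota (mulT (mo c ζ η) (mo_smooth c ζ η) ψ)‖ ≤ K)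
    (h3 : ‖iota (mulT (fun _ => η) contDiff_const ψ)‖ ≤ K) : ‖LL c ζ η ψ‖ ≤ 2 * K := by
  have h : ‖LL c ζ η ψ‖ ^ 2 = ‖iota (Dl c ψ)‖ ^ 2 + ‖iota (Ds c ψ)‖ ^ 2 +
      ‖iota (mulT (mo c ζ η) (mo_smooth c ζ η) ψ)‖ ^ 2 +
      ‖iota (mulT (fun _ => η) contDiff_const ψ)‖ ^ 2 := by
    rw [PiLp.norm_sq_eq_of_L2, Fin.sum_univ_four]
    rfl
  have e0 := pow_le_pow_left₀ (norm_nonneg _) h0 2
  have e1 := pow_le_pow_left₀ (norm_nonneg _) h1 2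
  have e2 := pow_le_pow_left₀ (norm_nonneg _) h2 2
  have e3 := pow_le_pow_left₀ (norm_nonneg _) h3 2
  refine abs_le_of_sq_le_sq' ?_ (by positivity) |>.2
  rw [h]
  calc _ ≤ K ^ 2 + K ^ 2 + K ^ 2 + K ^ 2 := add_le_add (add_le_add (add_le_add e0 e1) e2) e3
    _ = (2 * K) ^ 2 := by ring

include hχ

lemma mulT_norm_le (φ : TF) : ‖iota (mulT χ hχ.smooth φ)‖ ≤ ‖iota φ‖ := by
  have : ‖iota (mulT χ hχ.smooth φ)‖ ≤ 1 * ‖iota φ‖ := by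
    apply iota_norm_le
    intro s
    show ‖χ s • (φ : ℝ → Fib) s‖ ≤ _
    rw [norm_smul, Real.norm_eq_abs]
    exact mul_le_mul_of_nonneg_right (hχ.le s) (norm_nonneg _)
  rwa [one_mul] at this

lemma mulT'_norm_le (φ : TF) :
    ‖iota (mulT (deriv χ) (deriv_smooth hχ.smooth) φ)‖ ≤ C * ‖iota φ‖ := by
  apply iota_norm_le
  intro s
  show ‖deriv χ s • (φ : ℝ → Fib) s‖ ≤ _
  rw [norm_smul, Real.norm_eq_abs]
  exact mul_le_mul_of_nonneg_right (hχ.der s) (norm_nonneg _)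

lemma LL_mulT_le (ψ : TF) :
    ‖LL c ζ η (mulT χ hχ.smooth ψ)‖ ≤ 2 * (‖LL c ζ η ψ‖ + C * ‖iota ψ‖) := by
  have hC := hχ.pos
  have hw : ‖iota (mapT (wedgeL 0) ψ)‖ ≤ 1 * ‖iota ψ‖ :=
    iota_norm_le (fun s => by rw [one_mul]; exact norm_wedge_le _ _)
  have hk : ‖iota (mapT (contrL 0) ψ)‖ ≤ 1 * ‖iota ψ‖ :=
    iota_norm_le (fun s => by rw [one_mul]; exact norm_contr_le _ _)
  rw [one_mul] at hw hk
  have hcomm : ∀ {a : ℝ → ℝ} (ha : ContDiff ℝ ∞ a), mulT a ha (mulT χ hχ.smooth ψ) =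
      mulT χ hχ.smooth (mulT a ha ψ) := by
    intro a ha
    ext1
    funext s
    exact smul_comm _ _ _
  apply LL_norm_le_of c ζ η (by positivity)
  · rw [Dl_mulT, map_add]
    refine (norm_add_le _ _).trans (add_le_add ?_ ?_)
    · exact (mulT_norm_le hχ _).trans (Dl_norm_le c ζ η ψ)
    · exact (mulT'_norm_le hχ _).trans (by gcongr)
  · rw [Ds_mulT, map_sub]
    refine (norm_sub_le _ _).trans (add_le_add ?_ ?_)
    · exact (mulT_norm_le hχ _).trans (Ds_norm_le c ζ η ψ)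
    · exact (mulT'_norm_le hχ _).trans (by gcongr)
  · rw [hcomm]
    have : ‖iota (mulT (mo c ζ η) (mo_smooth c ζ η) ψ)‖ ≤ ‖LL c ζ η ψ‖ :=
      PiLp.norm_apply_le (LL c ζ η ψ) 2
    refine (mulT_norm_le hχ _).trans (this.trans ?_)
    have : 0 ≤ C * ‖iota ψ‖ := by positivity
    linarith
  · rw [hcomm]
    have : ‖iota (mulT (fun _ => η) contDiff_const ψ)‖ ≤ ‖LL c ζ η ψ‖ :=
      PiLp.norm_apply_le (LL c ζ η ψ) 3
    refine (mulT_norm_le hχ _).trans (this.trans ?_)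
    have : 0 ≤ C * ‖iota ψ‖ := by positivity
    linarith

/-- the local estimate in the limit -/
lemma rep_local (hc : |c| ≤ 1) (hη : |η| ≤ 1) (hζ : 2 ≤ |ζ|) (g : L2Leaf) (m : ℝ)
    (hm : m = 2 / |ζ| * ‖RL1 c ζ η g‖) :
    ‖rep c ζ η g 0‖ ^ 2 ≤
      2 * m * (2 * √ (‖g - RL c ζ η g‖ * m + 2 * (C * m) ^ 2) + 2 * m) := by
  obtain ⟨φ, h1, h2⟩ := res_seq iota (LL c ζ η) g
  obtain ⟨W, hW, h3, h4, -, -⟩ := exists_rep h1 h2
  have hrep : rep c ζ η g = W := rep_unique c ζ η h4 h3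
  rw [hrep]
  set l := RL1 c ζ η g with hl
  set a := g - RL c ζ η g with ha
  set mn : ℕ → ℝ := fun n => 2 / |ζ| * ‖LL c ζ η (φ n)‖ with hmn
  have hmn1 : Tendsto mn atTop (𝓝 m) := by
    rw [hm]
    exact h2.norm.const_mul _
  set Bd : ℕ → ℝ := fun n => 2 * (2 * (‖LL c ζ η (φ n)‖ + C * ‖iota (φ n)‖) + C * ‖iota (φ n)‖)
    with hBd
  have hBd1 : Tendsto Bd atTop (𝓝 (2 * (2 * (‖l‖ + C * ‖RL c ζ η g‖) + C * ‖RL c ζ η g‖))) :=
    (((h2.norm.add (h1.norm.const_mul C)).const_mul 2).add (h1.norm.const_mul C)).const_mul 2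
  set En : ℕ → ℝ := fun n => ‖LL c ζ η (φ n) - l‖ * Bd n + ‖a‖ * mn n with hEn
  have hEn1 : Tendsto En atTop (𝓝 (‖a‖ * m)) := by
    have e1 : Tendsto (fun n => ‖LL c ζ η (φ n) - l‖) atTop (𝓝 ‖l - l‖) :=
      (h2.sub tendsto_const_nhds).norm
    rw [sub_self, norm_zero] at e1
    have e2 := (e1.mul hBd1).add (hmn1.const_mul ‖a‖)
    rw [zero_mul, zero_add] at e2
    exact e2
  have hle : ∀ n, ‖(φ n : ℝ → Fib) 0‖ ^ 2 ≤
      2 * mn n * (2 * √ (En n + 2 * (C * mn n) ^ 2) + 2 * mn n) := by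
    intro n
    apply point_local c ζ η hχ hc hη hζ (φ n) (mn n) rfl
    set ψ := mulT χ hχ.smooth (mulT χ hχ.smooth (φ n)) with hψ
    have e1 : ⟪LL c ζ η (φ n), LL c ζ η ψ⟫_ℂ = ⟪LL c ζ η (φ n) - l, LL c ζ η ψ⟫_ℂ +
        ⟪a, iota ψ⟫_ℂ := by
      rw [ha, res_orth, inner_sub_left]
      ring
    rw [e1, Complex.add_re]
    have e2 : (⟪LL c ζ η (φ n) - l, LL c ζ η ψ⟫_ℂ).re ≤ ‖LL c ζ η (φ n) - l‖ * Bd n := by
      refine ((Complex.re_le_norm _).trans (norm_inner_le_norm _ _)).trans ?_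
      apply mul_le_mul_of_nonneg_left _ (norm_nonneg _)
      have f1 := LL_mulT_le c ζ η hχ (mulT χ hχ.smooth (φ n))
      have f2 := LL_mulT_le c ζ η hχ (φ n)
      have f3 := mulT_norm_le hχ (φ n)
      have f4 := hχ.pos
      calc ‖LL c ζ η ψ‖ ≤ 2 * (‖LL c ζ η (mulT χ hχ.smooth (φ n))‖ +
            C * ‖iota (mulT χ hχ.smooth (φ n))‖) := f1
        _ ≤ Bd n := by
          rw [hBd]
          show _ ≤ 2 * (2 * (‖LL c ζ η (φ n)‖ + C * ‖iota (φ n)‖) + C * ‖iota (φ n)‖)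
          gcongr
    have e3 : (⟪a, iota ψ⟫_ℂ).re ≤ ‖a‖ * mn n := by
      refine ((Complex.re_le_norm _).trans (norm_inner_le_norm _ _)).trans ?_
      apply mul_le_mul_of_nonneg_left _ (norm_nonneg _)
      have f1 := mulT_norm_le hχ (mulT χ hχ.smooth (φ n))
      have f2 := loc_le c ζ η hc hη hζ hχ.smooth zero_le_one hχ.le hχ.supp (φ n)
      rw [one_mul] at f2
      exact f1.trans f2
    exact add_le_add e2 e3
  refine le_of_tendsto_of_tendsto ((hW 0).norm.pow 2) ?_ (Eventually.of_forall hle)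
  exact (hmn1.const_mul 2).mul ((((Real.continuous_sqrt.tendsto _).comp
    (hEn1.add (((hmn1.const_mul C).pow 2).const_mul 2))).const_mul 2).add (hmn1.const_mul 2))

/-- decay in `ζ` -/
lemma rep_decay (hc : |c| ≤ 1) (hη : |η| ≤ 1) (hζ : 2 ≤ |ζ|) (g : L2Leaf)
    (h1 : ‖RL c ζ η g‖ ≤ 1) (h2 : ‖g - RL c ζ η g‖ ≤ 1) :
    ‖rep c ζ η g 0‖ ^ 2 ≤ 4 * (√ (1 + 2 * C ^ 2) + 1) * ((2 / |ζ|) * √ (2 / |ζ|)) := by
  have hζ0 : 0 < |ζ| := by linarith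
  have hl : ‖RL1 c ζ η g‖ ≤ 1 := by
    have e1 := res_norm_sq_add iota (LL c ζ η) g
    have e2 : (⟪g - RL c ζ η g, RL c ζ η g⟫_ℂ).re ≤ ‖g - RL c ζ η g‖ * ‖RL c ζ η g‖ :=
      (Complex.re_le_norm _).trans (norm_inner_le_norm _ _)
    have e3 : ‖g - RL c ζ η g‖ * ‖RL c ζ η g‖ ≤ 1 :=
      mul_le_one₀ h2 (norm_nonneg _) h1
    refine abs_le_of_sq_le_sq' ?_ zero_le_one |>.2
    rw [e1, one_pow]
    exact e2.trans e3
  have h := rep_local c ζ η hχ hc hη hζ g _ rfl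
  set m := 2 / |ζ| * ‖RL1 c ζ η g‖ with hm
  set M := 2 / |ζ| with hM
  have hM0 : 0 < M := by positivity
  have hM1 : M ≤ 1 := by rw [hM, div_le_one hζ0]; exact hζ
  have hm0 : 0 ≤ m := by positivity
  have hmM : m ≤ M := by
    calc m ≤ M * 1 := by rw [hm]; gcongr
      _ = M := mul_one _
  have hC := hχ.pos
  refine h.trans ?_
  have e1 : √ (‖g - RL c ζ η g‖ * m + 2 * (C * m) ^ 2) ≤ √ (1 + 2 * C ^ 2) * √ M := by
    rw [← Real.sqrt_mul (by positivity)]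
    apply Real.sqrt_le_sqrt
    have f1 : ‖g - RL c ζ η g‖ * m ≤ 1 * M := by gcongr
    have f2 : (C * m) ^ 2 ≤ C ^ 2 * M := by
      rw [mul_pow]
      gcongr
      calc m ^ 2 ≤ M ^ 2 := by gcongr
        _ = M * M := sq M
        _ ≤ M * 1 := by gcongr
        _ = M := mul_one _
    calc _ ≤ 1 * M + 2 * (C ^ 2 * M) := by linarith
      _ = (1 + 2 * C ^ 2) * M := by ring
  have e2 : m ≤ √ M := by
    refine hmM.trans (Real.le_sqrt_of_sq_le ?_)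
    calc M ^ 2 = M * M := sq M
      _ ≤ M * 1 := by gcongr
      _ = M := mul_one _
  calc 2 * m * (2 * √ (‖g - RL c ζ η g‖ * m + 2 * (C * m) ^ 2) + 2 * m)
      ≤ 2 * M * (2 * (√ (1 + 2 * C ^ 2) * √ M) + 2 * √ M) := by gcongr
    _ = 4 * (√ (1 + 2 * C ^ 2) + 1) * (M * √ M) := by ring

omit hχ in
/-- the uniform bound -/
lemma rep_unif (hc : |c| ≤ 1) (g : L2Leaf)
    (h1 : ‖RL c ζ η g‖ ≤ 1) (h2 : ‖g - RL c ζ η g‖ ≤ 1) : ‖rep c ζ η g 0‖ ^ 2 ≤ 8 := by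
  have hl : ‖RL1 c ζ η g‖ ≤ 1 := by
    have e1 := res_norm_sq_add iota (LL c ζ η) g
    have e2 : (⟪g - RL c ζ η g, RL c ζ η g⟫_ℂ).re ≤ ‖g - RL c ζ η g‖ * ‖RL c ζ η g‖ :=
      (Complex.re_le_norm _).trans (norm_inner_le_norm _ _)
    have e3 : ‖g - RL c ζ η g‖ * ‖RL c ζ η g‖ ≤ 1 :=
      mul_le_one₀ h2 (norm_nonneg _) h1
    refine abs_le_of_sq_le_sq' ?_ zero_le_one |>.2
    rw [e1, one_pow]
    exact e2.trans e3
  have h := rep_le c ζ η g 0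
  have h3 := pow_le_pow_left₀ (norm_nonneg _) h 2
  refine h3.trans ?_
  unfold bd
  rw [Real.sq_sqrt (by positivity)]
  calc 2 * ‖RL c ζ η g‖ * (2 * ‖RL1 c ζ η g‖ + 2 * |c| * ‖RL c ζ η g‖)
      ≤ 2 * 1 * (2 * 1 + 2 * 1 * 1) := by gcongr
    _ = 8 := by norm_num

end

end Pool.Agent.H56.Adiab
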