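import Pool.Agent.H56.Adiab.Leaf

/-!
# The leafwise operators
-/

open MeasureTheory Filter Topology Set
open scoped ENNReal InnerProductSpace ContDiff

namespace Pool.Agent.H56.Adiab

open AdiabRaw

/-- zero order part of the tangential differential -/
noncomputable def M1 (c : ℝ) : Fib →L[ℂ] Fib := c • (wedgeL 0 ∘L wedgeL 1 ∘L contrL 2)

/-- its adjoint -/
noncomputable def M2 (c : ℝ) : Fib →L[ℂ] Fib := c • (wedgeL 2 ∘L contrL 1 ∘L contrL 0)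

lemma M_adj (c : ℝ) (v w : Fib) : ⟪M1 c v, w⟫_ℂ = ⟪v, M2 c w⟫_ℂ := by
  show ⟪c • wedge 0 (wedge 1 (contr 2 v)), w⟫_ℂ = ⟪v, c • wedge 2 (contr 1 (contr 0 w))⟫_ℂ
  rw [inner_smul_left_eq_smul, inner_smul_right_eq_smul, inner_wedge, inner_wedge, inner_contr]

lemma norm_M1_le (c : ℝ) (v : Fib) : ‖M1 c v‖ ≤ |c| * ‖v‖ := by
  show ‖c • wedge 0 (wedge 1 (contr 2 v))‖ ≤ _
  rw [norm_smul, Real.norm_eq_abs]
  gcongr
  exact (norm_wedge_le _ _).trans ((norm_wedge_le _ _).trans (norm_contr_le _ _))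

lemma norm_M2_le (c : ℝ) (v : Fib) : ‖M2 c v‖ ≤ |c| * ‖v‖ := by
  show ‖c • wedge 2 (contr 1 (contr 0 v))‖ ≤ _
  rw [norm_smul, Real.norm_eq_abs]
  gcongr
  exact (norm_wedge_le _ _).trans ((norm_contr_le _ _).trans (norm_contr_le _ _))

/-- the leafwise differential -/
noncomputable def Dl (c : ℝ) : TF →ₗ[ℂ] TF := mapT (wedgeL 0) ∘ₗ dd + mapT (M1 c)

/-- its adjoint -/
noncomputable def Ds (c : ℝ) : TF →ₗ[ℂ] TF := -(mapT (contrL 0) ∘ₗ dd) + mapT (M2 c)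

lemma Dl_apply (c : ℝ) (φ : TF) (s : ℝ) : (Dl c φ : ℝ → Fib) s =
    wedge 0 (deriv φ s) + M1 c ((φ : ℝ → Fib) s) := rfl

lemma Ds_apply (c : ℝ) (φ : TF) (s : ℝ) : (Ds c φ : ℝ → Fib) s =
    -contr 0 (deriv φ s) + M2 c ((φ : ℝ → Fib) s) := rfl

lemma inner_mapT {T T' : Fib →L[ℂ] Fib} (h : ∀ v w, ⟪T v, w⟫_ℂ = ⟪v, T' w⟫_ℂ) (φ ψ : TF) :
    ⟪iota (mapT T φ), iota ψ⟫_ℂ = ⟪iota φ, iota (mapT T' ψ)⟫_ℂ := by
  rw [inner_iota, inner_iota]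
  simp only [mapT_apply, h]

lemma dd_mapT (T : Fib →L[ℂ] Fib) (φ : TF) : dd (mapT T φ) = mapT T (dd φ) := by
  ext1
  funext s
  have h := ((tsmooth φ).differentiable (by simp) s).hasDerivAt
  exact ((T.restrictScalars ℝ).hasFDerivAt.comp_hasDerivAt s h).deriv

lemma Dl_adj (c : ℝ) (φ ψ : TF) : ⟪iota (Dl c φ), iota ψ⟫_ℂ = ⟪iota φ, iota (Ds c ψ)⟫_ℂ := by
  have h1 : ∀ φ ψ : TF, ⟪iota (mapT (wedgeL 0) φ), iota ψ⟫_ℂ =
      ⟪iota φ, iota (mapT (contrL 0) ψ)⟫_ℂ := inner_mapT (fun v w => inner_wedge 0 v w)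
  have h2 : ∀ φ ψ : TF, ⟪iota (mapT (M1 c) φ), iota ψ⟫_ℂ =
      ⟪iota φ, iota (mapT (M2 c) ψ)⟫_ℂ := inner_mapT (M_adj c)
  have e1 : iota (Dl c φ) = iota (mapT (wedgeL 0) (dd φ)) + iota (mapT (M1 c) φ) := by
    rw [← map_add]; rfl
  have e2 : iota (Ds c ψ) = -iota (mapT (contrL 0) (dd ψ)) + iota (mapT (M2 c) ψ) := by
    rw [← map_neg, ← map_add]; rfl
  rw [e1, e2, inner_add_left, inner_add_right, inner_neg_right, h1, h2, ibp, dd_mapT]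

lemma Ds_adj (c : ℝ) (φ ψ : TF) : ⟪iota (Ds c φ), iota ψ⟫_ℂ = ⟪iota φ, iota (Dl c ψ)⟫_ℂ := by
  rw [← inner_conj_symm, ← Dl_adj, inner_conj_symm]

section

variable (c ζ η : ℝ)

/-- the momentum along the leaf -/
def mo (s : ℝ) : ℝ := ζ - s * c * η

lemma mo_smooth : ContDiff ℝ ∞ (mo c ζ η) := by unfold mo; fun_prop

lemma inner_mulT {a : ℝ → ℝ} (ha : ContDiff ℝ ∞ a) (φ ψ : TF) :
    ⟪iota (mulT a ha φ), iota ψ⟫_ℂ = ⟪iota φ, iota (mulT a ha ψ)⟫_ℂ := by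
  rw [inner_iota, inner_iota]
  congr 1
  ext s
  rw [mulT_apply, mulT_apply, inner_smul_left_eq_smul, inner_smul_right_eq_smul]

/-- the potential -/
def pot (s : ℝ) : ℝ := mo c ζ η s ^ 2 + η ^ 2

lemma pot_smooth : ContDiff ℝ ∞ (pot c ζ η) := by unfold pot mo; fun_prop

/-- the leafwise operator -/
noncomputable def AT : TF →ₗ[ℂ] TF :=
  (Dl c ∘ₗ Ds c + Ds c ∘ₗ Dl c) + mulT (pot c ζ η) (pot_smooth c ζ η)

/-- the operator with values in `L²` -/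
noncomputable def Al : TF →ₗ[ℂ] L2Leaf := iota ∘ₗ AT c ζ η

/-- the target of the first order system -/
abbrev HL : Type := PiLp 2 (fun _ : Fin 4 => L2Leaf)

/-- the first order system -/
noncomputable def LL : TF →ₗ[ℂ] HL :=
  (WithLp.linearEquiv 2 ℂ (Fin 4 → L2Leaf)).symm.toLinearMap ∘ₗ
    LinearMap.pi ![iota ∘ₗ Dl c, iota ∘ₗ Ds c, iota ∘ₗ mulT (mo c ζ η) (mo_smooth c ζ η),
      iota ∘ₗ mulT (fun _ => η) contDiff_const]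

lemma LL_inner (φ ψ : TF) : ⟪LL c ζ η φ, LL c ζ η ψ⟫_ℂ =
    ⟪iota (Dl c φ), iota (Dl c ψ)⟫_ℂ + ⟪iota (Ds c φ), iota (Ds c ψ)⟫_ℂ +
    ⟪iota (mulT (mo c ζ η) (mo_smooth c ζ η) φ), iota (mulT (mo c ζ η) (mo_smooth c ζ η) ψ)⟫_ℂ +
    ⟪iota (mulT (fun _ => η) contDiff_const φ), iota (mulT (fun _ => η) contDiff_const ψ)⟫_ℂ := by
  rw [PiLp.inner_apply, Fin.sum_univ_four]
  rfl

lemma fact (φ ψ : TF) : ⟪iota φ, Al c ζ η ψ⟫_ℂ = ⟪LL c ζ η φ, LL c ζ η ψ⟫_ℂ := by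
  rw [LL_inner, Dl_adj, Ds_adj, inner_mulT, inner_mulT, ← inner_add_right, ← inner_add_right,
    ← inner_add_right, ← map_add, ← map_add, ← map_add]
  unfold Al
  rw [LinearMap.comp_apply]
  congr 2
  ext1
  funext s
  show ((Dl c (Ds c ψ) : ℝ → Fib) s + (Ds c (Dl c ψ) : ℝ → Fib) s) +
    pot c ζ η s • (ψ : ℝ → Fib) s = (((Ds c (Dl c ψ) : ℝ → Fib) s + (Dl c (Ds c ψ) : ℝ → Fib) s) +
    mo c ζ η s • mo c ζ η s • (ψ : ℝ → Fib) s) + η • η • (ψ : ℝ → Fib) s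
  unfold pot
  rw [add_smul, smul_smul, smul_smul, ← sq, ← sq]
  abel

end

lemma leafGraph_eq (b : ℝ → ℝ) (ν : Conormal) :
    leafGraph b ν = Set.range fun φ : TF => (iota φ, Al (deriv b ν.1.2.1) ν.2.1 ν.2.2 φ) := by
  have key : ∀ φ : TF, (AT (deriv b ν.1.2.1) ν.2.1 ν.2.2 φ : ℝ → Fib) =
      leafLaplacian b ν (φ : ℝ → Fib) := fun φ => rfl
  ext p
  constructor
  · rintro ⟨u, hu, hu', h1, h2⟩
    refine ⟨⟨u, hu, hu'⟩, ?_⟩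
    have e1 : iota ⟨u, hu, hu'⟩ = p.1 := by
      apply Lp.ext
      exact (iota_coe _).trans h1.symm
    have e2 : Al (deriv b ν.1.2.1) ν.2.1 ν.2.2 ⟨u, hu, hu'⟩ = p.2 := by
      apply Lp.ext
      refine (iota_coe _).trans ?_
      rw [key]
      exact h2.symm
    show (iota ⟨u, hu, hu'⟩, Al (deriv b ν.1.2.1) ν.2.1 ν.2.2 ⟨u, hu, hu'⟩) = p
    rw [e1, e2]
  · rintro ⟨φ, rfl⟩
    refine ⟨φ, tsmooth φ, tsupp φ, iota_coe φ, ?_⟩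
    refine (iota_coe _).trans ?_
    rw [key]

end Pool.Agent.H56.Adiab
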