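import Pool.Agent.H56.Adiab.LeafOp

/-!
# Continuous representatives
-/

open MeasureTheory Filter Topology Set
open scoped ENNReal InnerProductSpace ContDiff

namespace Pool.Agent.H56.Adiab

open AdiabRaw

lemma iota_norm_le {φ ψ : TF} {K : ℝ} (h : ∀ s, ‖(ψ : ℝ → Fib) s‖ ≤ K * ‖(φ : ℝ → Fib) s‖) :
    ‖iota ψ‖ ≤ K * ‖iota φ‖ := by
  apply Lp.norm_le_mul_norm_of_ae_le_mul
  filter_upwards [iota_coe φ, iota_coe ψ] with s h1 h2
  rw [h1, h2]
  exact h s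

section

variable (c ζ η : ℝ)

lemma Dl_norm_le (φ : TF) : ‖iota (Dl c φ)‖ ≤ ‖LL c ζ η φ‖ := PiLp.norm_apply_le (LL c ζ η φ) 0
lemma Ds_norm_le (φ : TF) : ‖iota (Ds c φ)‖ ≤ ‖LL c ζ η φ‖ := PiLp.norm_apply_le (LL c ζ η φ) 1

/-- splitting of the derivative -/
lemma split_dd (φ : TF) : ‖iota φ‖ ≤ ‖iota (mapT (wedgeL 0) φ)‖ + ‖iota (mapT (contrL 0) φ)‖ := by
  have h1 : φ = mapT (wedgeL 0) (mapT (contrL 0) φ) + mapT (contrL 0) (mapT (wedgeL 0) φ) := by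
    ext1
    funext s
    exact (wedge_contr_add 0 _).symm
  have h2 : iota φ = iota (mapT (wedgeL 0) (mapT (contrL 0) φ)) +
      iota (mapT (contrL 0) (mapT (wedgeL 0) φ)) := by
    rw [← map_add, ← h1]
  rw [h2]
  have h3 : ‖iota (mapT (wedgeL 0) (mapT (contrL 0) φ))‖ ≤ 1 * ‖iota (mapT (contrL 0) φ)‖ :=
    iota_norm_le (fun s => by rw [one_mul]; exact norm_wedge_le _ _)
  have h4 : ‖iota (mapT (contrL 0) (mapT (wedgeL 0) φ))‖ ≤ 1 * ‖iota (mapT (wedgeL 0) φ)‖ :=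
    iota_norm_le (fun s => by rw [one_mul]; exact norm_contr_le _ _)
  refine (norm_add_le _ _).trans ?_
  linarith

lemma dd_le (φ : TF) : ‖iota (dd φ)‖ ≤ 2 * ‖LL c ζ η φ‖ + 2 * |c| * ‖iota φ‖ := by
  have h1 := split_dd (dd φ)
  have e1 : iota (mapT (wedgeL 0) (dd φ)) = iota (Dl c φ) - iota (mapT (M1 c) φ) := by
    rw [eq_sub_iff_add_eq, ← map_add]; rfl
  have e2 : iota (mapT (contrL 0) (dd φ)) = iota (mapT (M2 c) φ) - iota (Ds c φ) := by
    rw [eq_sub_iff_add_eq', ← map_add]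
    congr 1
    ext1
    funext s
    show -contr 0 (deriv φ s) + M2 c ((φ : ℝ → Fib) s) + contr 0 (deriv φ s) = M2 c ((φ : ℝ → Fib) s)
    abel
  have h2 : ‖iota (mapT (M1 c) φ)‖ ≤ |c| * ‖iota φ‖ := iota_norm_le fun s => norm_M1_le c _
  have h3 : ‖iota (mapT (M2 c) φ)‖ ≤ |c| * ‖iota φ‖ := iota_norm_le fun s => norm_M2_le c _
  have h4 := norm_sub_le (iota (Dl c φ)) (iota (mapT (M1 c) φ))
  have h5 := norm_sub_le (iota (mapT (M2 c) φ)) (iota (Ds c φ))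
  rw [← e1] at h4
  rw [← e2] at h5
  have h6 := Dl_norm_le c ζ η φ
  have h7 := Ds_norm_le c ζ η φ
  linarith

/-- bound for the point values -/
noncomputable def bd (x y : ℝ) : ℝ := √ (2 * x * (2 * y + 2 * |c| * x))

lemma point_le (φ : TF) (s : ℝ) : ‖(φ : ℝ → Fib) s‖ ≤ bd c ‖iota φ‖ ‖LL c ζ η φ‖ := by
  apply Real.le_sqrt_of_sq_le
  refine (sobolev φ s).trans ?_
  have := dd_le c ζ η φ
  gcongr

lemma bd_cont : Continuous fun p : ℝ × ℝ => bd c p.1 p.2 := by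
  unfold bd
  fun_prop

variable {c ζ η}

/-- continuous representative of a limit in the form domain -/
lemma exists_rep {φ : ℕ → TF} {w : L2Leaf} {l : HL}
    (h1 : Tendsto (fun n => iota (φ n)) atTop (𝓝 w))
    (h2 : Tendsto (fun n => LL c ζ η (φ n)) atTop (𝓝 l)) :
    ∃ W : ℝ → Fib, (∀ s, Tendsto (fun n => (φ n : ℝ → Fib) s) atTop (𝓝 (W s))) ∧
      w =ᵐ[volume] W ∧ Continuous W ∧ (∀ s, ‖W s‖ ≤ bd c ‖w‖ ‖l‖) ∧
      ∀ s t, ‖W s - W t‖ ≤ √ |s - t| * (2 * ‖l‖ + 2 * |c| * ‖w‖) := by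
  have hcau : ∀ s, CauchySeq (fun n => (φ n : ℝ → Fib) s) := by
    intro s
    rw [cauchySeq_iff_tendsto_dist_atTop_0]
    have e1 : Tendsto (fun m : ℕ × ℕ => ‖iota (φ m.1) - iota (φ m.2)‖) atTop (𝓝 ‖w - w‖) := by
      rw [← prod_atTop_atTop_eq]
      exact ((h1.comp tendsto_fst).sub (h1.comp tendsto_snd)).norm
    have e2 : Tendsto (fun m : ℕ × ℕ => ‖LL c ζ η (φ m.1) - LL c ζ η (φ m.2)‖) atTop
        (𝓝 ‖l - l‖) := by
      rw [← prod_atTop_atTop_eq]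
      exact ((h2.comp tendsto_fst).sub (h2.comp tendsto_snd)).norm
    have e3 := ((bd_cont c).tendsto _).comp (e1.prodMk_nhds e2)
    have e4 : bd c (‖w - w‖, ‖l - l‖).1 (‖w - w‖, ‖l - l‖).2 = 0 := by
      simp [bd]
    rw [e4] at e3
    refine squeeze_zero (fun _ => dist_nonneg) (fun m => ?_) e3
    rw [dist_eq_norm]
    have := point_le c ζ η (φ m.1 - φ m.2) s
    rw [map_sub, map_sub] at this
    exact this
  choose W hW using fun s => cauchySeq_tendsto_of_complete (hcau s)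
  have hH : ∀ s t, ‖W s - W t‖ ≤ √ |s - t| * (2 * ‖l‖ + 2 * |c| * ‖w‖) := by
    intro s t
    refine le_of_tendsto_of_tendsto ((hW s).sub (hW t)).norm
      ((((h2.norm.const_mul 2).add (h1.norm.const_mul (2 * |c|))).const_mul (√ |s - t|)))
      (Eventually.of_forall fun n => ?_)
    refine (holder (φ n) s t).trans ?_
    exact mul_le_mul_of_nonneg_left (dd_le c ζ η (φ n)) (Real.sqrt_nonneg _)
  refine ⟨W, hW, ?_, ?_, ?_, hH⟩
  · have e1 : TendstoInMeasure volume (fun n => (iota (φ n) : ℝ → Fib)) atTop w :=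
      tendstoInMeasure_of_tendsto_Lp h1
    obtain ⟨ns, hns, hae⟩ := e1.exists_seq_tendsto_ae
    have e2 : ∀ᵐ s, ∀ n, iota (φ n) s = (φ n : ℝ → Fib) s := ae_all_iff.2 fun n => iota_coe (φ n)
    filter_upwards [hae, e2] with s hs1 hs2
    simp only [hs2] at hs1
    exact tendsto_nhds_unique hs1 ((hW s).comp hns.tendsto_atTop)
  · rw [Metric.continuous_iff']
    intro t ε hε
    have e1 : Tendsto (fun s => √ |s - t| * (2 * ‖l‖ + 2 * |c| * ‖w‖)) (𝓝 t) (𝓝 (√ |t - t| *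
        (2 * ‖l‖ + 2 * |c| * ‖w‖))) := by
      apply Continuous.tendsto
      fun_prop
    rw [sub_self, abs_zero, Real.sqrt_zero, zero_mul] at e1
    filter_upwards [e1.eventually (gt_mem_nhds hε)] with s hs
    rw [dist_eq_norm]
    exact (hH s t).trans_lt hs
  · intro s
    refine le_of_tendsto_of_tendsto (hW s).norm
      (((bd_cont c).tendsto _).comp (h1.norm.prodMk_nhds h2.norm))
      (Eventually.of_forall fun n => point_le c ζ η (φ n) s)

end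

end Pool.Agent.H56.Adiab
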