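import Pool.Agent.H56.Adiab.LeafLim

/-!
# Upper bound for the leafwise trace
-/

open MeasureTheory Filter Topology Set
open scoped ENNReal InnerProductSpace ContDiff

namespace Pool.Agent.H56.Adiab

open AdiabRaw

/-- the functions `g` with `f = g²` -/
structure Adm (g : ℝ → ℝ) : Prop where
  cont : Continuous g
  le : ∀ x, |g x| ≤ 1
  supp : ∀ x, 1 < |x| → g x = 0

section

variable (c ζ η : ℝ) {g : ℝ → ℝ} (hg : Adm g)

/-- square root of the operator -/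
noncomputable def SS (g : ℝ → ℝ) : L2Leaf →L[ℂ] L2Leaf := FC g (RL c ζ η)

/-- auxiliary operator -/
noncomputable def SS1 (g : ℝ → ℝ) : L2Leaf →L[ℂ] L2Leaf :=
  FC (fun x => (1 + x) * g x) (RL c ζ η)

lemma SS_selfAdjoint (g : ℝ → ℝ) : IsSelfAdjoint (SS c ζ η g) := FC_selfAdjoint _ _

lemma functionOf_leaf {g : ℝ → ℝ} (hg : Adm g) (b : ℝ → ℝ) (ν : Conormal) :
    functionOf (fun x => g x ^ 2) (leafGraph b ν) =
      SS (deriv b ν.1.2.1) ν.2.1 ν.2.2 g * SS (deriv b ν.1.2.1) ν.2.1 ν.2.2 g := by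
  rw [SS, ← FC_sq hg.cont hg.supp, functionOf_eq, leafGraph_eq, resolvent_eq (fact _ _ _)]

include hg

lemma SS_fact : SS c ζ η g = RL c ζ η * SS1 c ζ η g :=
  FC_fact hg.cont hg.supp (res_isSelfAdjoint _ _)

lemma SS1_bounds {v : L2Leaf} (hv : ‖v‖ ≤ 1) : ‖RL c ζ η (SS1 c ζ η g v)‖ ≤ 1 ∧
    ‖SS1 c ζ η g v - RL c ζ η (SS1 c ζ η g v)‖ ≤ 1 := by
  have h1 : RL c ζ η (SS1 c ζ η g v) = SS c ζ η g v := by
    rw [SS_fact c ζ η hg]
    rfl
  have h2 : SS1 c ζ η g v - SS c ζ η g v = FC (fun x => x * g x) (RL c ζ η) v := by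
    rw [← FC_sub hg.cont hg.supp]
    rfl
  rw [h1, h2]
  constructor
  · calc ‖SS c ζ η g v‖ ≤ ‖SS c ζ η g‖ * ‖v‖ := (SS c ζ η g).le_opNorm v
      _ ≤ 1 * 1 := by
        gcongr
        exact FC_norm_le hg.le _
      _ = 1 := one_mul 1
  · calc ‖FC (fun x => x * g x) (RL c ζ η) v‖
        ≤ ‖FC (fun x => x * g x) (RL c ζ η)‖ * ‖v‖ := ContinuousLinearMap.le_opNorm _ v
      _ ≤ 1 * 1 := by
        gcongr
        exact FC_norm_le' hg.le hg.supp _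
      _ = 1 := one_mul 1

lemma unit_unif (hc : |c| ≤ 1) :
    unitTrace (SS c ζ η g * SS c ζ η g) ≤ ENNReal.ofReal (8 * 8) := by
  apply unitTrace_le c ζ η (SS_selfAdjoint c ζ η g) (SS_fact c ζ η hg)
  intro v hv
  have h := SS1_bounds c ζ η hg hv
  exact rep_unif c ζ η hc _ h.1 h.2

lemma unit_decay {χ : ℝ → ℝ} {C : ℝ} (hχ : Cut χ C) (hc : |c| ≤ 1) (hη : |η| ≤ 1)
    (hζ : 2 ≤ |ζ|) : unitTrace (SS c ζ η g * SS c ζ η g) ≤
      ENNReal.ofReal (8 * (4 * (√ (1 + 2 * C ^ 2) + 1) * ((2 / |ζ|) * √ (2 / |ζ|)))) := by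
  apply unitTrace_le c ζ η (SS_selfAdjoint c ζ η g) (SS_fact c ζ η hg)
  intro v hv
  have h := SS1_bounds c ζ η hg hv
  exact rep_decay c ζ η hχ hc hη hζ _ h.1 h.2

omit hg in
lemma RL_norm_le (x : L2Leaf) : (1 + η ^ 2) * ‖RL c ζ η x‖ ≤ ‖x‖ := by
  have h3 : (RL1 c ζ η x) 3 = η • RL c ζ η x := by
    obtain ⟨φ, h1, h2⟩ := res_seq iota (LL c ζ η) x
    have e1 : Tendsto (fun n => (LL c ζ η (φ n)) 3) atTop (𝓝 ((RL1 c ζ η x) 3)) :=
      ((PiLp.continuous_apply 2 (fun _ : Fin 4 => L2Leaf) 3).tendsto _).comp h2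
    have e2 : Tendsto (fun n => η • iota (φ n)) atTop (𝓝 (η • RL c ζ η x)) := h1.const_smul η
    refine tendsto_nhds_unique e1 (e2.congr fun n => ?_)
    rfl
  have h4 : ‖(RL1 c ζ η x) 3‖ ≤ ‖RL1 c ζ η x‖ := PiLp.norm_apply_le _ 3
  have h5 := res_norm_sq_add iota (LL c ζ η) x
  rw [h3, norm_smul, Real.norm_eq_abs] at h4
  have h6 := pow_le_pow_left₀ (by positivity) h4 2
  rw [h5, mul_pow, sq_abs, inner_sub_left, Complex.sub_re, inner_self_eq_norm_sq_to_K] at h6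
  have e2 : ((RCLike.ofReal ‖RL c ζ η x‖ : ℂ) ^ 2).re = ‖RL c ζ η x‖ ^ 2 := by
    show ((((‖RL c ζ η x‖ : ℝ) : ℂ)) ^ 2).re = _
    rw [← Complex.ofReal_pow, Complex.ofReal_re]
  rw [e2] at h6
  have h7 : (⟪x, RL c ζ η x⟫_ℂ).re ≤ ‖x‖ * ‖RL c ζ η x‖ :=
    (Complex.re_le_norm _).trans (norm_inner_le_norm _ _)
  have h8 : (1 + η ^ 2) * ‖RL c ζ η x‖ * ‖RL c ζ η x‖ ≤ ‖x‖ * ‖RL c ζ η x‖ := by nlinarith
  rcases eq_or_lt_of_le (norm_nonneg (RL c ζ η x)) with h0 | h0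
  · rw [← h0, mul_zero]; exact norm_nonneg _
  · exact le_of_mul_le_mul_right h8 h0

lemma unit_zero (hη : 1 < |η|) : unitTrace (SS c ζ η g * SS c ζ η g) = 0 := by
  have hη2 : 1 < η ^ 2 := by
    rw [← sq_abs]
    nlinarith
  have hn : ‖RL c ζ η‖ < 1 / 2 := by
    have : ‖RL c ζ η‖ ≤ 1 / (1 + η ^ 2) := by
      apply ContinuousLinearMap.opNorm_le_bound _ (by positivity)
      intro x
      have := RL_norm_le c ζ η x
      rw [one_div, ← div_eq_inv_mul, le_div_iff₀ (by positivity)]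
      linarith
    refine this.trans_lt ?_
    rw [div_lt_div_iff₀ (by positivity) (by norm_num)]
    linarith
  have hS : SS c ζ η g = 0 := FC_eq_zero hg.supp _ _ hn
  have h1 : unitTrace (SS c ζ η g * SS c ζ η g) ≤ ENNReal.ofReal (8 * 0) := by
    apply unitTrace_le c ζ η (SS_selfAdjoint c ζ η g) (SS_fact c ζ η hg)
    intro v _
    have h2 : RL c ζ η (SS1 c ζ η g v) = 0 := by
      have : RL c ζ η (SS1 c ζ η g v) = SS c ζ η g v := by
        rw [SS_fact c ζ η hg]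
        rfl
      rw [this, hS]
      rfl
    have h3 : rep c ζ η (SS1 c ζ η g v) = fun _ => 0 := by
      apply rep_unique c ζ η continuous_const
      rw [h2]
      exact Lp.coeFn_zero _ _ _
    rw [h3]
    simp
  simpa using h1

end

/-- the majorant -/
noncomputable def Psi (ζ : ℝ) : ℝ := (1 + ‖ζ‖ ^ 2) ^ (-(3 / 2 : ℝ) / 2)

lemma Psi_small {ζ : ℝ} (h : |ζ| ≤ 2) : 1 ≤ 5 * Psi ζ := by
  unfold Psi
  have h1 : 1 + ‖ζ‖ ^ 2 ≤ 5 := by
    rw [Real.norm_eq_abs]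
    nlinarith [abs_nonneg ζ]
  have h2 : (5 : ℝ) ^ (-(3 / 2 : ℝ) / 2) ≤ (1 + ‖ζ‖ ^ 2) ^ (-(3 / 2 : ℝ) / 2) :=
    Real.rpow_le_rpow_of_nonpos (by positivity) h1 (by norm_num)
  have h3 : (5 : ℝ) ^ (-1 : ℝ) ≤ 5 ^ (-(3 / 2 : ℝ) / 2) :=
    Real.rpow_le_rpow_of_exponent_le (by norm_num) (by norm_num)
  rw [Real.rpow_neg_one] at h3
  have h4 : (5 : ℝ)⁻¹ ≤ (1 + ‖ζ‖ ^ 2) ^ (-(3 / 2 : ℝ) / 2) := h3.trans h2
  calc (1 : ℝ) = 5 * 5⁻¹ := by norm_num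
    _ ≤ _ := by gcongr

lemma Psi_large {ζ : ℝ} (h : 2 ≤ |ζ|) : (2 / |ζ|) * √ (2 / |ζ|) ≤ 5 * Psi ζ := by
  have hζ : 0 < |ζ| := by linarith
  unfold Psi
  rw [Real.norm_eq_abs]
  set x := 2 / |ζ| with hx
  have hx0 : 0 < x := by positivity
  have hζx : |ζ| = 2 / x := by rw [hx]; field_simp
  have h1 : 1 + |ζ| ^ 2 ≤ 5 * x ^ (-2 : ℝ) := by
    have e : x ^ (-2 : ℝ) = (x ^ 2)⁻¹ := by
      rw [Real.rpow_neg hx0.le]; norm_num
    rw [e, hζx, div_pow]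
    have hx1 : x ≤ 1 := by rw [hx, div_le_one hζ]; exact h
    have hx2 : x ^ 2 ≤ 1 := pow_le_one₀ hx0.le hx1
    have : 1 ≤ (x ^ 2)⁻¹ := (one_le_inv₀ (by positivity)).2 hx2
    rw [div_eq_mul_inv]
    linarith
  have h2 : (5 * x ^ (-2 : ℝ)) ^ (-(3 / 2 : ℝ) / 2) ≤ (1 + |ζ| ^ 2) ^ (-(3 / 2 : ℝ) / 2) :=
    Real.rpow_le_rpow_of_nonpos (by positivity) h1 (by norm_num)
  have h3 : (5 : ℝ) ^ (-1 : ℝ) ≤ 5 ^ (-(3 / 2 : ℝ) / 2) :=
    Real.rpow_le_rpow_of_exponent_le (by norm_num) (by norm_num)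
  rw [Real.rpow_neg_one] at h3
  rw [Real.mul_rpow (by norm_num) (by positivity), ← Real.rpow_mul hx0.le] at h2
  have e1 : (-2 : ℝ) * (-(3 / 2 : ℝ) / 2) = 1 + 1 / 2 := by norm_num
  rw [e1, Real.rpow_add hx0, Real.rpow_one, ← Real.sqrt_eq_rpow] at h2
  calc x * √ x = 5 * (5⁻¹ * (x * √ x)) := by ring
    _ ≤ 5 * (5 ^ (-(3 / 2 : ℝ) / 2) * (x * √ x)) := by gcongr
    _ ≤ _ := by gcongr

/-- pointwise bound -/
lemma unit_bound : ∃ K : ℝ, 0 ≤ K ∧ ∀ {g : ℝ → ℝ}, Adm g → ∀ c ζ η : ℝ, |c| ≤ 1 →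
    unitTrace (SS c ζ η g * SS c ζ η g) ≤
      ENNReal.ofReal (K * Psi ζ) * (Icc (-1 : ℝ) 1).indicator 1 η := by
  obtain ⟨χ, C, hχ⟩ := exists_cut
  refine ⟨320 + 160 * (√ (1 + 2 * C ^ 2) + 1), by positivity, ?_⟩
  intro g hg c ζ η hc
  have hPsi : 0 ≤ Psi ζ := by unfold Psi; positivity
  by_cases hη : |η| ≤ 1
  · have hmem : η ∈ Icc (-1 : ℝ) 1 := abs_le.1 hη
    rw [Set.indicator_of_mem hmem, Pi.one_apply, mul_one]
    have hs : 0 ≤ 160 * (√ (1 + 2 * C ^ 2) + 1) * Psi ζ := by positivity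
    rcases le_total |ζ| 2 with h | h
    · refine (unit_unif c ζ η hg hc).trans (ENNReal.ofReal_le_ofReal ?_)
      have := Psi_small h
      nlinarith
    · refine (unit_decay c ζ η hg hχ hc hη h).trans (ENNReal.ofReal_le_ofReal ?_)
      have h1 := Psi_large h
      calc 8 * (4 * (√ (1 + 2 * C ^ 2) + 1) * ((2 / |ζ|) * √ (2 / |ζ|)))
          ≤ 8 * (4 * (√ (1 + 2 * C ^ 2) + 1) * (5 * Psi ζ)) := by gcongr
        _ = 160 * (√ (1 + 2 * C ^ 2) + 1) * Psi ζ := by ring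
        _ ≤ _ := by nlinarith
  · push Not at hη
    rw [unit_zero c ζ η hg hη]
    exact bot_le

/-- upper bound for the leafwise trace -/
theorem leafwise_upper : ∃ K : ℝ≥0∞, K ≠ ⊤ ∧ ∀ {g : ℝ → ℝ}, Adm g → ∀ b : ℝ → ℝ,
    (∀ y, |deriv b y| ≤ 1) → ∀ l : ℝ, 0 ≤ l →
      leafwiseTrace b (fun x => g x ^ 2) l ≤ ENNReal.ofReal l * K := by
  obtain ⟨K, hK0, hK⟩ := unit_bound
  refine ⟨(∫⁻ ζ : ℝ, ENNReal.ofReal (K * Psi ζ)) *
    (∫⁻ η : ℝ, (Icc (-1 : ℝ) 1).indicator 1 η), ?_, ?_⟩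
  · apply ENNReal.mul_ne_top
    · have hint : Integrable fun ζ : ℝ => K * Psi ζ := by
        apply Integrable.const_mul
        exact integrable_rpow_neg_one_add_norm_sq (by norm_num)
      exact hint.lintegral_lt_top.ne
    · rw [lintegral_indicator_one measurableSet_Icc, Real.volume_Icc]
      exact ENNReal.ofReal_ne_top
  · intro g hg b hb l hl
    unfold leafwiseTrace
    have h1 : ∀ p : Pt, ∫⁻ ξ : ℝ × ℝ, unitTrace (functionOf (fun x => g x ^ 2)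
        (leafGraph b (p, ξ))) ≤ (∫⁻ ζ : ℝ, ENNReal.ofReal (K * Psi ζ)) *
        (∫⁻ η : ℝ, (Icc (-1 : ℝ) 1).indicator 1 η) := by
      intro p
      calc ∫⁻ ξ : ℝ × ℝ, unitTrace (functionOf (fun x => g x ^ 2) (leafGraph b (p, ξ)))
          ≤ ∫⁻ ξ : ℝ × ℝ, ENNReal.ofReal (K * Psi ξ.1) * (Icc (-1 : ℝ) 1).indicator 1 ξ.2 := by
            apply lintegral_mono
            intro ξ
            show unitTrace (functionOf (fun x => g x ^ 2) (leafGraph b (p, ξ))) ≤ _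
            rw [functionOf_leaf hg]
            exact hK hg _ _ _ (hb _)
        _ = _ := by
            rw [Measure.volume_eq_prod]
            have hP : Measurable Psi := by unfold Psi; fun_prop
            exact lintegral_prod_mul (f := fun ζ : ℝ => ENNReal.ofReal (K * Psi ζ))
              (g := fun η : ℝ => (Icc (-1 : ℝ) 1).indicator 1 η)
              (ENNReal.measurable_ofReal.comp (hP.const_mul K)).aemeasurable
              (measurable_one.indicator measurableSet_Icc).aemeasurable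
    have hvol : volume (cell l) = ENNReal.ofReal l := by
      unfold cell
      rw [Measure.volume_eq_prod, Measure.prod_prod, Measure.volume_eq_prod, Measure.prod_prod,
        Real.volume_Ioc, Real.volume_Ioc]
      simp
    calc ∫⁻ p in cell l, ∫⁻ ξ : ℝ × ℝ, unitTrace (functionOf (fun x => g x ^ 2)
          (leafGraph b (p, ξ)))
        ≤ ∫⁻ _p in cell l, (∫⁻ ζ : ℝ, ENNReal.ofReal (K * Psi ζ)) *
          (∫⁻ η : ℝ, (Icc (-1 : ℝ) 1).indicator 1 η) := lintegral_mono h1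
      _ = _ := by rw [setLIntegral_const, hvol, mul_comm]

end Pool.Agent.H56.Adiab
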