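import Pool.Agent.H56.Adiab.Trial
import Pool.Agent.H56.Adiab.LeafTrace

/-!
# Lower bound for the trace on the torus
-/

open MeasureTheory Filter Topology Set
open scoped ENNReal InnerProductSpace ContDiff

namespace Pool.Agent.H56.Adiab

open AdiabRaw

variable {l : ℝ}

lemma contr_smul_e0 (i : Fin 3) (a : ℂ) : contr i (a • e0) = 0 := by
  have : contr i (a • e0) = a • contr i e0 := (contrL i).map_smul a e0
  rw [this, contr_e0, smul_zero]

lemma norm_Ef (hl : 0 < l) (j k : ℤ) (p : Pt) : ‖(Ef l j k : Pt → Fib) p‖ = (√ l)⁻¹ := by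
  rw [Ef_apply, norm_smul, norm_mul, ex_norm, norm_e0, Complex.norm_real, mul_one, mul_one,
    Real.norm_of_nonneg (by positivity)]

section

variable {b χ : ℝ → ℝ} (hb : Per b) (hχ : Per χ) (hl : 0 < l) (j k : ℤ)

lemma trial_X (p : Pt) : dX b (mulP χ hχ (Ef l j k) : Pt → Fib) p =
    (χ p.2.1 * (2 * Real.pi * Complex.I * (k * b p.2.1)) : ℂ) • (Ef l j k : Pt → Fib) p := by
  unfold dX
  rw [trial_deriv]
  congr 1
  simp

lemma trial_Y (p : Pt) : dY (mulP χ hχ (Ef l j k) : Pt → Fib) p =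
    ((deriv χ p.2.1 : ℝ) + χ p.2.1 * (2 * Real.pi * Complex.I * j) : ℂ) •
      (Ef l j k : Pt → Fib) p := by
  unfold dY
  rw [trial_deriv]
  congr 1
  simp

lemma trial_Z (p : Pt) : dZ (mulP χ hχ (Ef l j k) : Pt → Fib) p =
    (χ p.2.1 * (2 * Real.pi * Complex.I * k) : ℂ) • (Ef l j k : Pt → Fib) p := by
  unfold dZ
  rw [trial_deriv]
  congr 1
  simp

lemma contr_scal (i : Fin 3) (a : ℂ) (p : Pt) : contr i (a • (Ef l j k : Pt → Fib) p) = 0 := by
  rw [Ef_apply, smul_smul]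
  exact contr_smul_e0 i _

lemma contr_trial (i : Fin 3) (p : Pt) : contr i ((mulP χ hχ (Ef l j k) : Pt → Fib) p) = 0 := by
  rw [mulP_apply, ← Complex.coe_smul]
  exact contr_scal j k i _ p

lemma wedge_zero' (i : Fin 3) : wedge i 0 = 0 := (wedgeL i).map_zero

lemma contr_zero' (i : Fin 3) : contr i 0 = 0 := (contrL i).map_zero

lemma trial_dF (p : Pt) : (dFo hb (mulP χ hχ (Ef l j k)) : Pt → Fib) p =
    wedge 0 (dX b (mulP χ hχ (Ef l j k) : Pt → Fib) p) := by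
  rw [dFo_coe]
  unfold dF
  rw [contr_trial, wedge_zero', wedge_zero', smul_zero, add_zero]

lemma trial_dFs : dFs hb (mulP χ hχ (Ef l j k)) = 0 := by
  ext1
  funext p
  rw [dFs_coe]
  unfold dFadj
  rw [contr_trial, contr_zero', wedge_zero', smul_zero, add_zero, trial_X, contr_scal, neg_zero]
  rfl

lemma trial_dHs : dHs (mulP χ hχ (Ef l j k)) = 0 := by
  ext1
  funext p
  rw [dHs_coe]
  unfold dHadj
  rw [trial_Y, trial_Z, contr_scal, contr_scal, neg_zero, sub_zero]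
  rfl

include hl

lemma norm_sq_le_of {u : TP l} {F : ℝ → ℝ} (hF : Continuous F)
    (h : ∀ p, ‖(u : Pt → Fib) p‖ ^ 2 ≤ F p.2.1 * l⁻¹) :
    ‖iotaP u‖ ^ 2 ≤ ∫ y in Ioc 0 1, F y := by
  rw [norm_sq_iotaP]
  calc ∫ p, ‖(u : Pt → Fib) p‖ ^ 2 ∂(muT l) ≤ ∫ p, F p.2.1 * l⁻¹ ∂(muT l) := by
        apply integral_mono
        · exact integrable_of_cont ((pcont u).norm.pow 2)
        · exact integrable_of_cont (by fun_prop)
        · exact h
    _ = l * ∫ y in Ioc 0 1, F y * l⁻¹ := int_cell_y hl.le (fun y => F y * l⁻¹)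
    _ = ∫ y in Ioc 0 1, F y := by
        rw [integral_mul_const]
        field_simp

lemma norm_sq_trial : ‖iotaP (mulP χ hχ (Ef l j k))‖ ^ 2 = ∫ y in Ioc 0 1, χ y ^ 2 := by
  rw [norm_sq_iotaP]
  have h1 : ∀ p : Pt, ‖(mulP χ hχ (Ef l j k) : Pt → Fib) p‖ ^ 2 = χ p.2.1 ^ 2 * l⁻¹ := by
    intro p
    rw [mulP_apply, norm_smul, norm_Ef hl, mul_pow, Real.norm_eq_abs, sq_abs, inv_pow,
      Real.sq_sqrt hl.le]
  simp only [h1]
  rw [int_cell_y hl.le (fun y => χ y ^ 2 * l⁻¹), integral_mul_const]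
  field_simp

lemma norm_dF_trial : ‖iotaP (dFo hb (mulP χ hχ (Ef l j k)))‖ ^ 2 ≤
    ∫ y in Ioc 0 1, (2 * Real.pi * |(k : ℝ)| * b y * χ y) ^ 2 := by
  have hbc := hb.smooth.continuous
  have hχc := hχ.smooth.continuous
  apply norm_sq_le_of hl (by fun_prop)
  intro p
  rw [trial_dF]
  have h1 := norm_wedge_le 0 (dX b (mulP χ hχ (Ef l j k) : Pt → Fib) p)
  have h2 := pow_le_pow_left₀ (norm_nonneg _) h1 2
  refine h2.trans (le_of_eq ?_)
  rw [trial_X, norm_smul, norm_Ef hl, mul_pow, inv_pow, Real.sq_sqrt hl.le]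
  congr 1
  simp only [norm_mul, Complex.norm_real, Complex.norm_I, Complex.norm_ofNat, Complex.norm_intCast,
    Real.norm_eq_abs]
  rw [abs_of_pos Real.pi_pos]
  simp only [mul_pow, sq_abs]
  ring

lemma norm_dH_trial (h : ℝ) :
    ‖iotaP (mulP (fun _ => h) (per_const h) (dHo (mulP χ hχ (Ef l j k))))‖ ^ 2 ≤
    ∫ y in Ioc 0 1, (2 * (h * deriv χ y) ^ 2 +
      2 * (h * (2 * Real.pi * (|(j : ℝ)| + |(k : ℝ)|)) * χ y) ^ 2) := by
  have hχc := hχ.smooth.continuous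
  have hχd := hχ.deriv.smooth.continuous
  apply norm_sq_le_of hl (by fun_prop)
  intro p
  rw [mulP_apply, dHo_coe]
  unfold dH
  have h1 := norm_wedge_le 1 (dY (mulP χ hχ (Ef l j k) : Pt → Fib) p)
  have h2 := norm_wedge_le 2 (dZ (mulP χ hχ (Ef l j k) : Pt → Fib) p)
  have h3 := norm_add_le (wedge 1 (dY (mulP χ hχ (Ef l j k) : Pt → Fib) p))
    (wedge 2 (dZ (mulP χ hχ (Ef l j k) : Pt → Fib) p))
  have h4 : ‖dY (mulP χ hχ (Ef l j k) : Pt → Fib) p‖ ≤
      (|deriv χ p.2.1| + 2 * Real.pi * |(j : ℝ)| * |χ p.2.1|) * (√ l)⁻¹ := by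
    rw [trial_Y, norm_smul, norm_Ef hl]
    gcongr
    refine (norm_add_le _ _).trans (le_of_eq ?_)
    simp only [norm_mul, Complex.norm_real, Complex.norm_I, Complex.norm_ofNat,
      Complex.norm_intCast, Real.norm_eq_abs]
    rw [abs_of_pos Real.pi_pos]
    ring
  have h5 : ‖dZ (mulP χ hχ (Ef l j k) : Pt → Fib) p‖ ≤
      (2 * Real.pi * |(k : ℝ)| * |χ p.2.1|) * (√ l)⁻¹ := by
    rw [trial_Z, norm_smul, norm_Ef hl]
    gcongr
    refine (le_of_eq ?_)
    simp only [norm_mul, Complex.norm_real, Complex.norm_I, Complex.norm_ofNat,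
      Complex.norm_intCast, Real.norm_eq_abs]
    rw [abs_of_pos Real.pi_pos]
    ring
  have h6 : ‖wedge 1 (dY (mulP χ hχ (Ef l j k) : Pt → Fib) p) +
      wedge 2 (dZ (mulP χ hχ (Ef l j k) : Pt → Fib) p)‖ ≤
      (|deriv χ p.2.1| + 2 * Real.pi * (|(j : ℝ)| + |(k : ℝ)|) * |χ p.2.1|) * (√ l)⁻¹ := by
    calc _ ≤ (|deriv χ p.2.1| + 2 * Real.pi * |(j : ℝ)| * |χ p.2.1|) * (√ l)⁻¹ +
          (2 * Real.pi * |(k : ℝ)| * |χ p.2.1|) * (√ l)⁻¹ := by linarith
      _ = _ := by ring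
  rw [norm_smul, mul_pow]
  calc ‖h‖ ^ 2 * ‖wedge 1 (dY (mulP χ hχ (Ef l j k) : Pt → Fib) p) +
      wedge 2 (dZ (mulP χ hχ (Ef l j k) : Pt → Fib) p)‖ ^ 2
      ≤ ‖h‖ ^ 2 * ((|deriv χ p.2.1| + 2 * Real.pi * (|(j : ℝ)| + |(k : ℝ)|) * |χ p.2.1|) *
        (√ l)⁻¹) ^ 2 := by gcongr
    _ = (h * (|deriv χ p.2.1| + 2 * Real.pi * (|(j : ℝ)| + |(k : ℝ)|) * |χ p.2.1|)) ^ 2 * l⁻¹ := by
        rw [Real.norm_eq_abs, sq_abs, mul_pow _ ((√ l)⁻¹), inv_pow, Real.sq_sqrt hl.le]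
        ring
    _ ≤ _ := by
        gcongr
        have e1 : |deriv χ p.2.1| ^ 2 = (deriv χ p.2.1) ^ 2 := sq_abs _
        have e2 : |χ p.2.1| ^ 2 = (χ p.2.1) ^ 2 := sq_abs _
        have e3 : 2 * (h * deriv χ p.2.1) ^ 2 = 2 * (h * |deriv χ p.2.1|) ^ 2 := by
          rw [mul_pow, mul_pow, e1]
        have e4 : 2 * (h * (2 * Real.pi * (|(j : ℝ)| + |(k : ℝ)|)) * χ p.2.1) ^ 2 =
            2 * (h * (2 * Real.pi * (|(j : ℝ)| + |(k : ℝ)|)) * |χ p.2.1|) ^ 2 := by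
          rw [mul_pow, mul_pow _ (|χ p.2.1|), e2]
        rw [e3, e4]
        nlinarith [sq_nonneg (h * |deriv χ p.2.1| -
          h * (2 * Real.pi * (|(j : ℝ)| + |(k : ℝ)|)) * |χ p.2.1|)]

end

/-- the properties of the function `b` that are used -/
structure BB (b : ℝ → ℝ) (D : ℝ) : Prop where
  per : Per b
  nonneg : ∀ y, 0 ≤ b y
  der : ∀ y, (deriv b y) ^ 2 ≤ D * b y
  zero : ENNReal.ofReal (1 / 2) ≤ volume ({y | b y = 0} ∩ Ioc 0 1)

/-- the admissible functions for the lower bound -/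
structure AdmL (g : ℝ → ℝ) : Prop extends Adm g where
  one : ∀ x, |x| ≤ 1 / 2 → g x = 1

lemma AdmL.lower {g : ℝ → ℝ} (hg : AdmL g) (x : ℝ) (hx : 0 ≤ x) : 1 - 2 * x ≤ g x ^ 2 := by
  rcases le_total x (1 / 2) with h | h
  · rw [hg.one x (by rw [abs_of_nonneg hx]; exact h)]
    linarith
  · nlinarith [sq_nonneg (g x)]

section

variable {b ψ : ℝ → ℝ} {D C : ℝ} (hb : BB b D) (hψ : Cut ψ C) {h : ℝ} (hh : 0 < h)

/-- the cutoff in `y` -/
noncomputable def chi (b ψ : ℝ → ℝ) (h : ℝ) (y : ℝ) : ℝ := ψ (b y / h)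

include hb hψ

lemma chi_per (h : ℝ) : Per (chi b ψ h) where
  smooth := hψ.smooth.comp (hb.per.smooth.div_const h)
  per := fun y => by
    unfold chi
    rw [hb.per.per y]

lemma chi_le (h y : ℝ) : |chi b ψ h y| ≤ 1 := hψ.le _

include hh in
lemma b_chi (y : ℝ) : b y * |chi b ψ h y| ≤ h * |chi b ψ h y| := by
  by_cases hy : b y ≤ h
  · gcongr
  · push Not at hy
    have : chi b ψ h y = 0 := by
      apply hψ.supp
      rw [abs_of_nonneg (div_nonneg (hb.nonneg y) hh.le)]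
      exact (one_lt_div hh).2 hy
    rw [this]
    simp

lemma deriv_chi (y : ℝ) : deriv (chi b ψ h) y = deriv ψ (b y / h) * (deriv b y / h) := by
  have h1 := (hψ.smooth.differentiable (by simp) (b y / h)).hasDerivAt
  have h2 := (hb.per.smooth.differentiable (by simp) y).hasDerivAt.div_const h
  exact (h1.comp y h2).deriv

include hh in
lemma deriv_chi_sq (y : ℝ) : (h * deriv (chi b ψ h) y) ^ 2 ≤ C ^ 2 * |D| * h := by
  rw [deriv_chi hb hψ]
  by_cases hy : b y ≤ h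
  · have h1 := hψ.der (b y / h)
    have h2 := hb.der y
    have h3 : (h * (deriv ψ (b y / h) * (deriv b y / h))) ^ 2 =
        |deriv ψ (b y / h)| ^ 2 * (deriv b y) ^ 2 := by
      rw [sq_abs]
      field_simp
    rw [h3]
    calc |deriv ψ (b y / h)| ^ 2 * (deriv b y) ^ 2 ≤ C ^ 2 * (D * b y) := by gcongr
      _ ≤ C ^ 2 * (|D| * h) := by
        have := hb.nonneg y
        gcongr
        exact le_abs_self D
      _ = C ^ 2 * |D| * h := by ring
  · push Not at hy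
    have : deriv ψ (b y / h) = 0 := by
      apply hψ.der_supp
      rw [abs_of_nonneg (div_nonneg (hb.nonneg y) hh.le)]
      exact (one_lt_div hh).2 hy
    rw [this]
    have : 0 ≤ C ^ 2 * |D| * h := by positivity
    simpa using this

lemma int_chi : 1 / 2 ≤ ∫ y in Ioc 0 1, chi b ψ h y ^ 2 := by
  have hc : Continuous (chi b ψ h) := (chi_per hb hψ h).smooth.continuous
  have hbm : MeasurableSet {y | b y = 0} :=
    (isClosed_eq hb.per.smooth.continuous continuous_const).measurableSet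
  have h1 : ∫ y in Ioc (0 : ℝ) 1, ({y | b y = 0}).indicator (fun _ => (1 : ℝ)) y ≤
      ∫ y in Ioc 0 1, chi b ψ h y ^ 2 := by
    apply integral_mono_of_nonneg
    · exact Eventually.of_forall fun y => Set.indicator_nonneg (fun _ _ => zero_le_one) y
    · exact ((hc.pow 2).integrableOn_Icc (a := 0) (b := 1)).mono_set Ioc_subset_Icc_self
    · refine Eventually.of_forall fun y => ?_
      by_cases hy : b y = 0
      · have : chi b ψ h y = 1 := by
          unfold chi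
          rw [hy, zero_div, hψ.one]
        rw [Set.indicator_of_mem (by exact hy)]
        simp [this]
      · rw [Set.indicator_of_notMem (by exact hy)]
        positivity
  refine le_trans ?_ h1
  rw [integral_indicator hbm, Measure.restrict_restrict hbm, integral_const, smul_eq_mul, mul_one]
  show 1 / 2 ≤ ((volume.restrict ({y | b y = 0} ∩ Ioc 0 1)) Set.univ).toReal
  rw [Measure.restrict_apply_univ]
  have h2 : volume ({y | b y = 0} ∩ Ioc 0 1) ≠ ⊤ :=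
    ((measure_mono Set.inter_subset_right).trans_lt (by simp)).ne
  rw [← ENNReal.ofReal_le_iff_le_toReal h2]
  exact hb.zero

include hh in
/-- the quadratic form on a trial function -/
lemma trial_form (hl : 0 < l) (j k : ℤ) (hj : 2 * Real.pi * |(j : ℝ)| * h ≤ 1 / 8)
    (hk : 2 * Real.pi * |(k : ℝ)| * h ≤ 1 / 8) (hsmall : C ^ 2 * |D| * h ≤ 1 / 40) :
    1 / 4 ≤ ‖iotaP (mulP _ (chi_per hb hψ h) (Ef l j k))‖ ^ 2 -
      2 * ‖LP hb.per h (mulP _ (chi_per hb hψ h) (Ef l j k))‖ ^ 2 := by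
  set u : TP l := mulP _ (chi_per hb hψ h) (Ef l j k) with hu
  set I := ∫ y in Ioc 0 1, chi b ψ h y ^ 2 with hI
  have hcc : Continuous (chi b ψ h) := (chi_per hb hψ h).smooth.continuous
  have hcd : Continuous (deriv (chi b ψ h)) := (chi_per hb hψ h).deriv.smooth.continuous
  have hbc : Continuous b := hb.per.smooth.continuous
  have h0 : ‖iotaP u‖ ^ 2 = I := norm_sq_trial (chi_per hb hψ h) hl j k
  have hI1 : 1 / 2 ≤ I := int_chi hb hψ
  have hmono : ∀ {F G : ℝ → ℝ}, Continuous F → Continuous G → (∀ y, F y ≤ G y) →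
      ∫ y in Ioc (0 : ℝ) 1, F y ≤ ∫ y in Ioc (0 : ℝ) 1, G y := by
    intro F G hF hG hFG
    apply integral_mono
    · exact (hF.integrableOn_Icc (a := 0) (b := 1)).mono_set Ioc_subset_Icc_self
    · exact (hG.integrableOn_Icc (a := 0) (b := 1)).mono_set Ioc_subset_Icc_self
    · exact hFG
  have h1 : ‖iotaP (dFo hb.per u)‖ ^ 2 ≤ 1 / 64 * I := by
    refine (norm_dF_trial hb.per (chi_per hb hψ h) hl j k).trans ?_
    rw [hI, ← integral_const_mul]
    apply hmono (by fun_prop) (by fun_prop)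
    intro y
    have e1 := b_chi hb hψ hh y
    have e2 : 0 ≤ b y * |chi b ψ h y| := mul_nonneg (hb.nonneg y) (abs_nonneg _)
    have e3 : (2 * Real.pi * |(k : ℝ)| * b y * chi b ψ h y) ^ 2 =
        (2 * Real.pi * |(k : ℝ)| * (b y * |chi b ψ h y|)) ^ 2 := by
      rw [mul_assoc _ (b y), mul_pow, mul_pow _ (b y * |chi b ψ h y|), mul_pow (b y),
        mul_pow (b y), sq_abs]
    rw [e3]
    have e4 : 2 * Real.pi * |(k : ℝ)| * (b y * |chi b ψ h y|) ≤ 1 / 8 * |chi b ψ h y| := by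
      calc 2 * Real.pi * |(k : ℝ)| * (b y * |chi b ψ h y|)
          ≤ 2 * Real.pi * |(k : ℝ)| * (h * |chi b ψ h y|) := by gcongr
        _ = (2 * Real.pi * |(k : ℝ)| * h) * |chi b ψ h y| := by ring
        _ ≤ 1 / 8 * |chi b ψ h y| := by gcongr
    calc (2 * Real.pi * |(k : ℝ)| * (b y * |chi b ψ h y|)) ^ 2
        ≤ (1 / 8 * |chi b ψ h y|) ^ 2 := by
          apply pow_le_pow_left₀ _ e4
          positivity
      _ = 1 / 64 * chi b ψ h y ^ 2 := by rw [mul_pow, sq_abs]; norm_num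
  have h2 : iotaP (dFs hb.per u) = 0 := by rw [hu, trial_dFs, map_zero]
  have h3 : ‖iotaP (mulP (fun _ => h) (per_const h) (dHo u))‖ ^ 2 ≤ 1 / 8 * I + 1 / 20 := by
    refine (norm_dH_trial (chi_per hb hψ h) hl j k h).trans ?_
    have e0 : 1 / 8 * I + 1 / 20 = ∫ y in Ioc (0 : ℝ) 1, (1 / 8 * chi b ψ h y ^ 2 + 1 / 20) := by
      rw [integral_add]
      · rw [integral_const_mul, integral_const]
        simp [Measure.real, hI]
      · exact ((hcc.pow 2).const_smul (1 / 8 : ℝ) |>.integrableOn_Icc (a := 0) (b := 1)).mono_set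
          Ioc_subset_Icc_self
      · exact integrable_const _
    rw [e0]
    apply hmono (by fun_prop) (by fun_prop)
    intro y
    have e1 := deriv_chi_sq hb hψ hh y
    have e2 : (h * (2 * Real.pi * (|(j : ℝ)| + |(k : ℝ)|)) * chi b ψ h y) ^ 2 ≤
        (1 / 4 * |chi b ψ h y|) ^ 2 := by
      have e3 : (h * (2 * Real.pi * (|(j : ℝ)| + |(k : ℝ)|)) * chi b ψ h y) ^ 2 =
          (h * (2 * Real.pi * (|(j : ℝ)| + |(k : ℝ)|)) * |chi b ψ h y|) ^ 2 := by
        rw [mul_pow, mul_pow _ (|chi b ψ h y|), sq_abs]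
      rw [e3]
      apply pow_le_pow_left₀ (by positivity)
      gcongr
      linarith
    rw [mul_pow (1 / 4), sq_abs] at e2
    nlinarith
  have h4 : iotaP (mulP (fun _ => h) (per_const h) (dHs u)) = 0 := by
    rw [hu, trial_dHs, map_zero, map_zero]
  have h5 : ‖LP hb.per h u‖ ^ 2 = ‖iotaP (dFo hb.per u)‖ ^ 2 + ‖iotaP (dFs hb.per u)‖ ^ 2 +
      ‖iotaP (mulP (fun _ => h) (per_const h) (dHo u))‖ ^ 2 +
      ‖iotaP (mulP (fun _ => h) (per_const h) (dHs u))‖ ^ 2 := by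
    rw [PiLp.norm_sq_eq_of_L2, Fin.sum_univ_four]
    rfl
  rw [h5, h0, h2, h4, norm_zero]
  nlinarith

include hh in
/-- lower bound for the trace -/
lemma torus_lower {g : ℝ → ℝ} (hg : AdmL g) (hl : 0 < l) (hsmall : C ^ 2 * |D| * h ≤ 1 / 40)
    (hsmall2 : h ≤ 1 / (16 * Real.pi)) :
    ENNReal.ofReal (1 / (1024 * Real.pi ^ 2 * h ^ 2)) ≤ torusTrace b (fun x => g x ^ 2) l h := by
  have hpi := Real.pi_pos
  set N : ℕ := ⌊1 / (16 * Real.pi * h)⌋₊ with hN
  set s : Finset (ℤ × ℤ) := Finset.Icc (-(N : ℤ)) N ×ˢ Finset.Icc (-(N : ℤ)) N with hs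
  have hNh : 2 * Real.pi * (N : ℝ) * h ≤ 1 / 8 := by
    have h1 : (N : ℝ) ≤ 1 / (16 * Real.pi * h) := Nat.floor_le (by positivity)
    calc 2 * Real.pi * (N : ℝ) * h ≤ 2 * Real.pi * (1 / (16 * Real.pi * h)) * h := by gcongr
      _ = 1 / 8 := by field_simp; norm_num
  have hmem : ∀ i ∈ s, 2 * Real.pi * |(i.1 : ℝ)| * h ≤ 1 / 8 ∧
      2 * Real.pi * |(i.2 : ℝ)| * h ≤ 1 / 8 := by
    intro i hi
    rw [hs, Finset.mem_product, Finset.mem_Icc, Finset.mem_Icc] at hi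
    have h1 : |(i.1 : ℝ)| ≤ N := by
      rw [abs_le]; exact ⟨by exact_mod_cast hi.1.1, by exact_mod_cast hi.1.2⟩
    have h2 : |(i.2 : ℝ)| ≤ N := by
      rw [abs_le]; exact ⟨by exact_mod_cast hi.2.1, by exact_mod_cast hi.2.2⟩
    exact ⟨le_trans (by gcongr) hNh, le_trans (by gcongr) hNh⟩
  -- the operator
  set R := res0 (iotaP (l := l)) (LP hb.per h) with hR
  have hfun : functionOf (fun x => g x ^ 2) (torusGraph b l h) = FC g R * FC g R := by
    rw [functionOf_eq, torusGraph_eq hb.per, resolvent_eq (factP hb.per hl.le h),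
      FC_sq hg.cont hg.supp]
  set u : s → L2Torus l := fun i => iotaP (mulP _ (chi_per hb hψ h) (Ef l i.1.1 i.1.2)) with hu
  have hbes : ∀ v, ∑ i, ‖⟪u i, v⟫_ℂ‖ ^ 2 ≤ ‖v‖ ^ 2 := fun v =>
    trial_bessel hl (chi_per hb hψ h) (chi_le hb hψ h) s v
  have htr := le_trace u hbes (FC_selfAdjoint g R)
  unfold torusTrace
  rw [hfun]
  refine le_trans (ENNReal.ofReal_le_ofReal ?_) htr
  have hq : ∀ i : s, 1 / 4 ≤ (⟪u i, (FC g R * FC g R) (u i)⟫_ℂ).re := by
    intro i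
    set w : TP l := mulP _ (chi_per hb hψ h) (Ef l i.1.1 i.1.2) with hw
    have e1 := trial_form hb hψ hh hl i.1.1 i.1.2 (hmem i.1 i.2).1 (hmem i.1 i.2).2 hsmall
    rw [← hw] at e1
    have e2 := FC_lower (f := fun x => g x ^ 2) (hg.cont.pow 2)
      (fun x hx => by rw [hg.supp x hx]; norm_num) hg.lower (iotaP (l := l)) (LP hb.per h)
      (iotaP w + Ap hb.per h w)
    rw [res0_apply (factP hb.per hl.le h), FC_sq hg.cont hg.supp] at e2
    have e3 : (⟪iotaP w + Ap hb.per h w, iotaP w⟫_ℂ).re = ‖iotaP w‖ ^ 2 + ‖LP hb.per h w‖ ^ 2 := by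
      rw [← inner_conj_symm, Complex.conj_re, inner_add_right, factP hb.per hl.le h,
        inner_self_eq_norm_sq_to_K, inner_self_eq_norm_sq_to_K, Complex.add_re]
      have f1 : ∀ x : ℝ, ((RCLike.ofReal x : ℂ) ^ 2).re = x ^ 2 := by
        intro x
        show (((x : ℂ)) ^ 2).re = _
        rw [← Complex.ofReal_pow, Complex.ofReal_re]
      rw [f1, f1]
    rw [e3] at e2
    have e4 : (⟪u i, (FC g R * FC g R) (u i)⟫_ℂ).re =
        (⟪iotaP w, (FC g R * FC g R) (iotaP w)⟫_ℂ).re := rfl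
    rw [e4]
    linarith
  have hcard : (1 / (16 * Real.pi * h)) ^ 2 ≤ (Fintype.card s : ℝ) := by
    rw [Fintype.card_coe, hs, Finset.card_product, Int.card_Icc]
    have h1 : ((N : ℤ) + 1 - -(N : ℤ)).toNat = 2 * N + 1 := by omega
    rw [h1]
    have h2 : 1 / (16 * Real.pi * h) < N + 1 := Nat.lt_floor_add_one _
    have h3 : 1 ≤ 1 / (16 * Real.pi * h) := by
      rw [le_div_iff₀ (by positivity), one_mul]
      rw [le_div_iff₀ (by positivity)] at hsmall2
      linarith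
    have h4 : 1 / (16 * Real.pi * h) ≤ 2 * N + 1 := by linarith
    push_cast
    rw [sq]
    gcongr
  calc 1 / (1024 * Real.pi ^ 2 * h ^ 2) = (1 / (16 * Real.pi * h)) ^ 2 * (1 / 4) := by
        field_simp; norm_num
    _ ≤ (Fintype.card s : ℝ) * (1 / 4) := by gcongr
    _ = ∑ _i : s, (1 / 4 : ℝ) := by rw [Finset.sum_const, nsmul_eq_mul]; rfl
    _ ≤ ∑ i, (⟪u i, (FC g R * FC g R) (u i)⟫_ℂ).re := Finset.sum_le_sum fun i _ => hq i

end

end Pool.Agent.H56.Adiab
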