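import Pool.Agent.H56.Adiab.Defs

/-!
# The adiabatic limit of a shear foliation on the three-torus: definitions
-/

open MeasureTheory Filter Topology Set
open scoped ENNReal InnerProductSpace ContDiff

namespace Pool.Agent.H56.AdiabRaw

export AdiabaticDefs (IsFriedrichsResolvent friedrichsResolvent functionOf trace)

/-! ### Differential forms -/

/-- The fibre of `Λ T^*M ⊗ ℂ`: the coefficients of a form in the basis `e_S`, `S ⊆ {0, 1, 2}`, of
exterior products of the orthonormal coframe `e_0 = α`, `e_1 = β`, `e_2 = γ`. -/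
abbrev Fib : Type := EuclideanSpace ℂ (Finset (Fin 3))

/-- Exterior multiplication by `e_i`. -/
noncomputable def wedge (i : Fin 3) (v : Fib) : Fib :=
  WithLp.toLp 2 fun S => if i ∈ S then (-1) ^ (S.filter (· < i)).card * v (S.erase i) else 0

/-- The adjoint of `wedge i`: the contraction with the `i`-th vector of the orthonormal frame. -/
noncomputable def contr (i : Fin 3) (v : Fib) : Fib :=
  WithLp.toLp 2 fun S => if i ∈ S then 0 else (-1) ^ (S.filter (· < i)).card * v (insert i S)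

/-! ### The foliation -/

/-- A point `(x, y, z)` of the universal cover `ℝ³` of `M`. -/
abbrev Pt : Type := ℝ × ℝ × ℝ

/-- The flow of `X = ∂_x + b(y) ∂_z`. -/
def flow (b : ℝ → ℝ) (s : ℝ) (p : Pt) : Pt := (p.1 + s, p.2.1, p.2.2 + s * b p.2.1)

/-- The lattice `l ℤ × ℤ × ℤ`. -/
def lattice (l : ℝ) : Set Pt := {p | ∃ i j k : ℤ, p = (i * l, (j : ℝ), (k : ℝ))}

/-- A fundamental domain for the action of the lattice. -/
def cell (l : ℝ) : Set Pt := Ioc 0 l ×ˢ Ioc 0 1 ×ˢ Ioc 0 1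

/-- The smooth differential forms on `M = ℝ³ / (l ℤ × ℤ × ℤ)`, as functions on `ℝ³`. -/
def IsForm (l : ℝ) (u : Pt → Fib) : Prop :=
  ContDiff ℝ ∞ u ∧ ∀ p, ∀ q ∈ lattice l, u (p + q) = u p

/-- The data `(l, b)` define a smooth foliation of the torus `M = ℝ³ / (l ℤ × ℤ × ℤ)` by the flow
lines of `X = ∂_x + b(y) ∂_z`. No flow map of time `s ≠ 0` is the identity of a nonempty open set:
the holonomy group of every leaf is its fundamental group, every holonomy cover is a line. -/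
structure IsShear (l : ℝ) (b : ℝ → ℝ) : Prop where
  pos : 0 < l
  smooth : ContDiff ℝ ∞ b
  periodic : Function.Periodic b 1
  holonomy : ∀ s : ℝ, s ≠ 0 → Dense {p : Pt | flow b s p - p ∉ lattice l}

/-- `T` is the formal adjoint of `S`, on smooth forms, in `L²(M, Λ T^*M)`. -/
def IsAdjoint (l : ℝ) (S T : (Pt → Fib) → Pt → Fib) : Prop :=
  ∀ u w : Pt → Fib, IsForm l u → IsForm l w →
    ∫ p in cell l, ⟪S u p, w p⟫_ℂ = ∫ p in cell l, ⟪u p, T w p⟫_ℂ

/-- `X = ∂_x + b(y) ∂_z` -/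
noncomputable def dX (b : ℝ → ℝ) (u : Pt → Fib) (p : Pt) : Fib := fderiv ℝ u p (1, 0, b p.2.1)

/-- `∂_y` -/
noncomputable def dY (u : Pt → Fib) (p : Pt) : Fib := fderiv ℝ u p (0, 1, 0)

/-- `∂_z` -/
noncomputable def dZ (u : Pt → Fib) (p : Pt) : Fib := fderiv ℝ u p (0, 0, 1)

/-- The tangential differential. -/
noncomputable def dF (b : ℝ → ℝ) (u : Pt → Fib) (p : Pt) : Fib :=
  wedge 0 (dX b u p) + deriv b p.2.1 • wedge 0 (wedge 1 (contr 2 (u p)))

/-- The adjoint of the tangential differential. -/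
noncomputable def dFadj (b : ℝ → ℝ) (u : Pt → Fib) (p : Pt) : Fib :=
  -contr 0 (dX b u p) + deriv b p.2.1 • wedge 2 (contr 1 (contr 0 (u p)))

/-- The transverse differential. -/
noncomputable def dH (u : Pt → Fib) (p : Pt) : Fib := wedge 1 (dY u p) + wedge 2 (dZ u p)

/-- The adjoint of the transverse differential. -/
noncomputable def dHadj (u : Pt → Fib) (p : Pt) : Fib := -contr 1 (dY u p) - contr 2 (dZ u p)

/-- `Δ_F + h² Δ_H` -/
noncomputable def laplacian (b : ℝ → ℝ) (h : ℝ) (u : Pt → Fib) (p : Pt) : Fib :=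
  (dF b (dFadj b u) p + dFadj b (dF b u) p) + h ^ 2 • (dH (dHadj u) p + dHadj (dH u) p)

/-- `L²(M, Λ T^*M)` -/
abbrev L2Torus (l : ℝ) : Type := Lp Fib 2 ((volume : Measure Pt).restrict (cell l))

/-- The graph of `Δ_F + h² Δ_H` on smooth forms. -/
def torusGraph (b : ℝ → ℝ) (l h : ℝ) : Set (L2Torus l × L2Torus l) :=
  {p | ∃ u : Pt → Fib, IsForm l u ∧ p.1 =ᵐ[volume.restrict (cell l)] u ∧
    p.2 =ᵐ[volume.restrict (cell l)] laplacian b h u}

/-- `tr f(Δ_F + h² Δ_H)` -/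
noncomputable def torusTrace (b f : ℝ → ℝ) (l h : ℝ) : ℝ≥0∞ :=
  trace (functionOf f (torusGraph b l h))

/-! ### The leafwise operators on the conormal bundle -/

/-- A point of the conormal bundle: the covector `ξ.1 β + ξ.2 γ` at the point `p`. -/
abbrev Conormal : Type := Pt × (ℝ × ℝ)

/-- The leaf of the linearized foliation through `ν`, parametrized by arc length. -/
noncomputable def leaf (b : ℝ → ℝ) (ν : Conormal) (s : ℝ) : Conormal :=
  (flow b s ν.1, (ν.2.1 - s * deriv b ν.1.2.1 * ν.2.2, ν.2.2))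

/-- `g_N(ν) = |ν|²` -/
def gN (ν : Conormal) : ℝ := ν.2.1 ^ 2 + ν.2.2 ^ 2

/-- The lift of the tangential differential to the leaf through `ν`. -/
noncomputable def leafD (b : ℝ → ℝ) (ν : Conormal) (u : ℝ → Fib) (s : ℝ) : Fib :=
  wedge 0 (deriv u s) + deriv b (leaf b ν s).1.2.1 • wedge 0 (wedge 1 (contr 2 (u s)))

/-- The lift of the adjoint of the tangential differential to the leaf through `ν`. -/
noncomputable def leafDadj (b : ℝ → ℝ) (ν : Conormal) (u : ℝ → Fib) (s : ℝ) : Fib :=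
  -contr 0 (deriv u s) + deriv b (leaf b ν s).1.2.1 • wedge 2 (contr 1 (contr 0 (u s)))

/-- `Δ_{F_N} + g_N` on the leaf through `ν`. -/
noncomputable def leafLaplacian (b : ℝ → ℝ) (ν : Conormal) (u : ℝ → Fib) (s : ℝ) : Fib :=
  (leafD b ν (leafDadj b ν u) s + leafDadj b ν (leafD b ν u) s) + gN (leaf b ν s) • u s

/-- `L²` of (the holonomy cover `ℝ` of) a leaf -/
abbrev L2Leaf : Type := Lp Fib 2 (volume : Measure ℝ)

/-- The graph of `Δ_{F_N} + g_N` on the smooth compactly supported sections over a leaf. -/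
def leafGraph (b : ℝ → ℝ) (ν : Conormal) : Set (L2Leaf × L2Leaf) :=
  {p | ∃ u : ℝ → Fib, ContDiff ℝ ∞ u ∧ HasCompactSupport u ∧ p.1 =ᵐ[volume] u ∧
    p.2 =ᵐ[volume] leafLaplacian b ν u}

/-- `k` is the continuous kernel of the operator `T`. -/
def IsKernel (k : ℝ → ℝ → Fib →L[ℂ] Fib) (T : L2Leaf →L[ℂ] L2Leaf) : Prop :=
  Continuous (Function.uncurry k) ∧
    ∀ (u : ℝ → Fib) (v : L2Leaf), Continuous u → HasCompactSupport u → v =ᵐ[volume] u →
      T v =ᵐ[volume] fun s => ∫ t, k s t (u t)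

/-- The matrix trace of the kernel at the unit `0` (and `∞` if there is no continuous kernel). -/
noncomputable def unitTrace (T : L2Leaf →L[ℂ] L2Leaf) : ℝ≥0∞ :=
  ⨅ (k : ℝ → ℝ → Fib →L[ℂ] Fib) (_ : IsKernel k T),
    ENNReal.ofReal (LinearMap.trace ℂ Fib (k 0 0 : Fib →ₗ[ℂ] Fib)).re

/-- `tr_{F_N} f(Δ_{F_N} + g_N)` -/
noncomputable def leafwiseTrace (b f : ℝ → ℝ) (l : ℝ) : ℝ≥0∞ :=
  ∫⁻ p in cell l, ∫⁻ ξ : ℝ × ℝ, unitTrace (functionOf f (leafGraph b (p, ξ)))

/-- The operators have unique Friedrichs extensions. -/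
def Extensions (b : ℝ → ℝ) (l : ℝ) : Prop :=
  (∀ h : ℝ, ∃! R, IsFriedrichsResolvent (torusGraph b l h) R) ∧
    ∀ ν : Conormal, ∃! R, IsFriedrichsResolvent (leafGraph b ν) R

/-- The difference of the two sides of the adiabatic Weyl formula is at least `c h⁻²`, for all
`h < h₀`. -/
def WeylGap (b f : ℝ → ℝ) (l c h₀ : ℝ) : Prop :=
  ∀ h : ℝ, 0 < h → h < h₀ →
    ENNReal.ofReal ((2 * Real.pi)⁻¹ ^ 2 * h⁻¹ ^ 2) * leafwiseTrace b f l +
      ENNReal.ofReal (c * h⁻¹ ^ 2) ≤ torusTrace b f l h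

end Pool.Agent.H56.AdiabRaw
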