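import Pool.Agent.H56.Adiab.Fiber
import Pool.Agent.H56.Adiab.Calc

/-!
# Forms on the torus
-/

open MeasureTheory Filter Topology Set
open scoped ENNReal InnerProductSpace ContDiff

namespace Pool.Agent.H56.Adiab

open AdiabRaw

/-- the smooth forms on the torus -/
noncomputable def TP (l : ℝ) : Submodule ℂ (Pt → Fib) where
  carrier := {u | IsForm l u}
  add_mem' := fun h1 h2 => ⟨h1.1.add h2.1, fun p q hq => by
    rw [Pi.add_apply, Pi.add_apply, h1.2 p q hq, h2.2 p q hq]⟩
  zero_mem' := ⟨contDiff_const, fun _ _ _ => rfl⟩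
  smul_mem' := fun c _ h => ⟨contDiff_const.smul h.1, fun p q hq => by
    rw [Pi.smul_apply, Pi.smul_apply, h.2 p q hq]⟩

variable {l : ℝ}

lemma psmooth (u : TP l) : ContDiff ℝ ∞ (u : Pt → Fib) := u.2.1
lemma pper (u : TP l) : ∀ p, ∀ q ∈ lattice l, (u : Pt → Fib) (p + q) = (u : Pt → Fib) p := u.2.2
lemma pcont (u : TP l) : Continuous (u : Pt → Fib) := u.2.1.continuous

/-- the measure on the cell -/
noncomputable abbrev muT (l : ℝ) : Measure Pt := volume.restrict (cell l)

lemma measurableSet_cell (l : ℝ) : MeasurableSet (cell l) :=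
  measurableSet_Ioc.prod (measurableSet_Ioc.prod measurableSet_Ioc)

lemma volume_cell (l : ℝ) : volume (cell l) = ENNReal.ofReal l := by
  unfold cell
  rw [Measure.volume_eq_prod, Measure.prod_prod, Measure.volume_eq_prod, Measure.prod_prod,
    Real.volume_Ioc, Real.volume_Ioc]
  simp

instance (l : ℝ) : IsFiniteMeasure (muT l) := by
  constructor
  rw [Measure.restrict_apply_univ, volume_cell]
  exact ENNReal.ofReal_lt_top

/-- the closed cell -/
def ccell (l : ℝ) : Set Pt := Icc 0 l ×ˢ Icc 0 1 ×ˢ Icc 0 1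

lemma isCompact_ccell (l : ℝ) : IsCompact (ccell l) :=
  isCompact_Icc.prod (isCompact_Icc.prod isCompact_Icc)

lemma cell_subset (l : ℝ) : cell l ⊆ ccell l :=
  Set.prod_mono Ioc_subset_Icc_self (Set.prod_mono Ioc_subset_Icc_self Ioc_subset_Icc_self)

lemma memLp_of_cont {E : Type*} [NormedAddCommGroup E] [SecondCountableTopology E]
    {u : Pt → E} (hu : Continuous u) (p : ℝ≥0∞) : MemLp u p (muT l) := by
  obtain ⟨C, hC⟩ := (isCompact_ccell l).exists_bound_of_continuousOn hu.continuousOn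
  refine MemLp.of_bound hu.aestronglyMeasurable C ?_
  filter_upwards [ae_restrict_mem (measurableSet_cell l)] with p hp
  exact hC p (cell_subset l hp)

lemma integrable_of_cont {E : Type*} [NormedAddCommGroup E] [SecondCountableTopology E]
    {u : Pt → E} (hu : Continuous u) : Integrable u (muT l) :=
  memLp_one_iff_integrable.1 (memLp_of_cont hu 1)

lemma pmemLp (u : TP l) : MemLp (u : Pt → Fib) 2 (muT l) := memLp_of_cont (pcont u) 2

/-- the class of a smooth form -/
noncomputable def iotaP : TP l →ₗ[ℂ] L2Torus l where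
  toFun u := (pmemLp u).toLp _
  map_add' _ _ := rfl
  map_smul' _ _ := rfl

lemma iotaP_coe (u : TP l) : iotaP u =ᵐ[muT l] (u : Pt → Fib) := MemLp.coeFn_toLp (pmemLp u)

lemma inner_iotaP (u w : TP l) :
    ⟪iotaP u, iotaP w⟫_ℂ = ∫ p, ⟪(u : Pt → Fib) p, (w : Pt → Fib) p⟫_ℂ ∂(muT l) := by
  rw [L2.inner_def]
  apply integral_congr_ae
  filter_upwards [iotaP_coe u, iotaP_coe w] with s h1 h2
  rw [h1, h2]

lemma norm_sq_iotaP (u : TP l) : ‖iotaP u‖ ^ 2 = ∫ p, ‖(u : Pt → Fib) p‖ ^ 2 ∂(muT l) := by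
  have h := inner_iotaP u u
  simp only [inner_self_eq_norm_sq_to_K] at h
  have h2 : ((‖iotaP u‖ ^ 2 : ℝ) : ℂ) = ((∫ p, ‖(u : Pt → Fib) p‖ ^ 2 ∂(muT l) : ℝ) : ℂ) := by
    rw [← integral_complex_ofReal]
    simpa using h
  exact_mod_cast h2

lemma fderiv_per {u : Pt → Fib} {q : Pt} (h : ∀ p, u (p + q) = u p) (p : Pt) :
    fderiv ℝ u (p + q) = fderiv ℝ u p := by
  have h1 : (fun x => u (x + q)) = u := funext h
  rw [← fderiv_comp_add_right, h1]

/-- directional derivative -/
noncomputable def dv (v : Pt) : TP l →ₗ[ℂ] TP l where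
  toFun u := ⟨fun p => fderiv ℝ (u : Pt → Fib) p v, ⟨by
      exact ((psmooth u).fderiv_right (m := ∞) (by simp)).clm_apply contDiff_const,
    fun p q hq => by
      show fderiv ℝ (u : Pt → Fib) (p + q) v = _
      rw [fderiv_per (fun p => pper u p q hq)]⟩⟩
  map_add' u w := by
    ext1
    funext p
    show fderiv ℝ ((u : Pt → Fib) + (w : Pt → Fib)) p v = _
    rw [fderiv_add ((psmooth u).differentiable (by simp) p) ((psmooth w).differentiable (by simp) p)]
    rfl
  map_smul' c u := by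
    ext1
    funext p
    show fderiv ℝ (c • (u : Pt → Fib)) p v = _
    rw [fderiv_const_smul ((psmooth u).differentiable (by simp) p)]
    rfl

/-- pointwise application of a linear map -/
noncomputable def mapP (T : Fib →L[ℂ] Fib) : TP l →ₗ[ℂ] TP l where
  toFun u := ⟨fun p => T ((u : Pt → Fib) p), ⟨(T.restrictScalars ℝ).contDiff.comp (psmooth u),
    fun p q hq => by
      show T ((u : Pt → Fib) (p + q)) = _
      rw [pper u p q hq]⟩⟩
  map_add' u w := by
    ext1
    funext s
    exact map_add T _ _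
  map_smul' c u := by
    ext1
    funext s
    exact map_smul T _ _

/-- smooth functions of period one -/
structure Per (a : ℝ → ℝ) : Prop where
  smooth : ContDiff ℝ ∞ a
  per : Function.Periodic a 1

lemma Per.deriv {a : ℝ → ℝ} (h : Per a) : Per (deriv a) where
  smooth := (contDiff_infty_iff_deriv.1 h.smooth).2
  per := fun y => by
    have h1 : (fun x => a (x + 1)) = a := funext h.per
    rw [← deriv_comp_add_const, h1]

/-- multiplication by a periodic function of `y` -/
noncomputable def mulP (a : ℝ → ℝ) (ha : Per a) : TP l →ₗ[ℂ] TP l where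
  toFun u := ⟨fun p => a p.2.1 • (u : Pt → Fib) p, ⟨by
      exact (ha.smooth.comp (contDiff_fst.comp contDiff_snd)).smul (psmooth u),
    fun p q hq => by
      show a (p + q).2.1 • (u : Pt → Fib) (p + q) = _
      rw [pper u p q hq]
      obtain ⟨i, j, k, rfl⟩ := hq
      congr 1
      have := (ha.per.int_mul j) p.2.1
      simpa using this⟩⟩
  map_add' u w := by
    ext1
    funext s
    exact smul_add _ _ _
  map_smul' c u := by
    ext1
    funext p
    show a p.2.1 • (c • (u : Pt → Fib) p) = c • (a p.2.1 • (u : Pt → Fib) p)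
    exact smul_comm _ _ _

lemma dv_apply (v : Pt) (u : TP l) (p : Pt) :
    (dv v u : Pt → Fib) p = fderiv ℝ (u : Pt → Fib) p v := rfl
lemma mapP_apply (T : Fib →L[ℂ] Fib) (u : TP l) (p : Pt) :
    (mapP T u : Pt → Fib) p = T ((u : Pt → Fib) p) := rfl
lemma mulP_apply (a : ℝ → ℝ) (ha : Per a) (u : TP l) (p : Pt) :
    (mulP a ha u : Pt → Fib) p = a p.2.1 • (u : Pt → Fib) p := rfl

lemma inner_mapP {T T' : Fib →L[ℂ] Fib} (h : ∀ v w, ⟪T v, w⟫_ℂ = ⟪v, T' w⟫_ℂ) (u w : TP l) :
    ⟪iotaP (mapP T u), iotaP w⟫_ℂ = ⟪iotaP u, iotaP (mapP T' w)⟫_ℂ := by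
  rw [inner_iotaP, inner_iotaP]
  simp only [mapP_apply, h]

lemma inner_mulP {a : ℝ → ℝ} (ha : Per a) (u w : TP l) :
    ⟪iotaP (mulP a ha u), iotaP w⟫_ℂ = ⟪iotaP u, iotaP (mulP a ha w)⟫_ℂ := by
  rw [inner_iotaP, inner_iotaP]
  congr 1
  ext s
  rw [mulP_apply, mulP_apply, inner_smul_left_eq_smul, inner_smul_right_eq_smul]

lemma dv_mapP (v : Pt) (T : Fib →L[ℂ] Fib) (u : TP l) : dv v (mapP T u) = mapP T (dv v u) := by
  ext1
  funext p
  have h := ((psmooth u).differentiable (by simp) p).hasFDerivAt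
  have h2 := (T.restrictScalars ℝ).hasFDerivAt.comp p h
  show fderiv ℝ (fun p => T ((u : Pt → Fib) p)) p v = T (fderiv ℝ (u : Pt → Fib) p v)
  rw [show (fun p => T ((u : Pt → Fib) p)) = (T.restrictScalars ℝ) ∘ (u : Pt → Fib) from rfl,
    h2.fderiv]
  rfl

/-! ### Integration by parts -/

/-- complex valued smooth periodic functions -/
structure PerF (l : ℝ) (F : Pt → ℂ) : Prop where
  smooth : ContDiff ℝ ∞ F
  per : ∀ p, ∀ q ∈ lattice l, F (p + q) = F p

lemma muT_eq (l : ℝ) : muT l = (volume.restrict (Ioc 0 l)).prod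
    ((volume.restrict (Ioc 0 1)).prod (volume.restrict (Ioc 0 1))) := by
  unfold muT cell
  rw [Measure.prod_restrict, Measure.prod_restrict]
  rfl

lemma ex_mem : ((l, 0, 0) : Pt) ∈ lattice l := ⟨1, 0, 0, by simp⟩
lemma ey_mem : ((0, 1, 0) : Pt) ∈ lattice l := ⟨0, 1, 0, by simp⟩
lemma ez_mem : ((0, 0, 1) : Pt) ∈ lattice l := ⟨0, 0, 1, by simp⟩

lemma fd_cont {F : Pt → ℂ} (hF : PerF l F) (v : Pt) : Continuous fun p => fderiv ℝ F p v :=
  (hF.smooth.continuous_fderiv (by simp)).clm_apply continuous_const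

lemma int_x (hl : 0 ≤ l) {F : Pt → ℂ} (hF : PerF l F) :
    ∫ p, fderiv ℝ F p (1, 0, 0) ∂(muT l) = 0 := by
  have hi : Integrable (fun p => fderiv ℝ F p (1, 0, 0)) (muT l) :=
    integrable_of_cont (fd_cont hF _)
  rw [muT_eq] at hi ⊢
  rw [integral_prod_symm _ hi]
  apply integral_eq_zero_of_ae
  refine Eventually.of_forall fun q => ?_
  have h1 : ∀ x, HasDerivAt (fun x => F (x, q)) (fderiv ℝ F (x, q) (1, 0, 0)) x := by
    intro x
    have h2 := (hF.smooth.differentiable (by simp) (x, q)).hasFDerivAt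
    have h3 : HasDerivAt (fun x : ℝ => ((x, q) : Pt)) (1, 0, 0) x :=
      (hasDerivAt_id x).prodMk (hasDerivAt_const x q)
    exact h2.comp_hasDerivAt x h3
  show ∫ x in Ioc 0 l, fderiv ℝ F (x, q) (1, 0, 0) = 0
  rw [← intervalIntegral.integral_of_le hl,
    intervalIntegral.integral_eq_sub_of_hasDerivAt (fun x _ => h1 x)]
  · have := hF.per (0, q) _ ex_mem
    simp only [Prod.mk_add_mk, zero_add] at this
    rw [sub_eq_zero]
    convert this using 2
    ext <;> simp
  · exact ((fd_cont hF _).comp (continuous_id.prodMk continuous_const)).intervalIntegrable _ _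

lemma int_y {F : Pt → ℂ} (hF : PerF l F) :
    ∫ p, fderiv ℝ F p (0, 1, 0) ∂(muT l) = 0 := by
  have hi : Integrable (fun p => fderiv ℝ F p (0, 1, 0)) (muT l) :=
    integrable_of_cont (fd_cont hF _)
  rw [muT_eq] at hi ⊢
  rw [integral_prod _ hi]
  apply integral_eq_zero_of_ae
  refine Eventually.of_forall fun x => ?_
  have hc : Continuous fun q : ℝ × ℝ => fderiv ℝ F (x, q) (0, 1, 0) :=
    (fd_cont hF _).comp (continuous_const.prodMk continuous_id)
  have hi2 : Integrable (fun q : ℝ × ℝ => fderiv ℝ F (x, q) (0, 1, 0))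
      ((volume.restrict (Ioc 0 1)).prod (volume.restrict (Ioc 0 1))) := by
    rw [Measure.prod_restrict]
    have hK : IsCompact ((Icc 0 1 : Set ℝ) ×ˢ (Icc 0 1 : Set ℝ)) := isCompact_Icc.prod isCompact_Icc
    exact (hc.continuousOn.integrableOn_compact hK).mono_set
      (Set.prod_mono Ioc_subset_Icc_self Ioc_subset_Icc_self)
  show ∫ q, fderiv ℝ F (x, q) (0, 1, 0) ∂_ = 0
  rw [integral_prod_symm _ hi2]
  apply integral_eq_zero_of_ae
  refine Eventually.of_forall fun z => ?_
  have h1 : ∀ y, HasDerivAt (fun y => F (x, y, z)) (fderiv ℝ F (x, y, z) (0, 1, 0)) y := by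
    intro y
    have h2 := (hF.smooth.differentiable (by simp) (x, y, z)).hasFDerivAt
    have h3 : HasDerivAt (fun y : ℝ => ((x, y, z) : Pt)) (0, 1, 0) y :=
      (hasDerivAt_const y x).prodMk ((hasDerivAt_id y).prodMk (hasDerivAt_const y z))
    exact h2.comp_hasDerivAt y h3
  show ∫ y in Ioc 0 1, fderiv ℝ F (x, y, z) (0, 1, 0) = 0
  rw [← intervalIntegral.integral_of_le zero_le_one,
    intervalIntegral.integral_eq_sub_of_hasDerivAt (fun y _ => h1 y)]
  · have := hF.per (x, 0, z) _ ey_mem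
    simp only [Prod.mk_add_mk, zero_add, add_zero] at this
    rw [sub_eq_zero]
    exact this
  · exact ((fd_cont hF _).comp (continuous_const.prodMk
      (continuous_id.prodMk continuous_const))).intervalIntegrable _ _

lemma int_z {F : Pt → ℂ} (hF : PerF l F) :
    ∫ p, fderiv ℝ F p (0, 0, 1) ∂(muT l) = 0 := by
  have hi : Integrable (fun p => fderiv ℝ F p (0, 0, 1)) (muT l) :=
    integrable_of_cont (fd_cont hF _)
  rw [muT_eq] at hi ⊢
  rw [integral_prod _ hi]
  apply integral_eq_zero_of_ae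
  refine Eventually.of_forall fun x => ?_
  have hc : Continuous fun q : ℝ × ℝ => fderiv ℝ F (x, q) (0, 0, 1) :=
    (fd_cont hF _).comp (continuous_const.prodMk continuous_id)
  have hi2 : Integrable (fun q : ℝ × ℝ => fderiv ℝ F (x, q) (0, 0, 1))
      ((volume.restrict (Ioc 0 1)).prod (volume.restrict (Ioc 0 1))) := by
    rw [Measure.prod_restrict]
    have hK : IsCompact ((Icc 0 1 : Set ℝ) ×ˢ (Icc 0 1 : Set ℝ)) := isCompact_Icc.prod isCompact_Icc
    exact (hc.continuousOn.integrableOn_compact hK).mono_set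
      (Set.prod_mono Ioc_subset_Icc_self Ioc_subset_Icc_self)
  show ∫ q, fderiv ℝ F (x, q) (0, 0, 1) ∂_ = 0
  rw [integral_prod _ hi2]
  apply integral_eq_zero_of_ae
  refine Eventually.of_forall fun y => ?_
  have h1 : ∀ z, HasDerivAt (fun z => F (x, y, z)) (fderiv ℝ F (x, y, z) (0, 0, 1)) z := by
    intro z
    have h2 := (hF.smooth.differentiable (by simp) (x, y, z)).hasFDerivAt
    have h3 : HasDerivAt (fun z : ℝ => ((x, y, z) : Pt)) (0, 0, 1) z :=
      (hasDerivAt_const z x).prodMk ((hasDerivAt_const z y).prodMk (hasDerivAt_id z))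
    exact h2.comp_hasDerivAt z h3
  show ∫ z in Ioc 0 1, fderiv ℝ F (x, y, z) (0, 0, 1) = 0
  rw [← intervalIntegral.integral_of_le zero_le_one,
    intervalIntegral.integral_eq_sub_of_hasDerivAt (fun z _ => h1 z)]
  · have := hF.per (x, y, 0) _ ez_mem
    simp only [Prod.mk_add_mk, zero_add, add_zero] at this
    rw [sub_eq_zero]
    exact this
  · exact ((fd_cont hF _).comp (continuous_const.prodMk
      (continuous_const.prodMk continuous_id))).intervalIntegrable _ _

lemma perF_inner (u w : TP l) :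
    PerF l fun p => ⟪(u : Pt → Fib) p, (w : Pt → Fib) p⟫_ℂ where
  smooth := (psmooth u).inner ℂ (psmooth w)
  per := fun p q hq => by rw [pper u p q hq, pper w p q hq]

lemma ibp_of {v : Pt} (hv : ∀ {F : Pt → ℂ}, PerF l F → ∫ p, fderiv ℝ F p v ∂(muT l) = 0)
    (u w : TP l) : ⟪iotaP (dv v u), iotaP w⟫_ℂ = -⟪iotaP u, iotaP (dv v w)⟫_ℂ := by
  have h := hv (perF_inner u w)
  have h1 : ∀ p, fderiv ℝ (fun p => ⟪(u : Pt → Fib) p, (w : Pt → Fib) p⟫_ℂ) p v =
      ⟪(u : Pt → Fib) p, (dv v w : Pt → Fib) p⟫_ℂ + ⟪(dv v u : Pt → Fib) p, (w : Pt → Fib) p⟫_ℂ := by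
    intro p
    rw [fderiv_inner_apply ℂ ((psmooth u).differentiable (by simp) p)
      ((psmooth w).differentiable (by simp) p)]
    rfl
  simp only [h1] at h
  rw [integral_add] at h
  · rw [inner_iotaP, inner_iotaP]
    linear_combination h
  · exact integrable_of_cont ((pcont u).inner (pcont (dv v w)))
  · exact integrable_of_cont ((pcont (dv v u)).inner (pcont w))

end Pool.Agent.H56.Adiab
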