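import Pool.Agent.H56.Adiab.Torus

/-!
# The operators on the torus
-/

open MeasureTheory Filter Topology Set
open scoped ENNReal InnerProductSpace ContDiff

namespace Pool.Agent.H56.Adiab

open AdiabRaw

variable {l : ℝ} {b : ℝ → ℝ}

lemma dX_eq (b : ℝ → ℝ) (u : Pt → Fib) (p : Pt) :
    dX b u p = fderiv ℝ u p (1, 0, 0) + b p.2.1 • fderiv ℝ u p (0, 0, 1) := by
  unfold dX
  rw [← map_smul, ← map_add]
  congr 1
  ext <;> simp

/-- `X` as an operator on smooth forms -/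
noncomputable def dXo (hb : Per b) : TP l →ₗ[ℂ] TP l :=
  dv (1, 0, 0) + mulP b hb ∘ₗ dv (0, 0, 1)

lemma dXo_apply (hb : Per b) (u : TP l) (p : Pt) :
    (dXo hb u : Pt → Fib) p = dX b (u : Pt → Fib) p := (dX_eq b u p).symm

/-- zero order part of the tangential differential -/
noncomputable def Q1 : Fib →L[ℂ] Fib := wedgeL 0 ∘L wedgeL 1 ∘L contrL 2

/-- its adjoint -/
noncomputable def Q2 : Fib →L[ℂ] Fib := wedgeL 2 ∘L contrL 1 ∘L contrL 0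

lemma Q_adj (v w : Fib) : ⟪Q1 v, w⟫_ℂ = ⟪v, Q2 w⟫_ℂ := by
  show ⟪wedge 0 (wedge 1 (contr 2 v)), w⟫_ℂ = ⟪v, wedge 2 (contr 1 (contr 0 w))⟫_ℂ
  rw [inner_wedge, inner_wedge, inner_contr]

/-- tangential differential -/
noncomputable def dFo (hb : Per b) : TP l →ₗ[ℂ] TP l :=
  mapP (wedgeL 0) ∘ₗ dXo hb + mulP (deriv b) hb.deriv ∘ₗ mapP Q1

/-- its adjoint -/
noncomputable def dFs (hb : Per b) : TP l →ₗ[ℂ] TP l :=
  -(mapP (contrL 0) ∘ₗ dXo hb) + mulP (deriv b) hb.deriv ∘ₗ mapP Q2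

/-- transverse differential -/
noncomputable def dHo : TP l →ₗ[ℂ] TP l :=
  mapP (wedgeL 1) ∘ₗ dv (0, 1, 0) + mapP (wedgeL 2) ∘ₗ dv (0, 0, 1)

/-- its adjoint -/
noncomputable def dHs : TP l →ₗ[ℂ] TP l :=
  -(mapP (contrL 1) ∘ₗ dv (0, 1, 0)) - mapP (contrL 2) ∘ₗ dv (0, 0, 1)

lemma dFo_coe (hb : Per b) (u : TP l) : (dFo hb u : Pt → Fib) = dF b (u : Pt → Fib) := by
  funext p
  show wedge 0 ((dXo hb u : Pt → Fib) p) + _ = _
  rw [dXo_apply]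
  rfl

lemma dFs_coe (hb : Per b) (u : TP l) : (dFs hb u : Pt → Fib) = dFadj b (u : Pt → Fib) := by
  funext p
  show -contr 0 ((dXo hb u : Pt → Fib) p) + _ = _
  rw [dXo_apply]
  rfl

lemma dHo_coe (u : TP l) : (dHo u : Pt → Fib) = dH (u : Pt → Fib) := rfl

lemma dHs_coe (u : TP l) : (dHs u : Pt → Fib) = dHadj (u : Pt → Fib) := rfl

/-- scalar multiplication by a real number -/
lemma per_const (c : ℝ) : Per fun _ => c := ⟨contDiff_const, fun _ => rfl⟩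

/-- `Δ_F + h² Δ_H` -/
noncomputable def AP (hb : Per b) (h : ℝ) : TP l →ₗ[ℂ] TP l :=
  (dFo hb ∘ₗ dFs hb + dFs hb ∘ₗ dFo hb) +
    mulP (fun _ => h ^ 2) (per_const _) ∘ₗ (dHo ∘ₗ dHs + dHs ∘ₗ dHo)

lemma AP_coe (hb : Per b) (h : ℝ) (u : TP l) :
    (AP hb h u : Pt → Fib) = laplacian b h (u : Pt → Fib) := by
  funext p
  show ((dFo hb (dFs hb u) : Pt → Fib) p + (dFs hb (dFo hb u) : Pt → Fib) p) +
    h ^ 2 • ((dHo (dHs u) : Pt → Fib) p + (dHs (dHo u) : Pt → Fib) p) = _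
  rw [dFo_coe, dFs_coe, dFs_coe, dFo_coe, dHo_coe, dHs_coe, dHs_coe, dHo_coe]
  rfl

/-- with values in `L²` -/
noncomputable def Ap (hb : Per b) (h : ℝ) : TP l →ₗ[ℂ] L2Torus l := iotaP ∘ₗ AP hb h

lemma torusGraph_eq (hb : Per b) (l h : ℝ) :
    torusGraph b l h = Set.range fun u : TP l => (iotaP u, Ap hb h u) := by
  ext p
  constructor
  · rintro ⟨u, hu, h1, h2⟩
    refine ⟨⟨u, hu⟩, ?_⟩
    have e1 : iotaP (⟨u, hu⟩ : TP l) = p.1 := by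
      apply Lp.ext
      exact (iotaP_coe _).trans h1.symm
    have e2 : Ap hb h (⟨u, hu⟩ : TP l) = p.2 := by
      apply Lp.ext
      refine (iotaP_coe _).trans ?_
      rw [AP_coe]
      exact h2.symm
    show (iotaP (⟨u, hu⟩ : TP l), Ap hb h (⟨u, hu⟩ : TP l)) = p
    rw [e1, e2]
  · rintro ⟨u, rfl⟩
    refine ⟨u, u.2, iotaP_coe u, ?_⟩
    refine (iotaP_coe _).trans ?_
    rw [AP_coe]

/-! ### Adjointness -/

lemma ibp_y (u w : TP l) : ⟪iotaP (dv (0, 1, 0) u), iotaP w⟫_ℂ = -⟪iotaP u, iotaP (dv (0, 1, 0) w)⟫_ℂ :=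
  ibp_of (fun hF => int_y hF) u w

lemma ibp_z (u w : TP l) : ⟪iotaP (dv (0, 0, 1) u), iotaP w⟫_ℂ = -⟪iotaP u, iotaP (dv (0, 0, 1) w)⟫_ℂ :=
  ibp_of (fun hF => int_z hF) u w

lemma ibp_x (hl : 0 ≤ l) (u w : TP l) :
    ⟪iotaP (dv (1, 0, 0) u), iotaP w⟫_ℂ = -⟪iotaP u, iotaP (dv (1, 0, 0) w)⟫_ℂ :=
  ibp_of (fun hF => int_x hl hF) u w

lemma dvz_mulP {a : ℝ → ℝ} (ha : Per a) (u : TP l) :
    dv (0, 0, 1) (mulP a ha u) = mulP a ha (dv (0, 0, 1) u) := by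
  ext1
  funext p
  have h1 : HasFDerivAt (fun p : Pt => a p.2.1) ((ContinuousLinearMap.toSpanSingleton ℝ
      (deriv a p.2.1)) ∘L ((ContinuousLinearMap.fst ℝ ℝ ℝ) ∘L (ContinuousLinearMap.snd ℝ ℝ (ℝ × ℝ))))
      p := by
    have e1 := (ha.smooth.differentiable (by simp) p.2.1).hasDerivAt.hasFDerivAt
    have e2 : HasFDerivAt (fun p : Pt => p.2.1) ((ContinuousLinearMap.fst ℝ ℝ ℝ) ∘L
      (ContinuousLinearMap.snd ℝ ℝ (ℝ × ℝ))) p :=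
      ((ContinuousLinearMap.fst ℝ ℝ ℝ) ∘L (ContinuousLinearMap.snd ℝ ℝ (ℝ × ℝ))).hasFDerivAt
    exact e1.comp p e2
  have h2 := ((psmooth u).differentiable (by simp) p).hasFDerivAt
  show fderiv ℝ (fun p : Pt => a p.2.1 • (u : Pt → Fib) p) p (0, 0, 1) =
    a p.2.1 • fderiv ℝ (u : Pt → Fib) p (0, 0, 1)
  have h3 : fderiv ℝ (fun p : Pt => a p.2.1 • (u : Pt → Fib) p) p = _ := (h1.smul h2).fderiv
  rw [h3]
  simp

lemma dXo_adj (hb : Per b) (hl : 0 ≤ l) (u w : TP l) :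
    ⟪iotaP (dXo hb u), iotaP w⟫_ℂ = -⟪iotaP u, iotaP (dXo hb w)⟫_ℂ := by
  have e1 : ∀ u : TP l, iotaP (dXo hb u) = iotaP (dv (1, 0, 0) u) +
      iotaP (mulP b hb (dv (0, 0, 1) u)) := fun u => by rw [← map_add]; rfl
  rw [e1, e1, inner_add_left, inner_add_right, ibp_x hl, inner_mulP, ibp_z, dvz_mulP]
  ring

lemma dXo_mapP (hb : Per b) (T : Fib →L[ℂ] Fib) (u : TP l) :
    dXo hb (mapP T u) = mapP T (dXo hb u) := by
  ext1
  funext p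
  show (dv (1, 0, 0) (mapP T u) : Pt → Fib) p + b p.2.1 • (dv (0, 0, 1) (mapP T u) : Pt → Fib) p =
    T ((dv (1, 0, 0) u : Pt → Fib) p + b p.2.1 • (dv (0, 0, 1) u : Pt → Fib) p)
  rw [dv_mapP, dv_mapP, map_add]
  congr 1
  exact ((T.restrictScalars ℝ).map_smul _ _).symm

lemma dF_adj (hb : Per b) (hl : 0 ≤ l) (u w : TP l) :
    ⟪iotaP (dFo hb u), iotaP w⟫_ℂ = ⟪iotaP u, iotaP (dFs hb w)⟫_ℂ := by
  have e1 : iotaP (dFo hb u) = iotaP (mapP (wedgeL 0) (dXo hb u)) +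
      iotaP (mulP (deriv b) hb.deriv (mapP Q1 u)) := by rw [← map_add]; rfl
  have e2 : iotaP (dFs hb w) = -iotaP (mapP (contrL 0) (dXo hb w)) +
      iotaP (mulP (deriv b) hb.deriv (mapP Q2 w)) := by rw [← map_neg, ← map_add]; rfl
  have h1 : ∀ u w : TP l, ⟪iotaP (mapP (wedgeL 0) u), iotaP w⟫_ℂ =
      ⟪iotaP u, iotaP (mapP (contrL 0) w)⟫_ℂ := inner_mapP (fun v w => inner_wedge 0 v w)
  have h2 : ∀ u w : TP l, ⟪iotaP (mapP Q1 u), iotaP w⟫_ℂ =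
      ⟪iotaP u, iotaP (mapP Q2 w)⟫_ℂ := inner_mapP Q_adj
  have h3 : mapP Q2 (mulP (deriv b) hb.deriv w) = mulP (deriv b) hb.deriv (mapP Q2 w) := by
    ext1
    funext p
    exact (Q2.restrictScalars ℝ).map_smul _ _
  rw [e1, e2, inner_add_left, inner_add_right, inner_neg_right, h1, dXo_adj hb hl, dXo_mapP,
    inner_mulP, h2, h3]

lemma dFs_adj (hb : Per b) (hl : 0 ≤ l) (u w : TP l) :
    ⟪iotaP (dFs hb u), iotaP w⟫_ℂ = ⟪iotaP u, iotaP (dFo hb w)⟫_ℂ := by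
  rw [← inner_conj_symm, ← dF_adj hb hl, inner_conj_symm]

lemma dH_adj (u w : TP l) : ⟪iotaP (dHo u), iotaP w⟫_ℂ = ⟪iotaP u, iotaP (dHs w)⟫_ℂ := by
  have e1 : iotaP (dHo u) = iotaP (mapP (wedgeL 1) (dv (0, 1, 0) u)) +
      iotaP (mapP (wedgeL 2) (dv (0, 0, 1) u)) := by rw [← map_add]; rfl
  have e2 : iotaP (dHs w) = -iotaP (mapP (contrL 1) (dv (0, 1, 0) w)) -
      iotaP (mapP (contrL 2) (dv (0, 0, 1) w)) := by rw [← map_neg, ← map_sub]; rfl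
  have h1 : ∀ (i : Fin 3) (u w : TP l), ⟪iotaP (mapP (wedgeL i) u), iotaP w⟫_ℂ =
      ⟪iotaP u, iotaP (mapP (contrL i) w)⟫_ℂ := fun i => inner_mapP (fun v w => inner_wedge i v w)
  rw [e1, e2, inner_add_left, inner_sub_right, inner_neg_right, h1, h1, ibp_y, ibp_z, dv_mapP,
    dv_mapP]
  ring

lemma dHs_adj (u w : TP l) : ⟪iotaP (dHs u), iotaP w⟫_ℂ = ⟪iotaP u, iotaP (dHo w)⟫_ℂ := by
  rw [← inner_conj_symm, ← dH_adj, inner_conj_symm]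

/-- the target of the first order system -/
abbrev HP (l : ℝ) : Type := PiLp 2 (fun _ : Fin 4 => L2Torus l)

/-- the first order system -/
noncomputable def LP (hb : Per b) (h : ℝ) : TP l →ₗ[ℂ] HP l :=
  (WithLp.linearEquiv 2 ℂ (Fin 4 → L2Torus l)).symm.toLinearMap ∘ₗ
    LinearMap.pi ![iotaP ∘ₗ dFo hb, iotaP ∘ₗ dFs hb, iotaP ∘ₗ mulP (fun _ => h) (per_const h) ∘ₗ dHo,
      iotaP ∘ₗ mulP (fun _ => h) (per_const h) ∘ₗ dHs]

lemma LP_inner (hb : Per b) (h : ℝ) (u w : TP l) : ⟪LP hb h u, LP hb h w⟫_ℂ =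
    ⟪iotaP (dFo hb u), iotaP (dFo hb w)⟫_ℂ + ⟪iotaP (dFs hb u), iotaP (dFs hb w)⟫_ℂ +
    ⟪iotaP (mulP (fun _ => h) (per_const h) (dHo u)),
      iotaP (mulP (fun _ => h) (per_const h) (dHo w))⟫_ℂ +
    ⟪iotaP (mulP (fun _ => h) (per_const h) (dHs u)),
      iotaP (mulP (fun _ => h) (per_const h) (dHs w))⟫_ℂ := by
  rw [PiLp.inner_apply, Fin.sum_univ_four]
  rfl

lemma factP (hb : Per b) (hl : 0 ≤ l) (h : ℝ) (u w : TP l) :
    ⟪iotaP u, Ap hb h w⟫_ℂ = ⟪LP hb h u, LP hb h w⟫_ℂ := by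
  have e1 : Ap hb h w = (iotaP (dFo hb (dFs hb w)) + iotaP (dFs hb (dFo hb w))) +
      (iotaP (mulP (fun _ => h) (per_const h) (mulP (fun _ => h) (per_const h) (dHo (dHs w)))) +
      iotaP (mulP (fun _ => h) (per_const h) (mulP (fun _ => h) (per_const h) (dHs (dHo w))))) := by
    rw [← map_add, ← map_add, ← map_add]
    unfold Ap
    rw [LinearMap.comp_apply]
    congr 1
    ext1
    funext p
    show ((dFo hb (dFs hb w) : Pt → Fib) p + (dFs hb (dFo hb w) : Pt → Fib) p) +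
      h ^ 2 • ((dHo (dHs w) : Pt → Fib) p + (dHs (dHo w) : Pt → Fib) p) =
      ((dFo hb (dFs hb w) : Pt → Fib) p + (dFs hb (dFo hb w) : Pt → Fib) p) +
      (h • h • (dHo (dHs w) : Pt → Fib) p + h • h • (dHs (dHo w) : Pt → Fib) p)
    rw [smul_smul, smul_smul, ← sq, smul_add]
  have e2 : ∀ (T T' : TP l →ₗ[ℂ] TP l), (∀ u w, ⟪iotaP (T u), iotaP w⟫_ℂ = ⟪iotaP u, iotaP (T' w)⟫_ℂ) →
      ⟪iotaP (mulP (fun _ => h) (per_const h) (T u)),
        iotaP (mulP (fun _ => h) (per_const h) (T w))⟫_ℂ =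
      ⟪iotaP u, iotaP (mulP (fun _ => h) (per_const h) (mulP (fun _ => h) (per_const h)
        (T' (T w))))⟫_ℂ := by
    intro T T' hT
    rw [inner_mulP, hT]
    congr 2
    have : ∀ x : TP l, mulP (fun _ => h) (per_const h) x = (h : ℂ) • x := by
      intro x
      ext1
      funext p
      show h • (x : Pt → Fib) p = (h : ℂ) • (x : Pt → Fib) p
      rw [Complex.coe_smul]
    rw [this, this, this, this, map_smul, map_smul]
  rw [LP_inner, dF_adj hb hl, dFs_adj hb hl, e2 dHo dHs dH_adj, e2 dHs dHo dHs_adj, e1,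
    inner_add_right, inner_add_right, inner_add_right]
  ring

end Pool.Agent.H56.Adiab
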