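import Pool.Agent.H56.Adiab.TorusOp

/-!
# Trial functions
-/

open MeasureTheory Filter Topology Set
open scoped ENNReal InnerProductSpace ContDiff

namespace Pool.Agent.H56.Adiab

open AdiabRaw

variable {l : ℝ}

/-- the exponential `e^{2 π i (j y + k z)}` -/
noncomputable def ex (j k : ℤ) (p : Pt) : ℂ :=
  Complex.exp (2 * Real.pi * Complex.I * (j * p.2.1 + k * p.2.2))

lemma ex_norm (j k : ℤ) (p : Pt) : ‖ex j k p‖ = 1 := by
  unfold ex
  rw [show 2 * (Real.pi : ℂ) * Complex.I * (j * p.2.1 + k * p.2.2) =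
    ((2 * Real.pi * (j * p.2.1 + k * p.2.2) : ℝ) : ℂ) * Complex.I by push_cast; ring]
  exact Complex.norm_exp_ofReal_mul_I _

lemma ex_smooth (j k : ℤ) : ContDiff ℝ ∞ (ex j k) := by
  unfold ex
  have h1 : ContDiff ℝ ∞ fun p : Pt => (p.2.1 : ℂ) :=
    Complex.ofRealCLM.contDiff.comp (contDiff_fst.comp contDiff_snd)
  have h2 : ContDiff ℝ ∞ fun p : Pt => (p.2.2 : ℂ) :=
    Complex.ofRealCLM.contDiff.comp (contDiff_snd.comp contDiff_snd)
  exact (contDiff_const.mul ((contDiff_const.mul h1).add (contDiff_const.mul h2))).cexp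

lemma ex_per (j k : ℤ) : ∀ p, ∀ q ∈ lattice l, ex j k (p + q) = ex j k p := by
  rintro p _ ⟨i, m, n, rfl⟩
  unfold ex
  rw [show 2 * (Real.pi : ℂ) * Complex.I * (j * ((p + ((i : ℝ) * l, (m : ℝ), (n : ℝ)) : Pt).2.1 : ℝ) +
    k * ((p + ((i : ℝ) * l, (m : ℝ), (n : ℝ)) : Pt).2.2 : ℝ)) =
    2 * Real.pi * Complex.I * (j * p.2.1 + k * p.2.2) +
      ((j * m + k * n : ℤ) : ℂ) * (2 * Real.pi * Complex.I) by
    simp only [Prod.snd_add, Prod.fst_add]
    push_cast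
    ring]
  rw [Complex.exp_add, Complex.exp_int_mul_two_pi_mul_I, mul_one]

/-- normalized exponentials -/
noncomputable def Ef (l : ℝ) (j k : ℤ) : TP l :=
  ⟨fun p => (((√ l)⁻¹ : ℝ) * ex j k p : ℂ) • e0,
    ⟨(contDiff_const.mul (ex_smooth j k)).smul contDiff_const,
    fun p q hq => by
      show (((√ l)⁻¹ : ℝ) * ex j k (p + q) : ℂ) • e0 = _
      rw [ex_per j k p q hq]⟩⟩

lemma Ef_apply (j k : ℤ) (p : Pt) :
    (Ef l j k : Pt → Fib) p = (((√ l)⁻¹ : ℝ) * ex j k p : ℂ) • e0 := rfl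

/-- integrals over the cell of functions of product form -/
lemma int_cell (hl : 0 ≤ l) (F G : ℝ → ℂ) :
    ∫ p, F p.2.1 * G p.2.2 ∂(muT l) = l * ((∫ y in Ioc 0 1, F y) * ∫ z in Ioc 0 1, G z) := by
  rw [muT_eq]
  have h := integral_prod_mul (μ := volume.restrict (Ioc 0 l))
    (ν := (volume.restrict (Ioc (0 : ℝ) 1)).prod (volume.restrict (Ioc (0 : ℝ) 1)))
    (fun _ : ℝ => (1 : ℂ)) (fun q : ℝ × ℝ => F q.1 * G q.2)
  simp only [one_mul] at h
  rw [h, integral_prod_mul]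
  congr 1
  rw [integral_const]
  simp [Measure.real, hl]

lemma int_cell_y (hl : 0 ≤ l) (F : ℝ → ℝ) :
    ∫ p, F p.2.1 ∂(muT l) = l * ∫ y in Ioc 0 1, F y := by
  have h := int_cell hl (fun y => (F y : ℂ)) (fun _ => 1)
  simp only [mul_one] at h
  have h2 : ∫ _z in Ioc (0 : ℝ) 1, (1 : ℂ) = 1 := by
    rw [integral_const]
    simp [Measure.real]
  rw [h2, mul_one, integral_complex_ofReal, integral_complex_ofReal] at h
  exact_mod_cast h

lemma int_exp (m : ℤ) : ∫ y in Ioc (0 : ℝ) 1, Complex.exp (2 * Real.pi * Complex.I * (m * y)) =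
    if m = 0 then 1 else 0 := by
  split_ifs with h
  · rw [h]
    simp [Measure.real]
  · rw [← intervalIntegral.integral_of_le zero_le_one]
    have hc : 2 * (Real.pi : ℂ) * Complex.I * m ≠ 0 := by
      have : (m : ℂ) ≠ 0 := by exact_mod_cast h
      have h2 : (Real.pi : ℂ) ≠ 0 := by exact_mod_cast Real.pi_ne_zero
      simp [this, h2]
    have h1 := integral_exp_mul_complex (a := 0) (b := 1) hc
    simp only [← mul_assoc] at h1 ⊢
    rw [h1]
    have h3 : Complex.exp (2 * Real.pi * Complex.I * m * (1 : ℝ)) = 1 := by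
      rw [Complex.ofReal_one, mul_one, mul_comm _ (m : ℂ)]
      exact Complex.exp_int_mul_two_pi_mul_I m
    rw [h3]
    simp

lemma Ef_orthonormal (hl : 0 < l) :
    Orthonormal ℂ fun i : ℤ × ℤ => iotaP (Ef l i.1 i.2) := by
  rw [orthonormal_iff_ite]
  rintro ⟨j, k⟩ ⟨j', k'⟩
  rw [inner_iotaP]
  have h1 : ∀ p : Pt, ⟪(Ef l j k : Pt → Fib) p, (Ef l j' k' : Pt → Fib) p⟫_ℂ =
      (l⁻¹ : ℝ) * (Complex.exp (2 * Real.pi * Complex.I * (((j' - j : ℤ) : ℂ) * p.2.1)) *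
        Complex.exp (2 * Real.pi * Complex.I * (((k' - k : ℤ) : ℂ) * p.2.2))) := by
    intro p
    rw [Ef_apply, Ef_apply, inner_smul_left, inner_smul_right, inner_self_eq_norm_sq_to_K, norm_e0]
    have h2 : (starRingEnd ℂ) (((√ l)⁻¹ : ℝ) * ex j k p : ℂ) = ((√ l)⁻¹ : ℝ) *
        Complex.exp (-(2 * Real.pi * Complex.I * (j * p.2.1 + k * p.2.2))) := by
      rw [map_mul, Complex.conj_ofReal, ex, ← Complex.exp_conj]
      congr 2
      simp only [map_mul, map_add, Complex.conj_I, Complex.conj_ofReal, map_intCast, map_ofNat]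
      ring
    rw [h2, ex]
    have h3 : (((√ l)⁻¹ : ℝ) : ℂ) * ((√ l)⁻¹ : ℝ) = (l⁻¹ : ℝ) := by
      rw [← Complex.ofReal_mul, ← mul_inv, Real.mul_self_sqrt hl.le]
    rw [← Complex.exp_add, ← h3]
    have h4 : Complex.exp (2 * Real.pi * Complex.I * (((j' - j : ℤ) : ℂ) * p.2.1) +
        2 * Real.pi * Complex.I * (((k' - k : ℤ) : ℂ) * p.2.2)) =
        Complex.exp (-(2 * Real.pi * Complex.I * (j * p.2.1 + k * p.2.2))) *
        Complex.exp (2 * Real.pi * Complex.I * (j' * p.2.1 + k' * p.2.2)) := by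
      rw [← Complex.exp_add]
      congr 1
      push_cast
      ring
    rw [h4]
    simp only [map_one, one_pow, mul_one]
    ring
  simp only [h1]
  rw [integral_const_mul, int_cell hl.le (fun y => Complex.exp (2 * Real.pi * Complex.I *
    (((j' - j : ℤ) : ℂ) * y))) (fun z => Complex.exp (2 * Real.pi * Complex.I *
    (((k' - k : ℤ) : ℂ) * z))), int_exp, int_exp]
  have hl0 : (l : ℂ) ≠ 0 := by exact_mod_cast hl.ne'
  by_cases h1 : j = j'
  · by_cases h2 : k = k'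
    · subst h1 h2
      simp [hl0]
    · have h3 : k' - k ≠ 0 := sub_ne_zero.2 (Ne.symm h2)
      have h4 : ¬ ((j, k) = (j', k')) := fun h => h2 (Prod.ext_iff.1 h).2
      rw [if_neg h3, if_neg h4]
      ring
  · have h3 : j' - j ≠ 0 := sub_ne_zero.2 (Ne.symm h1)
    have h4 : ¬ ((j, k) = (j', k')) := fun h => h1 (Prod.ext_iff.1 h).1
    rw [if_neg h3, if_neg h4]
    ring

/-- Bessel's inequality for the trial functions -/
lemma trial_bessel (hl : 0 < l) {χ : ℝ → ℝ} (hχ : Per χ) (h1 : ∀ y, |χ y| ≤ 1)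
    (s : Finset (ℤ × ℤ)) (v : L2Torus l) :
    ∑ i : s, ‖⟪iotaP (mulP χ hχ (Ef l i.1.1 i.1.2)), v⟫_ℂ‖ ^ 2 ≤ ‖v‖ ^ 2 := by
  have hm : MemLp (fun p : Pt => χ p.2.1 • v p) 2 (muT l) := by
    refine (Lp.memLp v).mono ?_ (Eventually.of_forall fun p => ?_)
    · have : Continuous fun p : Pt => χ p.2.1 :=
        hχ.smooth.continuous.comp (continuous_fst.comp continuous_snd)
      exact this.aestronglyMeasurable.smul (Lp.aestronglyMeasurable v)
    · rw [norm_smul, Real.norm_eq_abs]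
      calc |χ p.2.1| * ‖v p‖ ≤ 1 * ‖v p‖ := by gcongr; exact h1 _
        _ = ‖v p‖ := one_mul _
  set v' : L2Torus l := hm.toLp _ with hv'
  have hv'ae : v' =ᵐ[muT l] fun p => χ p.2.1 • v p := MemLp.coeFn_toLp hm
  have hn : ‖v'‖ ≤ ‖v‖ := by
    apply Lp.norm_le_norm_of_ae_le
    filter_upwards [hv'ae] with p hp
    rw [hp, norm_smul, Real.norm_eq_abs]
    calc |χ p.2.1| * ‖v p‖ ≤ 1 * ‖v p‖ := by gcongr; exact h1 _
      _ = ‖v p‖ := one_mul _
  have hin : ∀ u : TP l, ⟪iotaP (mulP χ hχ u), v⟫_ℂ = ⟪iotaP u, v'⟫_ℂ := by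
    intro u
    rw [L2.inner_def, L2.inner_def]
    apply integral_congr_ae
    filter_upwards [iotaP_coe u, iotaP_coe (mulP χ hχ u), hv'ae] with p e1 e2 e3
    rw [e1, e2, e3, mulP_apply, inner_smul_left_eq_smul, inner_smul_right_eq_smul]
  simp only [hin]
  rw [Finset.sum_coe_sort s (fun i => ‖⟪iotaP (Ef l i.1 i.2), v'⟫_ℂ‖ ^ 2)]
  refine ((Ef_orthonormal hl).sum_inner_products_le v').trans ?_
  exact pow_le_pow_left₀ (norm_nonneg _) hn 2

/-- derivative along a line -/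
lemma fderiv_line {E : Type*} [NormedAddCommGroup E] [NormedSpace ℝ E] {F : Pt → E}
    (hF : ContDiff ℝ ∞ F) (p v : Pt) {D : E} (h : HasDerivAt (fun t : ℝ => F (p + t • v)) D 0) :
    fderiv ℝ F p v = D := by
  have h1 := (hF.differentiable (by simp) (p + (0 : ℝ) • v)).hasFDerivAt
  have h2 : HasDerivAt (fun t : ℝ => p + t • v) v 0 := by
    simpa using (hasDerivAt_id (0 : ℝ)).smul_const v |>.const_add p
  have h3 := h1.comp_hasDerivAt 0 h2
  rw [zero_smul, add_zero] at h3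
  exact h3.unique h

/-- the derivative of a trial function -/
lemma trial_deriv {χ : ℝ → ℝ} (hχ : Per χ) (j k : ℤ) (p v : Pt) :
    fderiv ℝ (mulP χ hχ (Ef l j k) : Pt → Fib) p v =
      ((deriv χ p.2.1 * v.2.1 : ℝ) + χ p.2.1 * (2 * Real.pi * Complex.I *
        (j * v.2.1 + k * v.2.2)) : ℂ) • (Ef l j k : Pt → Fib) p := by
  apply fderiv_line (psmooth (mulP χ hχ (Ef l j k)))
  show HasDerivAt (fun t : ℝ => χ (p.2.1 + t * v.2.1) • ((((√ l)⁻¹ : ℝ) *
    ex j k (p + t • v) : ℂ) • e0)) _ 0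
  have e1 : HasDerivAt (fun t : ℝ => χ (p.2.1 + t * v.2.1)) (deriv χ p.2.1 * v.2.1) 0 := by
    have f1 : HasDerivAt (fun t : ℝ => p.2.1 + t * v.2.1) (v.2.1) 0 := by
      simpa using ((hasDerivAt_id (0 : ℝ)).mul_const v.2.1).const_add p.2.1
    have f2 : HasDerivAt χ (deriv χ p.2.1) (p.2.1 + 0 * v.2.1) := by
      rw [zero_mul, add_zero]
      exact (hχ.smooth.differentiable (by simp) _).hasDerivAt
    exact f2.comp 0 f1
  have e2 : HasDerivAt (fun t : ℝ => ex j k (p + t • v))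
      (ex j k p * (2 * Real.pi * Complex.I * (j * v.2.1 + k * v.2.2))) 0 := by
    unfold ex
    have f1 : HasDerivAt (fun t : ℝ => ((p.2.1 + t * v.2.1 : ℝ) : ℂ)) (v.2.1 : ℂ) 0 := by
      have : HasDerivAt (fun t : ℝ => p.2.1 + t * v.2.1) (v.2.1) 0 := by
        simpa using ((hasDerivAt_id (0 : ℝ)).mul_const v.2.1).const_add p.2.1
      exact this.ofReal_comp
    have f2 : HasDerivAt (fun t : ℝ => ((p.2.2 + t * v.2.2 : ℝ) : ℂ)) (v.2.2 : ℂ) 0 := by
      have : HasDerivAt (fun t : ℝ => p.2.2 + t * v.2.2) (v.2.2) 0 := by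
        simpa using ((hasDerivAt_id (0 : ℝ)).mul_const v.2.2).const_add p.2.2
      exact this.ofReal_comp
    have f3 := (((f1.const_mul (j : ℂ)).add (f2.const_mul (k : ℂ))).const_mul
      (2 * (Real.pi : ℂ) * Complex.I)).cexp
    have f4 : Complex.exp (2 * ↑Real.pi * Complex.I * (((fun t : ℝ => (j : ℂ) *
        ((p.2.1 + t * v.2.1 : ℝ) : ℂ)) + fun t : ℝ => (k : ℂ) * ((p.2.2 + t * v.2.2 : ℝ) : ℂ)) 0)) =
        Complex.exp (2 * ↑Real.pi * Complex.I * (↑j * ↑p.2.1 + ↑k * ↑p.2.2)) := by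
      simp
    rw [f4] at f3
    exact f3
  have e3 := e1.smul ((e2.const_mul (((√ l)⁻¹ : ℝ) : ℂ)).smul_const e0)
  refine e3.congr_deriv ?_
  rw [Ef_apply]
  simp only [zero_mul, add_zero, zero_smul]
  rw [smul_smul, ← Complex.coe_smul, ← Complex.coe_smul, smul_smul, smul_smul, ← add_smul]
  congr 1
  push_cast
  ring

end Pool.Agent.H56.Adiab
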